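import Mathlib

/-!
Counting the terms of an arithmetic progression which are divisible by a given integer, and the remainder sum of a
sieve for the progression `2 p k + 1`.
-/

set_option autoImplicit false

namespace Pool.Agent.Zk48.AP

open Finset

/-- the residue class of the solutions -/
lemma cls (m q a Y : ℕ) (hm : 0 < m) (hq : Nat.Coprime q m) :
    ∃ v : ℕ, ∀ j : ℕ, m ∣ q * (Y + j) + a ↔ j ≡ v [MOD m] := by
  have : NeZero m := ⟨hm.ne'⟩
  have hu : (q : ZMod m) * ((q : ZMod m)⁻¹) = 1 := ZMod.coe_mul_inv_eq_one q hq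
  refine ⟨((-(a : ZMod m)) * (q : ZMod m)⁻¹ - Y).val, fun j => ?_⟩
  rw [← ZMod.natCast_eq_natCast_iff, ZMod.natCast_val, ZMod.cast_id', id, ← ZMod.natCast_eq_zero_iff]
  push_cast
  constructor
  · intro h
    have h1 : (q : ZMod m) * (Y + j) = -a := eq_neg_of_add_eq_zero_left h
    have h2 : ((q : ZMod m)⁻¹) * ((q : ZMod m) * (Y + j)) = Y + j := by
      rw [← mul_assoc, mul_comm ((q : ZMod m)⁻¹), hu, one_mul]
    rw [← h1, mul_comm ((q : ZMod m) * (Y + j)), h2]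
    ring
  · intro h
    rw [h]
    calc (q : ZMod m) * (Y + (-(a : ZMod m) * (q : ZMod m)⁻¹ - Y)) + a =
        -(a : ZMod m) * ((q : ZMod m) * (q : ZMod m)⁻¹) + a := by ring
      _ = 0 := by rw [hu]; ring

/-- the number of the solutions in `[1, H]` -/
lemma cnt (m q a Y H : ℕ) (hm : 0 < m) (hq : Nat.Coprime q m) :
    |(((Icc 1 H).filter (fun j : ℕ => m ∣ q * (Y + j) + a)).card : ℝ) - (H : ℝ) / m| ≤ 1 := by
  obtain ⟨v, hv⟩ := cls m q a Y hm hq
  have e1 : (Icc 1 H).filter (fun j : ℕ => m ∣ q * (Y + j) + a) = (Ioc 0 H).filter (fun j => j ≡ v [MOD m]) := by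
    ext j
    rw [mem_filter, mem_filter, mem_Icc, mem_Ioc, hv j]
    constructor
    · rintro ⟨⟨h1, h2⟩, h3⟩
      exact ⟨⟨by omega, h2⟩, h3⟩
    · rintro ⟨⟨h1, h2⟩, h3⟩
      exact ⟨⟨by omega, h2⟩, h3⟩
  rw [e1]
  have h1 := Nat.Ioc_filter_modEq_card 0 H hm v
  have hm0 : (0 : ℚ) < m := by exact_mod_cast hm
  have hle : ⌊(((0 : ℕ) : ℚ) - v) / (m : ℚ)⌋ ≤ ⌊((H : ℚ) - v) / (m : ℚ)⌋ := by
    apply Int.floor_le_floor
    rw [div_le_div_iff_of_pos_right hm0]
    push_cast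
    have : (0 : ℚ) ≤ H := Nat.cast_nonneg _
    linarith
  rw [max_eq_left (by linarith)] at h1
  have h2 : ((((Ioc 0 H).filter (fun j => j ≡ v [MOD m])).card : ℤ) : ℚ) =
      ((⌊((H : ℚ) - v) / (m : ℚ)⌋ - ⌊(((0 : ℕ) : ℚ) - v) / (m : ℚ)⌋ : ℤ) : ℚ) := by rw [h1]
  have f1 := Int.floor_le (((H : ℚ) - v) / (m : ℚ))
  have f2 := Int.lt_floor_add_one (((H : ℚ) - v) / (m : ℚ))
  have f3 := Int.floor_le ((((0 : ℕ) : ℚ) - v) / (m : ℚ))
  have f4 := Int.lt_floor_add_one ((((0 : ℕ) : ℚ) - v) / (m : ℚ))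
  have e2 : ((H : ℚ) - v) / m - (((0 : ℕ) : ℚ) - v) / m = (H : ℚ) / m := by
    field_simp
    push_cast
    ring
  push_cast at h2
  have h3 : |((((Ioc 0 H).filter (fun j => j ≡ v [MOD m])).card : ℕ) : ℚ) - (H : ℚ) / m| ≤ 1 := by
    rw [abs_le]
    push_cast at f1 f2 f3 f4 e2
    constructor <;> linarith
  have h4 : |((((((Ioc 0 H).filter (fun j => j ≡ v [MOD m])).card : ℕ) : ℚ) - (H : ℚ) / m : ℚ) : ℝ)| ≤ ((1 : ℚ) : ℝ) := by
    rw [← Rat.cast_abs]
    exact_mod_cast h3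
  push_cast at h4
  exact h4

/-- the number of the roots of the progression modulo a prime -/
def rho (q ℓ : ℕ) : ℕ := if ℓ ∣ q then 0 else 1

/-- the remainder sum -/
theorem rem (P : Finset ℕ) (hP : ∀ p ∈ P, p.Prime) (c : Finset ℕ → ℝ) (L D : ℝ) (q a Y H : ℕ) (hqa : Nat.Coprime a q)
    (hL : 0 ≤ L) (hD : 0 ≤ D) (hcL : ∀ T, |c T| ≤ L) (hcD : ∀ T ⊆ P, c T ≠ 0 → ((∏ p ∈ T, p : ℕ) : ℝ) ≤ D) :
    |∑ T ∈ P.powerset, c T * ((((Icc 1 H).filter (fun j : ℕ => ∏ p ∈ T, p ∣ q * (Y + j) + a)).card : ℝ) -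
        (Icc 1 H).card * ∏ p ∈ T, ((rho q p : ℝ) / p))| ≤ L * D := by
  have hone : ∀ T ∈ P.powerset, |c T * ((((Icc 1 H).filter (fun j : ℕ => ∏ p ∈ T, p ∣ q * (Y + j) + a)).card : ℝ) -
        (Icc 1 H).card * ∏ p ∈ T, ((rho q p : ℝ) / p))| ≤
      if ((∏ p ∈ T, p : ℕ) : ℝ) ≤ D then L else 0 := by
    intro T hT
    rw [mem_powerset] at hT
    by_cases hc : c T = 0
    · rw [hc, zero_mul, abs_zero]
      split_ifs
      · exact hL
      · exact le_rfl
    rw [if_pos (hcD T hT hc), abs_mul]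
    have hmul : |((((Icc 1 H).filter (fun j : ℕ => ∏ p ∈ T, p ∣ q * (Y + j) + a)).card : ℝ) -
        (Icc 1 H).card * ∏ p ∈ T, ((rho q p : ℝ) / p))| ≤ 1 := by
      rw [Nat.card_Icc, Nat.add_sub_cancel]
      by_cases hq : ∃ p ∈ T, p ∣ q
      · obtain ⟨p, hp, hpq⟩ := hq
        have h1 : (Icc 1 H).filter (fun j : ℕ => ∏ p ∈ T, p ∣ q * (Y + j) + a) = ∅ := by
          rw [filter_eq_empty_iff]
          intro j _ hj
          have h2 : p ∣ q * (Y + j) + a := (dvd_prod_of_mem _ hp).trans hj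
          have h3 : p ∣ a := (Nat.dvd_add_right (hpq.mul_right _)).1 h2
          have h4 := Nat.dvd_gcd h3 hpq
          rw [hqa.gcd_eq_one] at h4
          exact (hP p (hT hp)).one_lt.ne' (Nat.dvd_one.1 h4)
        have h2 : ∏ p ∈ T, ((rho q p : ℝ) / p) = 0 := by
          apply prod_eq_zero hp
          unfold rho
          rw [if_pos hpq]
          simp
        rw [h1, h2]
        simp
      · push Not at hq
        have h1 : ∏ p ∈ T, ((rho q p : ℝ) / p) = 1 / ((∏ p ∈ T, p : ℕ) : ℝ) := by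
          push_cast
          rw [one_div, ← prod_inv_distrib]
          apply prod_congr rfl
          intro p hp
          unfold rho
          rw [if_neg (hq p hp)]
          simp
        rw [h1, mul_one_div]
        apply cnt
        · exact prod_pos fun p hp => (hP p (hT hp)).pos
        · apply Nat.Coprime.prod_right
          intro p hp
          exact ((Nat.Prime.coprime_iff_not_dvd (hP p (hT hp))).2 (hq p hp)).symm
    calc |c T| * _ ≤ L * 1 := mul_le_mul (hcL T) hmul (abs_nonneg _) hL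
      _ = L := mul_one _
  have hcard : ((P.powerset.filter (fun T => ((∏ p ∈ T, p : ℕ) : ℝ) ≤ D)).card : ℝ) ≤ D := by
    have h1 : (P.powerset.filter (fun T => ((∏ p ∈ T, p : ℕ) : ℝ) ≤ D)).card ≤ (Icc 1 ⌊D⌋₊).card := by
      apply card_le_card_of_injOn (fun T => ∏ p ∈ T, p)
      · intro T hT
        rw [mem_coe, mem_filter, mem_powerset] at hT
        rw [mem_coe, mem_Icc]
        exact ⟨Nat.one_le_iff_ne_zero.2 (prod_pos fun p hp => (hP p (hT.1 hp)).pos).ne', Nat.le_floor hT.2⟩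
      · intro T hT T' hT' h
        rw [mem_coe, mem_filter, mem_powerset] at hT hT'
        have h2 := Nat.primeFactors_prod (fun p hp => hP p (hT.1 hp))
        have h3 := Nat.primeFactors_prod (fun p hp => hP p (hT'.1 hp))
        rw [← h2, ← h3]
        exact congrArg _ h
    rw [Nat.card_Icc, Nat.add_sub_cancel] at h1
    calc ((P.powerset.filter (fun T => ((∏ p ∈ T, p : ℕ) : ℝ) ≤ D)).card : ℝ) ≤ (⌊D⌋₊ : ℝ) := by exact_mod_cast h1
      _ ≤ D := Nat.floor_le hD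
  calc _ ≤ ∑ T ∈ P.powerset, |c T * ((((Icc 1 H).filter (fun j : ℕ => ∏ p ∈ T, p ∣ q * (Y + j) + a)).card : ℝ) -
        (Icc 1 H).card * ∏ p ∈ T, ((rho q p : ℝ) / p))| := abs_sum_le_sum_abs _ _
    _ ≤ ∑ T ∈ P.powerset, (if ((∏ p ∈ T, p : ℕ) : ℝ) ≤ D then L else 0) := sum_le_sum hone
    _ = (P.powerset.filter (fun T => ((∏ p ∈ T, p : ℕ) : ℝ) ≤ D)).card * L := by
        rw [← sum_filter, sum_const, nsmul_eq_mul]
    _ ≤ D * L := mul_le_mul_of_nonneg_right hcard hL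
    _ = L * D := mul_comm _ _

end Pool.Agent.Zk48.AP
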