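import Pool.Agent.Zk48.AP.Mer
import Pool.Agent.Zk41.P4.Rich
import Pool.Agent.Y677.RSZ.Eng4

/-!
Richert's theorem for the numbers `2 k p + 1`, for every prime `p` and all intervals of `k`.
-/

set_option autoImplicit false

namespace Pool.Agent.Zk48.AP

open Finset Filter Topology
open Pool.Agent.Y677.RSZ (ev_log)
open Pool.Agent.W23.DC
open Pool.Agent.Y882
open Pool.Agent.Y882.KW
open Pool.Agent.K3h19.RV (Lam)

/-- the sieve product -/
noncomputable def VV (p H : ℕ) : ℝ := ∏ ℓ ∈ (Icc 1 H).filter Nat.Prime, (1 - (rho (2 * p) ℓ : ℝ) / ℓ)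

open Classical in
/-- the `k` in `(Y, Y + H]` such that `p ∤ k` and `2 k p + 1` has at most `r` prime factors, all at least `z` -/
noncomputable def RR (r : ℕ) (z : ℝ) (p Y H : ℕ) : Finset ℕ :=
  (Ioc Y (Y + H)).filter (fun k => ¬ p ∣ k ∧ (2 * k * p + 1).primeFactorsList.length ≤ r ∧
    ∀ ℓ : ℕ, ℓ.Prime → ℓ ∣ 2 * k * p + 1 → z ≤ ℓ)

theorem Lam_pos (r : ℕ) (hr : 1 ≤ r) : 1 ≤ Lam r := by
  unfold Lam
  have h3 : (3 : ℝ) ≤ 3 ^ r := by
    calc (3 : ℝ) = 3 ^ 1 := (pow_one _).symm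
      _ ≤ 3 ^ r := pow_le_pow_right₀ (by norm_num) hr
  have h1 : 0 ≤ Real.log ((3 ^ r + 1) / 4) := Real.log_nonneg (by linarith)
  have h2 : 0 < Real.log 3 := Real.log_pos (by norm_num)
  have := div_nonneg h1 h2.le
  linarith

set_option maxHeartbeats 1600000 in
/-- **Richert's theorem in the progressions `2 k p + 1`**, in terms of the length of the interval -/
theorem low_H (r : ℕ) (hr : 1 ≤ r) (θ α : ℝ) (hθ : 0 < θ) (hα : θ ≤ α) (h : 1 + α < θ * Lam r) :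
    ∃ ζ δ c : ℝ, 0 < ζ ∧ 0 < δ ∧ 0 < c ∧ ∃ H₀ : ℕ, ∀ p Y H : ℕ, p.Prime → H₀ ≤ H → H₀ ≤ p → (p : ℝ) ^ θ ≤ H →
      ((Y + H : ℕ) : ℝ) ≤ (p : ℝ) ^ α →
      δ * (H * VV p H) ≤ (RR r ((H : ℝ) ^ ζ) p Y H).card ∧ c * (H / Real.log H) ≤ δ * (H * VV p H) := by
  classical
  have hL1 := Lam_pos r hr
  have hL0 : 0 < Lam r := by linarith
  obtain ⟨g, hgd⟩ : ∃ g : ℝ, g = (1 + α) / θ := ⟨_, rfl⟩
  have hg0 : 0 < g := by rw [hgd]; apply div_pos <;> linarith
  have hgθ : θ * g = 1 + α := by rw [hgd]; field_simp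
  have hgL : g / Lam r < 1 := by
    rw [div_lt_one hL0, hgd, div_lt_iff₀ hθ]
    linarith
  have hgL0 : 0 < g / Lam r := by positivity
  obtain ⟨τ, hτd⟩ : ∃ τ : ℝ, τ = (g / Lam r + 1) / 2 := ⟨_, rfl⟩
  have hτ0 : 0 < τ := by rw [hτd]; positivity
  have hτ1 : τ < 1 := by rw [hτd]; linarith
  have hτL : g < τ * Lam r := by
    have h1 : g / Lam r < τ := by rw [hτd]; linarith
    rwa [div_lt_iff₀ hL0] at h1
  obtain ⟨υ, lam, S, hτυ, hυτ, hlam, hgS, hrS, hint⟩ := Pool.Agent.Zk41.P4.richertD r hr g τ hg0 hτ0 hτL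
  have hυ0 : 0 < υ := by linarith
  obtain ⟨ε, hεd⟩ : ∃ ε : ℝ, ε = (1 - τ) / 8 := ⟨_, rfl⟩
  have hε0 : 0 < ε := by rw [hεd]; linarith
  obtain ⟨δ, ε₁, η, hδ, hε₁, hε₁ζ, hε₁β, hη, Y0, HC⟩ :=
    core4 1 τ (τ / 4) υ lam (lam / υ) (τ + ε) 1 ε (by linarith) (by linarith) (by linarith) (by linarith) hτυ hυτ
      hlam.le (by positivity) (by rw [div_mul_cancel₀ _ hυ0.ne']) hint (by linarith) one_pos hε0
  obtain ⟨Y1, HM⟩ := mer ε₁ υ η (1 / θ + 1) hε₁ (by linarith) hη (by positivity)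
  obtain ⟨c₁, C₁, hc₁, hC₁, Y2, HV⟩ := mert_two
  -- numerical conditions
  have hcast : Tendsto (fun N : ℕ => (N : ℝ)) atTop atTop := tendsto_natCast_atTop_atTop
  have v1 := ev_log 1 5 ε hε0
  have v2 : ∀ᶠ N : ℕ in atTop, (3 : ℝ) ≤ (N : ℝ) ^ (S - g) :=
    ((tendsto_rpow_atTop (by linarith)).comp hcast).eventually_ge_atTop _
  have v3 : ∀ᶠ N : ℕ in atTop, (2 : ℝ) ≤ (N : ℝ) ^ (τ / 4) :=
    ((tendsto_rpow_atTop (by linarith)).comp hcast).eventually_ge_atTop _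
  have v4 := ev_log 1 (16 / (δ * c₁)) (τ / 4) (by linarith)
  have v5 := ev_log 1 (8 / (δ * c₁)) (1 - υ) (by linarith)
  have v6 := ev_log 1 (8 / (δ * c₁)) 1 one_pos
  have v7 := ev_log 1 (8 * α / (δ * c₁)) 1 one_pos
  obtain ⟨N₁, hN₁⟩ := eventually_atTop.1
    (v1.and (v2.and (v3.and (v4.and (v5.and (v6.and (v7.and (eventually_ge_atTop (Y0 + Y1 + Y2 + 3)))))))))
  refine ⟨τ / 4, δ / 2, δ / 2 * c₁, by linarith, by positivity, by positivity, N₁, fun p Y H hp hH0 hp0 hpH hYH => ?_⟩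
  obtain ⟨w1, w2, w3, w4, w5, w6, -, w8⟩ := hN₁ H hH0
  obtain ⟨-, -, -, -, -, -, x7, x8⟩ := hN₁ p hp0
  rw [pow_one] at w1 w4 w5 w6 x7
  rw [Real.rpow_one] at w6 x7
  have hH3 : (3 : ℝ) ≤ H := by exact_mod_cast (by omega : 3 ≤ H)
  have hp3 : (3 : ℝ) ≤ p := by exact_mod_cast (by omega : 3 ≤ p)
  have hH0' : (0 : ℝ) < H := by linarith
  have hp0' : (0 : ℝ) < p := by linarith
  have hH1 : (1 : ℝ) ≤ H := by linarith
  have hlH : 0 < Real.log H := Real.log_pos (by linarith)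
  -- the size of `p`
  have hpg : (p : ℝ) ^ (1 + α) ≤ (H : ℝ) ^ g := by
    rw [← hgθ, Real.rpow_mul hp0'.le]
    exact Real.rpow_le_rpow (by positivity) hpH hg0.le
  have hpθ : (p : ℝ) ≤ (H : ℝ) ^ (1 / θ) := by
    calc (p : ℝ) = ((p : ℝ) ^ θ) ^ (1 / θ) := by
          rw [← Real.rpow_mul hp0'.le, mul_one_div_cancel hθ.ne', Real.rpow_one]
      _ ≤ (H : ℝ) ^ (1 / θ) := Real.rpow_le_rpow (by positivity) hpH (by positivity)
  have hq : (((2 * p : ℕ)) : ℝ) ≤ (H : ℝ) ^ (1 / θ + 1) := by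
    rw [Real.rpow_add hH0', Real.rpow_one]
    push_cast
    have h1 : (2 : ℝ) ≤ H := by linarith
    calc 2 * (p : ℝ) ≤ H * (H : ℝ) ^ (1 / θ) := mul_le_mul h1 hpθ hp0'.le hH0'.le
      _ = _ := mul_comm _ _
  have hlogHp : Real.log H ≤ α * Real.log p := by
    rw [← Real.log_rpow hp0']
    apply Real.log_le_log hH0'
    refine le_trans ?_ hYH
    push_cast
    have : (0 : ℝ) ≤ Y := Nat.cast_nonneg _
    linarith
  obtain ⟨c, hcL, hcD, hcM⟩ := HC H (by omega)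
  obtain ⟨a, ha⟩ : ∃ a : ℕ → ℕ, ∀ j : ℕ, a j = 2 * p * (Y + j) + 1 := ⟨_, fun _ => rfl⟩
  have hPZ : ∀ ℓ ∈ PZ H υ, ℓ.Prime := by
    intro ℓ hℓ
    unfold PZ at hℓ
    rw [mem_filter] at hℓ
    exact hℓ.2.1
  have hrem : |∑ T ∈ (PZ H υ).powerset, c T * ((((Icc 1 H).filter (fun j => ∏ ℓ ∈ T, ℓ ∣ a j)).card : ℝ) -
          (Icc 1 H).card * ∏ ℓ ∈ T, ((rho (2 * p) ℓ : ℝ) / ℓ))| ≤ (Icc 1 H).card * (H : ℝ) ^ (-ε) := by
    have h1 := rem (PZ H υ) hPZ c (5 * Real.log H) ((H : ℝ) ^ (τ + ε)) (2 * p) 1 Y H (Nat.coprime_one_left _)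
      (by positivity) (by positivity) hcL hcD
    simp_rw [← ha] at h1
    refine h1.trans ?_
    rw [Nat.card_Icc, Nat.add_sub_cancel]
    calc 5 * Real.log H * (H : ℝ) ^ (τ + ε) ≤ (H : ℝ) ^ ε * (H : ℝ) ^ (τ + ε) := by gcongr
      _ = (H : ℝ) ^ (τ + 2 * ε) := by
          rw [← Real.rpow_add hH0']
          congr 1
          ring
      _ ≤ (H : ℝ) ^ (1 - ε) := by
          apply Real.rpow_le_rpow_of_exponent_le hH1
          rw [hεd]
          linarith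
      _ = H * (H : ℝ) ^ (-ε) := by
          rw [sub_eq_add_neg, Real.rpow_add hH0', Real.rpow_one]
  have hmain := hcM (Icc 1 H) a (rho (2 * p)) H (by rw [Real.rpow_one])
    (fun ℓ _ => by unfold rho; split_ifs <;> omega)
    (fun ℓ hℓ => by have := hℓ.two_le; unfold rho; split_ifs <;> omega)
    (HM H (by omega) (2 * p) (by have := hp.pos; omega) hq) hrem
  rw [Nat.card_Icc, Nat.add_sub_cancel] at hmain
  have hV := (HV H (by omega) p hp).1
  change c₁ / Real.log H ≤ VV p H at hV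
  change δ * H * VV p H ≤ _ at hmain
  have hHL : c₁ * (H / Real.log H) ≤ H * VV p H := by
    calc c₁ * (H / Real.log H) = H * (c₁ / Real.log H) := by ring
      _ ≤ _ := mul_le_mul_of_nonneg_left hV hH0'.le
  -- the squares
  obtain ⟨B, hB⟩ : ∃ B : Finset ℕ, B = (Icc 1 H).filter (fun j : ℕ => ∃ q ∈ pr H (τ / 4) υ, q ^ 2 ∣ a j) := ⟨_, rfl⟩
  have hBc : (B.card : ℝ) ≤ δ * c₁ / 4 * (H / Real.log H) := by
    have h1 : B.card ≤ ∑ q ∈ pr H (τ / 4) υ, ((Icc 1 H).filter (fun j : ℕ => q ^ 2 ∣ a j)).card := by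
      refine (Finset.card_le_card (t := (pr H (τ / 4) υ).biUnion
        (fun q => (Icc 1 H).filter (fun j : ℕ => q ^ 2 ∣ a j))) ?_).trans card_biUnion_le
      intro j hj
      rw [hB, mem_filter] at hj
      obtain ⟨hj1, q, hq, hqd⟩ := hj
      rw [mem_biUnion]
      exact ⟨q, hq, mem_filter.2 ⟨hj1, hqd⟩⟩
    have h2 : ∀ q ∈ pr H (τ / 4) υ, ((((Icc 1 H).filter (fun j : ℕ => q ^ 2 ∣ a j)).card : ℕ) : ℝ) ≤
        H * (1 / (q : ℝ) ^ 2) + 1 := by
      intro q hq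
      obtain ⟨h3, h4, h5, h6⟩ := pr_facts (by omega) hq
      by_cases hqp : q ∣ 2 * p
      · have h7 : (Icc 1 H).filter (fun j : ℕ => q ^ 2 ∣ a j) = ∅ := by
          rw [filter_eq_empty_iff]
          intro j _ hj
          rw [ha] at hj
          have h8 : q ∣ 2 * p * (Y + j) + 1 := (dvd_pow_self q two_ne_zero).trans hj
          have h9 : q ∣ 1 := (Nat.dvd_add_right (hqp.mul_right _)).1 h8
          exact h3.one_lt.ne' (Nat.dvd_one.1 h9)
        rw [h7]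
        simp only [card_empty, Nat.cast_zero]
        positivity
      · have h7 := cnt (q ^ 2) (2 * p) 1 Y H (pow_pos h3.pos 2)
          (Nat.Coprime.pow_right 2 (((Nat.Prime.coprime_iff_not_dvd h3).2 hqp).symm))
        simp_rw [← ha] at h7
        have h8 := (abs_le.1 h7).2
        push_cast at h8
        rw [mul_one_div]
        linarith
    have h3 : (B.card : ℝ) ≤ ∑ q ∈ pr H (τ / 4) υ, (H * (1 / (q : ℝ) ^ 2) + 1) := by
      calc (B.card : ℝ) ≤ ∑ q ∈ pr H (τ / 4) υ, ((((Icc 1 H).filter (fun j : ℕ => q ^ 2 ∣ a j)).card : ℕ) : ℝ) := by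
            exact_mod_cast h1
        _ ≤ _ := sum_le_sum h2
    have h4 : ∑ q ∈ pr H (τ / 4) υ, ((H : ℝ) * (1 / (q : ℝ) ^ 2) + 1) =
        (H : ℝ) * ∑ q ∈ pr H (τ / 4) υ, 1 / (q : ℝ) ^ 2 + ((pr H (τ / 4) υ).card : ℝ) := by
      rw [mul_sum, sum_add_distrib, sum_const, nsmul_eq_mul, mul_one]
    have h5 := pr_sq (Y := H) (by omega) (τ / 4) υ w3
    have h6 : ((pr H (τ / 4) υ).card : ℝ) ≤ (H : ℝ) ^ υ := by
      have h7 : pr H (τ / 4) υ ⊆ Icc 1 ⌊(H : ℝ) ^ υ⌋₊ := by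
        intro q hq
        obtain ⟨g3, g4, g5, g6⟩ := pr_facts (by omega) hq
        rw [mem_Icc]
        exact ⟨g3.one_le, Nat.le_floor g6.le⟩
      calc ((pr H (τ / 4) υ).card : ℝ) ≤ ((Icc 1 ⌊(H : ℝ) ^ υ⌋₊).card : ℝ) := by exact_mod_cast Finset.card_le_card h7
        _ = (⌊(H : ℝ) ^ υ⌋₊ : ℝ) := by rw [Nat.card_Icc, Nat.add_sub_cancel]
        _ ≤ _ := Nat.floor_le (by positivity)
    rw [h4] at h3
    refine h3.trans ?_
    have hNζ : (0 : ℝ) < (H : ℝ) ^ (τ / 4) := by positivity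
    have hdc : 0 < δ * c₁ := by positivity
    have g1 : (H : ℝ) * (2 / (H : ℝ) ^ (τ / 4)) ≤ δ * c₁ / 8 * (H / Real.log H) := by
      have g2 : 16 * Real.log H ≤ (H : ℝ) ^ (τ / 4) * (δ * c₁) := by
        rw [div_mul_eq_mul_div, div_le_iff₀ hdc] at w4
        exact w4
      rw [show (H : ℝ) * (2 / (H : ℝ) ^ (τ / 4)) = (2 * H) / (H : ℝ) ^ (τ / 4) by ring,
        show δ * c₁ / 8 * (H / Real.log H) = (δ * c₁ * H / 8) / Real.log H by ring,
        div_le_div_iff₀ hNζ hlH]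
      linarith [mul_le_mul_of_nonneg_right g2 hH0'.le]
    have g3 : (H : ℝ) ^ υ ≤ δ * c₁ / 8 * (H / Real.log H) := by
      have g4 : 8 * Real.log H ≤ (H : ℝ) ^ (1 - υ) * (δ * c₁) := by
        rw [div_mul_eq_mul_div, div_le_iff₀ hdc] at w5
        exact w5
      have g5 : (H : ℝ) ^ (1 - υ) * (H : ℝ) ^ υ = H := by
        rw [← Real.rpow_add hH0', sub_add_cancel, Real.rpow_one]
      rw [show δ * c₁ / 8 * (H / Real.log H) = (δ * c₁ * H / 8) / Real.log H by ring, le_div_iff₀ hlH]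
      have g6 := mul_le_mul_of_nonneg_right g4 (show 0 ≤ (H : ℝ) ^ υ by positivity)
      have g7 : (H : ℝ) ^ (1 - υ) * (δ * c₁) * (H : ℝ) ^ υ = δ * c₁ * H := by
        rw [mul_right_comm, g5]
        ring
      linarith
    have g8 : (H : ℝ) * ∑ q ∈ pr H (τ / 4) υ, 1 / (q : ℝ) ^ 2 + ((pr H (τ / 4) υ).card : ℝ) ≤
        H * (2 / (H : ℝ) ^ (τ / 4)) + (H : ℝ) ^ υ := by gcongr
    linarith
  -- the multiples of `p`
  obtain ⟨D, hD⟩ : ∃ D : Finset ℕ, D = (Icc 1 H).filter (fun j : ℕ => p ∣ 1 * (Y + j) + 0) := ⟨_, rfl⟩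
  have hDc : (D.card : ℝ) ≤ δ * c₁ / 4 * (H / Real.log H) := by
    have h1 := cnt p 1 0 Y H hp.pos (Nat.coprime_one_left p)
    rw [← hD] at h1
    have h2 := (abs_le.1 h1).2
    have hdc : 0 < δ * c₁ := by positivity
    have g1 : (H : ℝ) / p ≤ δ * c₁ / 8 * (H / Real.log H) := by
      have g2 : 8 * Real.log H ≤ p * (δ * c₁) := by
        have g3 : 8 * α * Real.log p ≤ p * (δ * c₁) := by
          rw [div_mul_eq_mul_div, div_le_iff₀ hdc] at x7
          exact x7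
        have g4 := mul_le_mul_of_nonneg_left hlogHp (show (0 : ℝ) ≤ 8 by norm_num)
        linarith
      rw [show δ * c₁ / 8 * (H / Real.log H) = (δ * c₁ * H / 8) / Real.log H by ring, div_le_div_iff₀ hp0' hlH]
      linarith [mul_le_mul_of_nonneg_right g2 hH0'.le]
    have g3 : 1 ≤ δ * c₁ / 8 * (H / Real.log H) := by
      have g4 : 8 * Real.log H ≤ H * (δ * c₁) := by
        rw [div_mul_eq_mul_div, div_le_iff₀ hdc] at w6
        exact w6
      rw [show δ * c₁ / 8 * (H / Real.log H) = (δ * c₁ * H / 8) / Real.log H by ring, le_div_iff₀ hlH]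
      linarith
    linarith
  -- the good points
  obtain ⟨W, hW⟩ : ∃ W : Finset ℕ, W = (Icc 1 H).filter (fun j => 0 < WW H (τ / 4) υ lam (lam / υ) (a j)) := ⟨_, rfl⟩
  have hmain' : δ * H * VV p H ≤ (W.card : ℝ) := by
    rw [hW]
    exact hmain
  have hsub : W ⊆ ((Icc 1 H).filter (fun j => Y + j ∈ RR r ((H : ℝ) ^ (τ / 4)) p Y H)) ∪ (B ∪ D) := by
    intro j hj
    rw [hW, mem_filter] at hj
    obtain ⟨hj1, hj2⟩ := hj
    by_cases hjB : j ∈ B
    · exact mem_union_right _ (mem_union_left _ hjB)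
    by_cases hjD : j ∈ D
    · exact mem_union_right _ (mem_union_right _ hjD)
    apply mem_union_left
    have hjI := mem_Icc.1 hj1
    have hsz : ((a j : ℕ) : ℝ) ≤ (H : ℝ) ^ S := by
      have h1 : (((Y + j : ℕ)) : ℝ) ≤ (p : ℝ) ^ α := by
        refine le_trans ?_ hYH
        exact_mod_cast Nat.add_le_add_left hjI.2 Y
      have h2 : (1 : ℝ) ≤ p * (p : ℝ) ^ α := by
        have h3 : (1 : ℝ) ≤ (p : ℝ) ^ α := Real.one_le_rpow (by linarith) (by linarith)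
        exact one_le_mul_of_one_le_of_one_le (by linarith) h3
      rw [ha]
      push_cast
      push_cast at h1
      calc 2 * (p : ℝ) * (Y + j) + 1 ≤ 2 * (p : ℝ) * (p : ℝ) ^ α + p * (p : ℝ) ^ α := by
            have := mul_le_mul_of_nonneg_left h1 (show 0 ≤ 2 * (p : ℝ) by positivity)
            linarith
        _ = 3 * (p : ℝ) ^ (1 + α) := by
            rw [Real.rpow_add hp0', Real.rpow_one]
            ring
        _ ≤ (H : ℝ) ^ (S - g) * (H : ℝ) ^ g := mul_le_mul w2 hpg (by positivity) (by positivity)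
        _ = (H : ℝ) ^ S := by
            rw [← Real.rpow_add hH0']
            congr 1
            ring
    have halm := almost H (by omega) (τ / 4) υ lam S r hτυ hυ0 (by linarith) hlam hrS (a j)
      (by rw [ha]; omega) hsz hj2 (by
        intro q hq hqd
        apply hjB
        rw [hB, mem_filter]
        exact ⟨hj1, q, hq, hqd⟩)
    have hak : a j = 2 * (Y + j) * p + 1 := by
      rw [ha]
      ring
    rw [hak] at halm
    rw [mem_filter]
    refine ⟨hj1, ?_⟩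
    unfold RR
    rw [mem_filter, mem_Ioc]
    refine ⟨⟨by omega, by omega⟩, ?_, halm.1, halm.2⟩
    intro hpd
    apply hjD
    rw [hD, mem_filter]
    refine ⟨hj1, ?_⟩
    rwa [one_mul, add_zero]
  have hinj : ((Icc 1 H).filter (fun j => Y + j ∈ RR r ((H : ℝ) ^ (τ / 4)) p Y H)).card ≤
      (RR r ((H : ℝ) ^ (τ / 4)) p Y H).card := by
    apply card_le_card_of_injOn (fun j => Y + j)
    · intro j hj
      rw [mem_coe, mem_filter] at hj
      exact hj.2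
    · intro i _ j _ hij
      exact Nat.add_left_cancel hij
  have hcard : (W.card : ℝ) ≤ (RR r ((H : ℝ) ^ (τ / 4)) p Y H).card + (B.card + D.card) := by
    have h1 := (Finset.card_le_card hsub).trans (card_union_le _ _)
    have h2 := card_union_le B D
    have h3 : W.card ≤ (RR r ((H : ℝ) ^ (τ / 4)) p Y H).card + (B.card + D.card) := by omega
    exact_mod_cast h3
  have hfin := mul_le_mul_of_nonneg_left hHL hδ.le
  constructor
  · linarith
  · linarith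

end Pool.Agent.Zk48.AP
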