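import Pool.Agent.Zk48.AP.Sz

/-!
Almost primes `2 k p + 1` for all primes `p`: both parts.
-/

set_option autoImplicit false

namespace Pool.Agent.Zk48.AP

open Finset Filter Topology
open Pool.Agent.K3h19.RV (Lam)

theorem every (r : ℕ) (hr : 1 ≤ r) (θ α : ℝ) (hθ : 0 < θ) (h : 1 + α < θ * Lam r) :
    ∃ δ c : ℝ, 0 < δ ∧ 0 < c ∧ ∀ (l : ℕ) (κ ρ : ℝ), 0 < κ → 0 < ρ → ∃ B p₀ : ℕ, ∀ p Y H : ℕ, p.Prime → p₀ ≤ p →
      (p : ℝ) ^ θ ≤ H → ((Y + H : ℕ) : ℝ) ≤ (p : ℝ) ^ α →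
      c * (H / Real.log H) ≤ (RR r ((p : ℝ) ^ δ) p Y H).card ∧
      ∀ S : Finset ℕ, S ⊆ Ioc Y (Y + H) →
      (∀ k ∈ S, ∀ ℓ : ℕ, ℓ.Prime → ℓ ∣ 2 * k * p + 1 → (p : ℝ) ^ ρ ≤ ℓ) →
      κ * (H / Real.log H) ≤ S.card →
      ∃ a d : ℕ, 1 ≤ d ∧ (d : ℝ) ≤ Real.log p ^ B ∧ ∀ i < l, a + i * d ∈ S := by
  classical
  by_cases hα : θ ≤ α
  · obtain ⟨ζ, δ, c, hζ, hδ, hc, H₀, hlow⟩ := low_H r hr θ α hθ hα h
    refine ⟨θ * ζ, c, by positivity, hc, fun l κ ρ hκ hρ => ?_⟩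
    obtain ⟨B, p₁, hden⟩ := dense l θ α κ ρ hθ hα hκ hρ
    have hcast : Tendsto (fun N : ℕ => (N : ℝ)) atTop atTop := tendsto_natCast_atTop_atTop
    obtain ⟨N₁, hN₁⟩ := eventually_atTop.1
      (((tendsto_rpow_atTop hθ).comp hcast).eventually_ge_atTop (H₀ : ℝ))
    refine ⟨B, p₁ + N₁ + H₀, fun p Y H hp hp0 hpH hYH => ⟨?_, hden p Y H hp (by omega) hpH hYH⟩⟩
    have hH : H₀ ≤ H := by exact_mod_cast (hN₁ p (by omega)).trans hpH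
    obtain ⟨h1, h2⟩ := hlow p Y H hp hH (by omega) hpH hYH
    have hsub : RR r ((H : ℝ) ^ ζ) p Y H ⊆ RR r ((p : ℝ) ^ (θ * ζ)) p Y H := by
      intro k hk
      unfold RR at hk ⊢
      rw [mem_filter] at hk ⊢
      refine ⟨hk.1, hk.2.1, hk.2.2.1, fun ℓ hℓ hd => le_trans ?_ (hk.2.2.2 ℓ hℓ hd)⟩
      rw [Real.rpow_mul (Nat.cast_nonneg _)]
      exact Real.rpow_le_rpow (by positivity) hpH hζ.le
    have h3 : ((RR r ((H : ℝ) ^ ζ) p Y H).card : ℝ) ≤ (RR r ((p : ℝ) ^ (θ * ζ)) p Y H).card := by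
      exact_mod_cast card_le_card hsub
    linarith
  · push Not at hα
    refine ⟨1, 1, one_pos, one_pos, fun l κ ρ hκ hρ => ⟨0, 2, fun p Y H hp hp0 hpH hYH => ?_⟩⟩
    exfalso
    have hp1 : (1 : ℝ) < p := by exact_mod_cast hp.one_lt
    have h1 : (p : ℝ) ^ α < (p : ℝ) ^ θ := Real.rpow_lt_rpow_of_exponent_lt hp1 hα
    have h2 : (H : ℝ) ≤ ((Y + H : ℕ) : ℝ) := by
      push_cast
      have : (0 : ℝ) ≤ Y := Nat.cast_nonneg _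
      linarith
    linarith

end Pool.Agent.Zk48.AP
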