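import Pool.Agent.Zk48.AP.Cnt
import Pool.Agent.W378.DC.MP
import Pool.Agent.Y882.KW.Alm
import Pool.Agent.Y882.KW.Core4
import Pool.Agent.H305R2.MertensE

/-!
The theorem of Mertens for the primes which do not divide a given modulus.
-/

set_option autoImplicit false

namespace Pool.Agent.Zk48.AP

open Finset Filter Topology
open Pool.Agent.W23.DC
open Pool.Agent.Y882
open Pool.Agent.Y882.KW

/-- membership -/
theorem pr_facts {Y : ℕ} (hY : 2 ≤ Y) {u v : ℝ} {p : ℕ} (hp : p ∈ pr Y u v) :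
    p.Prime ∧ p ≤ Y ∧ (Y : ℝ) ^ u ≤ p ∧ (p : ℝ) < (Y : ℝ) ^ v := by
  unfold pr at hp
  rw [mem_filter, mem_Icc] at hp
  refine ⟨hp.2.1, hp.1.2, ?_, (tt_lt Y p v hY hp.2.1.pos).1 hp.2.2.2⟩
  by_contra h
  push Not at h
  exact absurd hp.2.2.1 (not_le.2 ((tt_lt Y p u hY hp.2.1.pos).2 h))

/-- the sum of the inverse squares of the primes `p ≥ Y ^ u` -/
theorem pr_sq {Y : ℕ} (hY : 2 ≤ Y) (u v : ℝ) (hu : (2 : ℝ) ≤ (Y : ℝ) ^ u) :
    ∑ p ∈ pr Y u v, 1 / (p : ℝ) ^ 2 ≤ 2 / (Y : ℝ) ^ u := by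
  set a : ℕ := ⌈(Y : ℝ) ^ u⌉₊ - 1 with ha
  have hceil := Nat.le_ceil ((Y : ℝ) ^ u)
  have h2 : 2 ≤ ⌈(Y : ℝ) ^ u⌉₊ := by
    have : (2 : ℝ) ≤ (⌈(Y : ℝ) ^ u⌉₊ : ℝ) := hu.trans hceil
    exact_mod_cast this
  have ha1 : a ≠ 0 := by omega
  have har : (Y : ℝ) ^ u - 1 ≤ a := by
    rw [ha, Nat.cast_sub (by omega)]
    push_cast
    linarith
  have ha2 : (Y : ℝ) ^ u / 2 ≤ a := by linarith
  have ha0 : (0 : ℝ) < a := by exact_mod_cast Nat.pos_of_ne_zero ha1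
  have hsub : pr Y u v ⊆ Ioc a (max a Y) := by
    intro p hp
    obtain ⟨h3, h4, h5, h6⟩ := pr_facts hY hp
    rw [mem_Ioc]
    refine ⟨?_, h4.trans (le_max_right _ _)⟩
    have h7 : ⌈(Y : ℝ) ^ u⌉₊ ≤ p := Nat.ceil_le.2 h5
    omega
  calc ∑ p ∈ pr Y u v, 1 / (p : ℝ) ^ 2 ≤ ∑ p ∈ Ioc a (max a Y), 1 / (p : ℝ) ^ 2 :=
        sum_le_sum_of_subset_of_nonneg hsub (fun i _ _ => by positivity)
    _ = ∑ p ∈ Ioc a (max a Y), ((p : ℝ) ^ 2)⁻¹ := by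
        apply sum_congr rfl
        intro p _
        rw [one_div]
    _ ≤ (a : ℝ)⁻¹ - ((max a Y : ℕ) : ℝ)⁻¹ := sum_Ioc_inv_sq_le_sub ha1 (le_max_left _ _)
    _ ≤ (a : ℝ)⁻¹ := by
        have : (0 : ℝ) ≤ ((max a Y : ℕ) : ℝ)⁻¹ := by positivity
        linarith
    _ ≤ 2 / (Y : ℝ) ^ u := by
        have hY0 : (0 : ℝ) < (Y : ℝ) ^ u := by linarith
        rw [inv_eq_one_div, div_le_div_iff₀ ha0 hY0]
        linarith

lemma pr_sub (N : ℕ) (u v a b : ℝ) (h1 : u ≤ a) (h2 : b ≤ v) :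
    (pr N u v).filter (fun p => a ≤ tt N p ∧ tt N p < b) = pr N a b := by
  classical
  ext p
  simp only [pr, mem_filter]
  constructor
  · rintro ⟨⟨h3, h4, h5, h6⟩, h7, h8⟩
    exact ⟨h3, h4, h7, h8⟩
  · rintro ⟨h3, h4, h5, h6⟩
    exact ⟨⟨h3, h4, h1.trans h5, lt_of_lt_of_le h6 h2⟩, h5, h6⟩

/-- Mertens' theorem -/
theorem mer1 (ε₁ w η : ℝ) (hε : 0 < ε₁) (hw : w ≤ 1) (hη : 0 < η) :
    ∃ N₀ : ℕ, ∀ N : ℕ, N₀ ≤ N → Mer (pr N ε₁ w) (tt N) (fun p => 1 / (p : ℝ)) ε₁ w η := by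
  obtain ⟨N₀, H⟩ := Pool.Agent.W378.DC.MP ε₁ (η / 2) hε (by positivity)
  have hcast : Tendsto (fun N : ℕ => (N : ℝ)) atTop atTop := tendsto_natCast_atTop_atTop
  obtain ⟨N₂, h2⟩ := eventually_atTop.1
    (((tendsto_rpow_atTop hε).comp hcast).eventually_ge_atTop (max 2 (4 / (η / 2))))
  refine ⟨N₀ + N₂ + 2, fun N hN a b ha hab hb => ?_⟩
  have h1 := H N (by omega) a b ha hab (hb.trans hw)
  have m2 : max 2 (4 / (η / 2)) ≤ (N : ℝ) ^ ε₁ := h2 N (by omega)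
  have m3 := (le_max_left _ _).trans m2
  have m4 := (le_max_right _ _).trans m2
  have hNe : (0 : ℝ) < (N : ℝ) ^ ε₁ := by linarith
  have hN2 : 2 ≤ N := by omega
  rw [pr_sub N ε₁ w a b ha hb]
  have hN1 : (1 : ℝ) ≤ N := by exact_mod_cast (by omega : 1 ≤ N)
  have hsub : pr N a b ⊆ pr N ε₁ b := by
    intro p hp
    simp only [pr, mem_filter] at hp ⊢
    exact ⟨hp.1, hp.2.1, ha.trans hp.2.2.1, hp.2.2.2⟩
  have hterm : ∀ p ∈ pr N a b, 1 / (p : ℝ) ≤ 1 / ((p : ℝ) - 1) ∧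
      1 / ((p : ℝ) - 1) ≤ 1 / (p : ℝ) + 2 * (1 / (p : ℝ) ^ 2) := by
    intro p hp
    obtain ⟨h3, h4, h5, h6⟩ := pr_facts hN2 hp
    have hp2 : (2 : ℝ) ≤ p := by exact_mod_cast h3.two_le
    constructor
    · exact one_div_le_one_div_of_le (by linarith) (by linarith)
    · rw [div_le_iff₀ (by linarith)]
      have h7 : (1 / (p : ℝ) + 2 * (1 / (p : ℝ) ^ 2)) * ((p : ℝ) - 1) = 1 + (1 / p - 2 * (1 / (p : ℝ) ^ 2)) := by
        field_simp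
        ring
      rw [h7]
      have h8 : 1 / (p : ℝ) ^ 2 ≤ (1 / p) * (1 / 2) := by
        rw [sq, one_div_mul_one_div]
        exact one_div_le_one_div_of_le (by positivity) (by nlinarith)
      linarith
  have h3 : ∑ p ∈ pr N a b, 1 / (p : ℝ) ≤ ∑ p ∈ pr N a b, 1 / ((p : ℝ) - 1) := sum_le_sum fun p hp => (hterm p hp).1
  have h4 : ∑ p ∈ pr N a b, 1 / ((p : ℝ) - 1) ≤ ∑ p ∈ pr N a b, 1 / (p : ℝ) + η / 2 := by
    calc ∑ p ∈ pr N a b, 1 / ((p : ℝ) - 1) ≤ ∑ p ∈ pr N a b, (1 / (p : ℝ) + 2 * (1 / (p : ℝ) ^ 2)) :=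
          sum_le_sum fun p hp => (hterm p hp).2
      _ = ∑ p ∈ pr N a b, 1 / (p : ℝ) + 2 * ∑ p ∈ pr N a b, 1 / (p : ℝ) ^ 2 := by rw [sum_add_distrib, mul_sum]
      _ ≤ ∑ p ∈ pr N a b, 1 / (p : ℝ) + 2 * (2 / (N : ℝ) ^ ε₁) := by
          have h5 : ∑ p ∈ pr N a b, 1 / (p : ℝ) ^ 2 ≤ ∑ p ∈ pr N ε₁ b, 1 / (p : ℝ) ^ 2 :=
            sum_le_sum_of_subset_of_nonneg hsub (fun _ _ _ => by positivity)
          have h6 := pr_sq (Y := N) hN2 ε₁ b m3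
          linarith
      _ ≤ _ := by
          have h5 : 2 * (2 / (N : ℝ) ^ ε₁) ≤ η / 2 := by
            rw [← mul_div_assoc, div_le_iff₀ hNe]
            rw [div_le_iff₀ (by linarith)] at m4
            linarith
          linarith
  rw [abs_le] at h1 ⊢
  constructor <;> linarith

/-- the number of the large primes which divide `q` -/
lemma few (M : ℕ) (hM : 2 ≤ M) (ε₁ g : ℝ) (hε : 0 < ε₁) (q : ℕ) (hq : 0 < q) (hqM : (q : ℝ) ≤ (M : ℝ) ^ g)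
    (S : Finset ℕ) (hS : ∀ p ∈ S, p.Prime ∧ p ∣ q ∧ (M : ℝ) ^ ε₁ ≤ p) : (S.card : ℝ) ≤ g / ε₁ := by
  have hM1 : (1 : ℝ) < M := by exact_mod_cast (by omega : 1 < M)
  have hdvd : ∏ p ∈ S, p ∣ q := by
    apply Finset.prod_primes_dvd
    · intro p hp
      exact (hS p hp).1.prime
    · intro p hp
      exact (hS p hp).2.1
  have h1 : ((∏ p ∈ S, p : ℕ) : ℝ) ≤ q := by exact_mod_cast Nat.le_of_dvd hq hdvd
  have h2 : ((M : ℝ) ^ ε₁) ^ S.card ≤ ((∏ p ∈ S, p : ℕ) : ℝ) := by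
    push_cast
    rw [← prod_const]
    apply Finset.prod_le_prod
    · intro p _
      positivity
    · intro p hp
      exact (hS p hp).2.2
  have h3 : (M : ℝ) ^ (ε₁ * S.card) ≤ (M : ℝ) ^ g := by
    rw [Real.rpow_mul (by positivity), Real.rpow_natCast]
    exact h2.trans (h1.trans hqM)
  have h4 := (Real.rpow_le_rpow_left_iff hM1).1 h3
  rw [le_div_iff₀ hε]
  linarith

/-- **Mertens' theorem for the primes which do not divide `q`** -/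
theorem mer (ε₁ υ η g : ℝ) (hε : 0 < ε₁) (hυ : υ ≤ 1) (hη : 0 < η) (hg : 0 ≤ g) : ∃ N₀ : ℕ, ∀ M : ℕ, N₀ ≤ M →
    ∀ q : ℕ, 0 < q → (q : ℝ) ≤ (M : ℝ) ^ g →
      Mer (pr M ε₁ υ) (tt M) (fun p => (rho q p : ℝ) / p) ε₁ υ η := by
  classical
  obtain ⟨N₁, h1⟩ := mer1 ε₁ υ (η / 2) hε hυ (by linarith)
  have hcast : Tendsto (fun N : ℕ => (N : ℝ)) atTop atTop := tendsto_natCast_atTop_atTop
  obtain ⟨N₂, h2⟩ := eventually_atTop.1
    (((tendsto_rpow_atTop hε).comp hcast).eventually_ge_atTop ((g / ε₁) / (η / 2)))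
  refine ⟨N₁ + N₂ + 2, fun M hM q hq hqM a b ha hab hb => ?_⟩
  have m1 := h1 M (by omega) a b ha hab hb
  have m2 : (g / ε₁) / (η / 2) ≤ (M : ℝ) ^ ε₁ := h2 M (by omega)
  have hM2 : 2 ≤ M := by omega
  have hMe : (0 : ℝ) < (M : ℝ) ^ ε₁ := by
    have : (0 : ℝ) < M := by exact_mod_cast (by omega : 0 < M)
    positivity
  obtain ⟨F, hF⟩ : ∃ F : Finset ℕ, F = (pr M ε₁ υ).filter (fun p => a ≤ tt M p ∧ tt M p < b) := ⟨_, rfl⟩
  rw [← hF] at m1 ⊢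
  have hdiff : ∑ p ∈ F, 1 / (p : ℝ) = ∑ p ∈ F, (rho q p : ℝ) / p + ∑ p ∈ F.filter (fun p => p ∣ q), 1 / (p : ℝ) := by
    rw [sum_filter, ← sum_add_distrib]
    apply sum_congr rfl
    intro p _
    unfold rho
    split_ifs with h
    · simp
    · simp
  have hS : ∀ p ∈ F.filter (fun p => p ∣ q), p.Prime ∧ p ∣ q ∧ (M : ℝ) ^ ε₁ ≤ p := by
    intro p hp
    rw [mem_filter, hF, mem_filter] at hp
    obtain ⟨h3, h4, h5, h6⟩ := pr_facts hM2 hp.1.1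
    exact ⟨h3, hp.2, h5⟩
  have hc := few M hM2 ε₁ g hε q hq hqM _ hS
  have h5 : ∑ p ∈ F.filter (fun p => p ∣ q), 1 / (p : ℝ) ≤ η / 2 := by
    calc ∑ p ∈ F.filter (fun p => p ∣ q), 1 / (p : ℝ) ≤ ∑ p ∈ F.filter (fun p => p ∣ q), 1 / (M : ℝ) ^ ε₁ := by
          apply sum_le_sum
          intro p hp
          exact one_div_le_one_div_of_le hMe (hS p hp).2.2
      _ = (F.filter (fun p => p ∣ q)).card * (1 / (M : ℝ) ^ ε₁) := by rw [sum_const, nsmul_eq_mul]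
      _ ≤ (g / ε₁) * (1 / (M : ℝ) ^ ε₁) := by gcongr
      _ ≤ η / 2 := by
          rw [mul_one_div, div_le_iff₀ hMe]
          rw [div_le_iff₀ (by linarith)] at m2
          linarith
  have h6 : 0 ≤ ∑ p ∈ F.filter (fun p => p ∣ q), 1 / (p : ℝ) := sum_nonneg fun p _ => by positivity
  rw [abs_le] at m1 ⊢
  constructor <;> linarith

/-- the product over all primes -/
theorem mert : ∃ c C : ℝ, 0 < c ∧ 0 < C ∧ ∃ N₀ : ℕ, ∀ Z : ℕ, N₀ ≤ Z →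
    c / Real.log Z ≤ ∏ p ∈ (Icc 1 Z).filter Nat.Prime, (1 - 1 / (p : ℝ)) ∧
    ∏ p ∈ (Icc 1 Z).filter Nat.Prime, (1 - 1 / (p : ℝ)) ≤ C / Real.log Z := by
  set G := Real.exp Real.eulerMascheroniConstant with hG
  have hG0 : 0 < G := Real.exp_pos _
  have h1 := Pool.Agent.H305R2.mertens_three
  obtain ⟨N₀, h2⟩ := eventually_atTop.1
    ((h1.eventually (lt_mem_nhds (show G / 2 < G by linarith))).and (h1.eventually (gt_mem_nhds (show G < 2 * G by linarith))))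
  refine ⟨1 / (2 * G), 2 / G, by positivity, by positivity, N₀ + 2, fun Z hZ => ?_⟩
  obtain ⟨h3, h4⟩ := h2 Z (by omega)
  have hZ2 : (1 : ℝ) < Z := by exact_mod_cast (by omega : 1 < Z)
  have hL : 0 < Real.log Z := Real.log_pos hZ2
  rw [lt_div_iff₀ hL] at h3
  rw [div_lt_iff₀ hL] at h4
  have hpos : 0 < ∏ p ∈ (Icc 1 Z).filter Nat.Prime, (1 - 1 / (p : ℝ)) := by
    apply prod_pos
    intro p hp
    have hp2 : (2 : ℝ) ≤ p := by exact_mod_cast (mem_filter.1 hp).2.two_le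
    have : 1 / (p : ℝ) ≤ 1 / 2 := one_div_le_one_div_of_le (by norm_num) hp2
    linarith
  have he : ∏ p ∈ (Icc 1 Z).filter Nat.Prime, (1 - (p : ℝ)⁻¹)⁻¹ =
      (∏ p ∈ (Icc 1 Z).filter Nat.Prime, (1 - 1 / (p : ℝ)))⁻¹ := by
    rw [← prod_inv_distrib]
    apply prod_congr rfl
    intro p _
    rw [one_div]
  rw [he] at h3 h4
  set V := ∏ p ∈ (Icc 1 Z).filter Nat.Prime, (1 - 1 / (p : ℝ)) with hV
  constructor
  · rw [div_le_iff₀ hL]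
    rw [inv_eq_one_div, div_lt_iff₀ hpos] at h4
    rw [div_le_iff₀ (by positivity)]
    nlinarith
  · rw [le_div_iff₀ hL]
    rw [inv_eq_one_div, lt_div_iff₀ hpos] at h3
    rw [le_div_iff₀ hG0]
    nlinarith

/-- the product over the primes which do not divide `2 p` -/
theorem mert_two : ∃ c C : ℝ, 0 < c ∧ 0 < C ∧ ∃ N₀ : ℕ, ∀ Z : ℕ, N₀ ≤ Z → ∀ p : ℕ, p.Prime →
    c / Real.log Z ≤ ∏ ℓ ∈ (Icc 1 Z).filter Nat.Prime, (1 - (rho (2 * p) ℓ : ℝ) / ℓ) ∧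
    ∏ ℓ ∈ (Icc 1 Z).filter Nat.Prime, (1 - (rho (2 * p) ℓ : ℝ) / ℓ) ≤ C / Real.log Z := by
  classical
  obtain ⟨c, C, hc, hC, N₀, h⟩ := mert
  refine ⟨c, 4 * C, hc, by positivity, N₀ + 2, fun Z hZ p hp => ?_⟩
  obtain ⟨h1, h2⟩ := h Z (by omega)
  have hZ2 : (1 : ℝ) < Z := by exact_mod_cast (by omega : 1 < Z)
  have hL : 0 < Real.log Z := Real.log_pos hZ2
  have hfac : ∀ ℓ ∈ (Icc 1 Z).filter Nat.Prime, (1 : ℝ) / 2 ≤ 1 - 1 / (ℓ : ℝ) := by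
    intro ℓ hℓ
    have hp2 : (2 : ℝ) ≤ ℓ := by exact_mod_cast (mem_filter.1 hℓ).2.two_le
    have : 1 / (ℓ : ℝ) ≤ 1 / 2 := one_div_le_one_div_of_le (by norm_num) hp2
    linarith
  have hle : ∀ ℓ ∈ (Icc 1 Z).filter Nat.Prime, 1 - 1 / (ℓ : ℝ) ≤ 1 - (rho (2 * p) ℓ : ℝ) / ℓ := by
    intro ℓ _
    unfold rho
    split_ifs
    · simp only [Nat.cast_zero, zero_div, sub_zero]
      have : (0 : ℝ) ≤ 1 / (ℓ : ℝ) := by positivity
      linarith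
    · simp
  constructor
  · refine h1.trans ?_
    apply Finset.prod_le_prod
    · intro ℓ hℓ
      have := hfac ℓ hℓ
      linarith
    · exact hle
  · obtain ⟨S, hS⟩ : ∃ S : Finset ℕ, S = (Icc 1 Z).filter Nat.Prime := ⟨_, rfl⟩
    rw [← hS] at h2 hfac hle ⊢
    have e1 : ∏ ℓ ∈ S, (1 - 1 / (ℓ : ℝ)) = (∏ ℓ ∈ S, (1 - (rho (2 * p) ℓ : ℝ) / ℓ)) *
        ∏ ℓ ∈ S.filter (fun ℓ => ℓ ∣ 2 * p), (1 - 1 / (ℓ : ℝ)) := by
      rw [prod_filter, ← prod_mul_distrib]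
      apply prod_congr rfl
      intro ℓ _
      unfold rho
      split_ifs
      · simp
      · simp
    have e2 : (1 : ℝ) / 4 ≤ ∏ ℓ ∈ S.filter (fun ℓ => ℓ ∣ 2 * p), (1 - 1 / (ℓ : ℝ)) := by
      have hcard : (S.filter (fun ℓ => ℓ ∣ 2 * p)).card ≤ 2 := by
        have h3 : S.filter (fun ℓ => ℓ ∣ 2 * p) ⊆ {2, p} := by
          intro ℓ hℓ
          rw [mem_filter, hS, mem_filter] at hℓ
          rw [mem_insert, mem_singleton]
          rcases (Nat.Prime.dvd_mul hℓ.1.2).1 hℓ.2 with h4 | h4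
          · exact Or.inl ((Nat.prime_dvd_prime_iff_eq hℓ.1.2 Nat.prime_two).1 h4)
          · exact Or.inr ((Nat.prime_dvd_prime_iff_eq hℓ.1.2 hp).1 h4)
        exact (card_le_card h3).trans card_le_two
      calc (1 : ℝ) / 4 = (1 / 2) ^ 2 := by norm_num
        _ ≤ (1 / 2) ^ (S.filter (fun ℓ => ℓ ∣ 2 * p)).card :=
            pow_le_pow_of_le_one (by norm_num) (by norm_num) hcard
        _ ≤ ∏ ℓ ∈ S.filter (fun ℓ => ℓ ∣ 2 * p), (1 - 1 / (ℓ : ℝ)) := by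
            rw [← prod_const]
            apply Finset.prod_le_prod
            · intro ℓ _
              norm_num
            · intro ℓ hℓ
              exact hfac ℓ (mem_filter.1 hℓ).1
    have e3 : 0 ≤ ∏ ℓ ∈ S, (1 - (rho (2 * p) ℓ : ℝ) / ℓ) := by
      apply prod_nonneg
      intro ℓ hℓ
      have := hfac ℓ hℓ
      have := hle ℓ hℓ
      linarith
    have e4 : (∏ ℓ ∈ S, (1 - (rho (2 * p) ℓ : ℝ) / ℓ)) * (1 / 4) ≤ C / Real.log Z := by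
      refine le_trans ?_ (e1 ▸ h2)
      exact mul_le_mul_of_nonneg_left e2 e3
    rw [mul_div_assoc]
    linarith

end Pool.Agent.Zk48.AP
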