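import Mathlib

/-!
From intervals of one length to all longer intervals at once: a maximal inequality for sets of positions.
-/

set_option autoImplicit false

namespace Pool.Agent.Zk48.AP

open Finset

/-- a one-sided maximal inequality, by induction -/
theorem maxi_aux (E : Finset ℕ) (X h : ℕ) (hh : 1 ≤ h) (P : ℕ → Prop) [DecidablePred P]
    (hP : ∀ N, P N → ∃ H, h ≤ H ∧ H < 4 * (E.filter (fun x => N < x ∧ x ≤ N + H)).card) :
    ∀ n M : ℕ, X ≤ M + n → ((Ioc M X).filter P).card ≤ 8 * (E.filter (fun x => M < x)).card := by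
  intro n
  induction n using Nat.strong_induction_on with
  | _ n ih =>
    intro M hM
    rcases ((Ioc M X).filter P).eq_empty_or_nonempty with h0 | h0
    · rw [h0, card_empty]
      exact Nat.zero_le _
    · obtain ⟨N₁, hN₁⟩ : ∃ N₁, N₁ = ((Ioc M X).filter P).min' h0 := ⟨_, rfl⟩
      have hmem : N₁ ∈ (Ioc M X).filter P := by
        rw [hN₁]
        exact min'_mem _ _
      have hmin : ∀ x ∈ (Ioc M X).filter P, N₁ ≤ x := by
        intro x hx
        rw [hN₁]
        exact min'_le _ _ hx
      rw [mem_filter, mem_Ioc] at hmem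
      obtain ⟨⟨h1, h2⟩, h3⟩ := hmem
      obtain ⟨H, hH, hHc⟩ := hP N₁ h3
      have h4 := ih (X - (N₁ + H)) (by omega) (N₁ + H) (by omega)
      have h5 : (Ioc M X).filter P ⊆ Icc N₁ (N₁ + H) ∪ (Ioc (N₁ + H) X).filter P := by
        intro x hx
        have h6 := hmin x hx
        rw [mem_filter, mem_Ioc] at hx
        rw [mem_union, mem_Icc, mem_filter, mem_Ioc]
        by_cases h7 : x ≤ N₁ + H
        · exact Or.inl ⟨h6, h7⟩
        · exact Or.inr ⟨⟨by omega, hx.1.2⟩, hx.2⟩
      have h6 : ((Ioc M X).filter P).card ≤ (H + 1) + ((Ioc (N₁ + H) X).filter P).card := by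
        refine (card_le_card h5).trans ((card_union_le _ _).trans ?_)
        rw [Nat.card_Icc]
        omega
      have h7 : (E.filter (fun x => N₁ < x ∧ x ≤ N₁ + H)).card + (E.filter (fun x => N₁ + H < x)).card ≤
          (E.filter (fun x => M < x)).card := by
        rw [← card_union_of_disjoint]
        · apply card_le_card
          intro x hx
          rw [mem_union, mem_filter, mem_filter] at hx
          rw [mem_filter]
          rcases hx with hx | hx
          · exact ⟨hx.1, by omega⟩
          · exact ⟨hx.1, by omega⟩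
        · rw [disjoint_filter]
          intro x _ hx
          omega
      omega

theorem maxi (E : Finset ℕ) (X h : ℕ) (hh : 1 ≤ h) (P : ℕ → Prop) [DecidablePred P]
    (hP : ∀ N, P N → ∃ H, h ≤ H ∧ H < 4 * (E.filter (fun x => N < x ∧ x ≤ N + H)).card) :
    ((Icc 1 X).filter P).card ≤ 8 * E.card := by
  have h1 := maxi_aux E X h hh P hP X 0 (by omega)
  have h2 : (Icc 1 X).filter P = (Ioc 0 X).filter P := by
    congr 1
  rw [h2]
  exact h1.trans (Nat.mul_le_mul_left _ (card_filter_le _ _))

open Classical in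
/-- **From one length to all longer lengths.** -/
theorem all_scales (Q : ℕ → Prop) (X h : ℕ) (hh : 1 ≤ h) (v : ℝ) (hv : 0 ≤ v) :
    ((Icc 1 X).filter (fun N => ∃ H : ℕ, h ≤ H ∧ H ≤ X ∧
      (((Ioc N (N + H)).filter Q).card : ℝ) < v * H / 4)).card ≤
      9 * ((Icc 1 (2 * X)).filter (fun N => (((Ioc N (N + h)).filter Q).card : ℝ) < v * h)).card := by
  obtain ⟨E, hE⟩ : ∃ E : Finset ℕ, E = (Icc 1 (2 * X)).filter
    (fun N => (((Ioc N (N + h)).filter Q).card : ℝ) < v * h) := ⟨_, rfl⟩
  rw [← hE]
  obtain ⟨P, hP⟩ : ∃ P : ℕ → Prop, ∀ N, P N ↔ ∃ H, h ≤ H ∧ H < 4 * (E.filter (fun x => N < x ∧ x ≤ N + H)).card :=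
    ⟨_, fun _ => Iff.rfl⟩
  have h1 := maxi E X h hh P (fun N hN => (hP N).1 hN)
  have hsub : (Icc 1 X).filter (fun N => ∃ H : ℕ, h ≤ H ∧ H ≤ X ∧
      (((Ioc N (N + H)).filter Q).card : ℝ) < v * H / 4) ⊆ (Icc 1 X).filter P ∪ E := by
    intro N hN
    rw [mem_filter, mem_Icc] at hN
    obtain ⟨⟨hN1, hN2⟩, H, hH1, hH2, hH3⟩ := hN
    rw [mem_union, mem_filter, mem_Icc]
    by_contra hcon
    push Not at hcon
    obtain ⟨hc1, hc2⟩ := hcon
    have hc3 := hc1 ⟨hN1, hN2⟩
    rw [hP] at hc3
    push Not at hc3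
    have hc4 := hc3 H hH1
    have hgood : ∀ N' : ℕ, 1 ≤ N' → N' ≤ 2 * X → N' ∉ E → v * h ≤ (((Ioc N' (N' + h)).filter Q).card : ℝ) := by
      intro N' h2 h3 h4
      by_contra h5
      push Not at h5
      apply h4
      rw [hE, mem_filter, mem_Icc]
      exact ⟨⟨h2, h3⟩, h5⟩
    have hH0 : (0 : ℝ) < H := by exact_mod_cast (by omega : 0 < H)
    have hh0 : (0 : ℝ) < h := by exact_mod_cast (by omega : 0 < h)
    by_cases h2h : H < 2 * h
    · have h2 := hgood N hN1 (by omega) hc2
      have h3 : (((Ioc N (N + h)).filter Q).card : ℝ) ≤ (((Ioc N (N + H)).filter Q).card : ℝ) := by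
        have h4 : (Ioc N (N + h)).filter Q ⊆ (Ioc N (N + H)).filter Q := by
          apply filter_subset_filter
          intro x hx
          rw [mem_Ioc] at hx ⊢
          omega
        exact_mod_cast card_le_card h4
      have h4 : (H : ℝ) ≤ 2 * h := by exact_mod_cast h2h.le
      have h5 := mul_le_mul_of_nonneg_left h4 hv
      nlinarith
    · push Not at h2h
      obtain ⟨G, hG⟩ : ∃ G : Finset ℕ, G = (Ioc N (N + (H - h))).filter (fun x => x ∉ E) := ⟨_, rfl⟩
      have hGc : H ≤ 4 * G.card := by
        have h2 : (Ioc N (N + (H - h))).card = G.card + ((Ioc N (N + (H - h))).filter (fun x => x ∈ E)).card := by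
          have h3 := card_filter_add_card_filter_not (s := Ioc N (N + (H - h))) (fun x => x ∈ E)
          rw [hG]
          omega
        have h3 : ((Ioc N (N + (H - h))).filter (fun x => x ∈ E)).card ≤
            (E.filter (fun x => N < x ∧ x ≤ N + H)).card := by
          apply card_le_card
          intro x hx
          rw [mem_filter, mem_Ioc] at hx
          rw [mem_filter]
          exact ⟨hx.2, hx.1.1, by omega⟩
        rw [Nat.card_Ioc] at h2
        omega
      have hsum1 : (G.card : ℝ) * (v * h) ≤ ∑ N' ∈ G, (((Ioc N' (N' + h)).filter Q).card : ℝ) := by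
        rw [← nsmul_eq_mul, ← sum_const]
        apply sum_le_sum
        intro N' hN'
        rw [hG, mem_filter, mem_Ioc] at hN'
        exact hgood N' (by omega) (by omega) hN'.2
      have hsum2 : ∑ N' ∈ G, ((Ioc N' (N' + h)).filter Q).card ≤ h * ((Ioc N (N + H)).filter Q).card := by
        have h2 : ∀ N' ∈ G, ((Ioc N' (N' + h)).filter Q).card =
            ((((Ioc N (N + H)).filter Q)).filter (fun k => N' < k ∧ k ≤ N' + h)).card := by
          intro N' hN'
          rw [hG, mem_filter, mem_Ioc] at hN'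
          congr 1
          ext k
          simp only [mem_filter, mem_Ioc]
          constructor
          · rintro ⟨⟨h3, h4⟩, h5⟩
            exact ⟨⟨⟨by omega, by omega⟩, h5⟩, h3, h4⟩
          · rintro ⟨⟨⟨h3, h4⟩, h5⟩, h6, h7⟩
            exact ⟨⟨h6, h7⟩, h5⟩
        rw [sum_congr rfl h2]
        simp_rw [card_filter (fun k => _ < k ∧ k ≤ _ + h)]
        rw [sum_comm]
        calc ∑ k ∈ (Ioc N (N + H)).filter Q, ∑ N' ∈ G, (if N' < k ∧ k ≤ N' + h then 1 else 0) ≤
            ∑ k ∈ (Ioc N (N + H)).filter Q, h := by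
              apply sum_le_sum
              intro k _
              rw [← card_filter]
              have h3 : G.filter (fun N' => N' < k ∧ k ≤ N' + h) ⊆ Ico (k - h) k := by
                intro N' hN'
                rw [mem_filter] at hN'
                rw [mem_Ico]
                omega
              refine (card_le_card h3).trans ?_
              rw [Nat.card_Ico]
              omega
          _ = _ := by
              rw [sum_const, smul_eq_mul, mul_comm]
      have hsum3 : (G.card : ℝ) * (v * h) ≤ h * (((Ioc N (N + H)).filter Q).card : ℝ) := by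
        refine hsum1.trans ?_
        exact_mod_cast hsum2
      have h5 : (G.card : ℝ) * v ≤ (((Ioc N (N + H)).filter Q).card : ℝ) := by
        have h6 : h * ((G.card : ℝ) * v) ≤ h * (((Ioc N (N + H)).filter Q).card : ℝ) := by
          calc h * ((G.card : ℝ) * v) = (G.card : ℝ) * (v * h) := by ring
            _ ≤ _ := hsum3
        exact le_of_mul_le_mul_left h6 hh0
      have h6 : (H : ℝ) ≤ 4 * G.card := by exact_mod_cast hGc
      have h7 := mul_le_mul_of_nonneg_left h6 hv
      linarith
  calc _ ≤ ((Icc 1 X).filter P ∪ E).card := card_le_card hsub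
    _ ≤ ((Icc 1 X).filter P).card + E.card := card_union_le _ _
    _ ≤ _ := by omega

end Pool.Agent.Zk48.AP
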