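import Pool.Agent.Zk48.AP.Main
import Pool.Agent.Y882.SI.Eng

/-!
Richert's theorem for the numbers `2 k p + 1` in almost all short intervals of `k`, for every prime `p`.
-/

set_option autoImplicit false

namespace Pool.Agent.Zk48.AP

open Finset Filter Topology Polynomial
open Pool.Agent.Zk41.PY (fn)
open Pool.Agent.Y677.RSZ (rt ev_log)
open Pool.Agent.W23.DC
open Pool.Agent.Y882
open Pool.Agent.Y882.PX
open Pool.Agent.Y882.KW
open Pool.Agent.Y882.SI (engI pos lo)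
open Pool.Agent.K3h19.RV (Lam)

open Classical in
/-- few positions with many bad values (from `Pool.Agent.Y882.SI.Sq` of the starting library) -/
theorem bad_pos (Pr : ℕ → Prop) (X h : ℕ) (t : ℝ) (ht : 0 < t) :
    (((Icc 1 X).filter (fun N => (h : ℝ) / t <
      (((Icc 1 h).filter (fun j => Pr (N + j))).card : ℝ))).card : ℝ) ≤
      t * (((Icc 1 (X + h)).filter Pr).card : ℝ) := by
  rcases Nat.eq_zero_or_pos h with h0 | h0
  · subst h0
    simp only [Nat.cast_zero, zero_div]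
    have : (Icc 1 X).filter (fun N => (0 : ℝ) <
      (((Icc 1 0).filter (fun j => Pr (N + j))).card : ℝ)) = ∅ := by
      apply filter_eq_empty_iff.2
      intro N _
      simp
    rw [this]
    simp only [card_empty, Nat.cast_zero]
    positivity
  have hh : (0 : ℝ) < h := by exact_mod_cast h0
  set A := (Icc 1 X).filter (fun N => (h : ℝ) / t <
      (((Icc 1 h).filter (fun j => Pr (N + j))).card : ℝ)) with hA
  have h1 : (A.card : ℝ) * (h / t) ≤ ∑ N ∈ Icc 1 X, (((Icc 1 h).filter (fun j => Pr (N + j))).card : ℝ) := by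
    calc (A.card : ℝ) * (h / t) = ∑ N ∈ A, (h / t : ℝ) := by rw [sum_const, nsmul_eq_mul]
      _ ≤ ∑ N ∈ A, (((Icc 1 h).filter (fun j => Pr (N + j))).card : ℝ) := by
          apply sum_le_sum
          intro N hN
          rw [hA, mem_filter] at hN
          exact hN.2.le
      _ ≤ _ := sum_le_sum_of_subset_of_nonneg (filter_subset _ _) (fun _ _ _ => Nat.cast_nonneg _)
  have h2 : ∑ N ∈ Icc 1 X, (((Icc 1 h).filter (fun j => Pr (N + j))).card : ℝ) ≤
      h * (((Icc 1 (X + h)).filter Pr).card : ℝ) := by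
    have h3 : ∑ N ∈ Icc 1 X, (((Icc 1 h).filter (fun j => Pr (N + j))).card : ℝ) =
        ∑ j ∈ Icc 1 h, (((Icc 1 X).filter (fun N => Pr (N + j))).card : ℝ) := by
      simp_rw [card_filter]
      push_cast
      rw [sum_comm]
    rw [h3]
    calc ∑ j ∈ Icc 1 h, (((Icc 1 X).filter (fun N => Pr (N + j))).card : ℝ) ≤
        ∑ j ∈ Icc 1 h, (((Icc 1 (X + h)).filter Pr).card : ℝ) := by
          apply sum_le_sum
          intro j hj
          rw [mem_Icc] at hj
          have h4 : ((Icc 1 X).filter (fun N => Pr (N + j))).card ≤ ((Icc 1 (X + h)).filter Pr).card := by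
            apply card_le_card_of_injOn (fun N => N + j)
            · intro N hN
              rw [mem_coe, mem_filter, mem_Icc] at hN
              show N + j ∈ _
              rw [mem_coe, mem_filter, mem_Icc]
              exact ⟨⟨by omega, by omega⟩, hN.2⟩
            · intro x _ y _ hxy
              simpa using hxy
          exact_mod_cast h4
      _ = _ := by
          rw [sum_const, nsmul_eq_mul, Nat.card_Icc]
          simp
  have h3 := h1.trans h2
  rw [mul_div_assoc', div_le_iff₀ ht] at h3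
  have h4 : (A.card : ℝ) * h ≤ (t * (((Icc 1 (X + h)).filter Pr).card : ℝ)) * h := by
    calc (A.card : ℝ) * h ≤ h * (((Icc 1 (X + h)).filter Pr).card : ℝ) * t := h3
      _ = _ := by ring
  exact le_of_mul_le_mul_right h4 hh

lemma ro_Pq (q ℓ : ℕ) (hℓ : ℓ.Prime) : ro (Pq q) 0 ℓ = Pool.Agent.Zk48.AP.rho q ℓ := by
  rw [ro_eq, ← rt_Pq q ℓ hℓ]
  unfold rt fn
  simp

lemma eval_Pq (p k : ℕ) : ((Pq (2 * p)).eval (k : ℤ)).natAbs = 2 * k * p + 1 := by
  have h1 := fn_Pq (2 * p) (k : ℤ)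
  unfold fn at h1
  rw [h1]
  have h2 : (((2 * p : ℕ) : ℤ) * (k : ℤ) + 1) = ((2 * k * p + 1 : ℕ) : ℤ) := by
    push_cast
    ring
  rw [h2, Int.natAbs_natCast]

/-- numbers with the square of a medium prime -/
def Bd (p X : ℕ) (ζ υ : ℝ) (k : ℕ) : Prop := ∃ q ∈ pr X ζ υ, q ^ 2 ∣ 2 * k * p + 1

lemma bd_count (p X M : ℕ) (hX : 2 ≤ X) (ζ υ : ℝ) (h2 : (2 : ℝ) ≤ (X : ℝ) ^ ζ) [DecidablePred (Bd p X ζ υ)] :
    (((Icc 1 M).filter (Bd p X ζ υ)).card : ℝ) ≤ M * (2 / (X : ℝ) ^ ζ) + (X : ℝ) ^ υ := by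
  classical
  have h1 : ((Icc 1 M).filter (Bd p X ζ υ)).card ≤
      ∑ q ∈ pr X ζ υ, ((Icc 1 M).filter (fun j : ℕ => q ^ 2 ∣ 2 * p * (0 + j) + 1)).card := by
    refine (Finset.card_le_card (t := (pr X ζ υ).biUnion
      (fun q => (Icc 1 M).filter (fun j : ℕ => q ^ 2 ∣ 2 * p * (0 + j) + 1))) ?_).trans card_biUnion_le
    intro j hj
    rw [mem_filter] at hj
    obtain ⟨hj1, q, hq, hqd⟩ := hj
    rw [mem_biUnion]
    refine ⟨q, hq, mem_filter.2 ⟨hj1, ?_⟩⟩
    rw [zero_add, show 2 * p * j + 1 = 2 * j * p + 1 by ring]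
    exact hqd
  have h3 : ∀ q ∈ pr X ζ υ, ((((Icc 1 M).filter (fun j : ℕ => q ^ 2 ∣ 2 * p * (0 + j) + 1)).card : ℕ) : ℝ) ≤
      M * (1 / (q : ℝ) ^ 2) + 1 := by
    intro q hq
    obtain ⟨h3, h4, h5, h6⟩ := pr_facts hX hq
    by_cases hqp : q ∣ 2 * p
    · have h7 : (Icc 1 M).filter (fun j : ℕ => q ^ 2 ∣ 2 * p * (0 + j) + 1) = ∅ := by
        rw [filter_eq_empty_iff]
        intro j _ hj
        have h8 : q ∣ 2 * p * (0 + j) + 1 := (dvd_pow_self q two_ne_zero).trans hj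
        have h9 : q ∣ 1 := (Nat.dvd_add_right (hqp.mul_right _)).1 h8
        exact h3.one_lt.ne' (Nat.dvd_one.1 h9)
      rw [h7]
      simp only [card_empty, Nat.cast_zero]
      positivity
    · have h7 := cnt (q ^ 2) (2 * p) 1 0 M (pow_pos h3.pos 2)
        (Nat.Coprime.pow_right 2 (((Nat.Prime.coprime_iff_not_dvd h3).2 hqp).symm))
      have h8 := (abs_le.1 h7).2
      push_cast at h8 ⊢
      rw [mul_one_div]
      linarith
  have h5 := pr_sq (Y := X) hX ζ υ h2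
  have h6 : ((pr X ζ υ).card : ℝ) ≤ (X : ℝ) ^ υ := by
    have h7 : pr X ζ υ ⊆ Icc 1 ⌊(X : ℝ) ^ υ⌋₊ := by
      intro q hq
      obtain ⟨g3, g4, g5, g6⟩ := pr_facts hX hq
      rw [mem_Icc]
      exact ⟨g3.one_le, Nat.le_floor g6.le⟩
    calc ((pr X ζ υ).card : ℝ) ≤ ((Icc 1 ⌊(X : ℝ) ^ υ⌋₊).card : ℝ) := by exact_mod_cast Finset.card_le_card h7
      _ = (⌊(X : ℝ) ^ υ⌋₊ : ℝ) := by rw [Nat.card_Icc, Nat.add_sub_cancel]
      _ ≤ _ := Nat.floor_le (by positivity)
  calc (((Icc 1 M).filter (Bd p X ζ υ)).card : ℝ) ≤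
        ∑ q ∈ pr X ζ υ, ((((Icc 1 M).filter (fun j : ℕ => q ^ 2 ∣ 2 * p * (0 + j) + 1)).card : ℕ) : ℝ) := by
        exact_mod_cast h1
    _ ≤ ∑ q ∈ pr X ζ υ, ((M : ℝ) * (1 / (q : ℝ) ^ 2) + 1) := sum_le_sum h3
    _ = (M : ℝ) * ∑ q ∈ pr X ζ υ, 1 / (q : ℝ) ^ 2 + ((pr X ζ υ).card : ℝ) := by
        rw [mul_sum, sum_add_distrib, sum_const, nsmul_eq_mul, mul_one]
    _ ≤ _ := by gcongr

set_option maxHeartbeats 1600000 in
/-- **Almost all short intervals** -/
theorem low_SI (r : ℕ) (hr : 1 ≤ r) (θ α t ε : ℝ) (hθ : 0 < θ) (hα : θ ≤ α) (ht0 : 0 < t) (ht : t ≤ 4 / 5)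
    (h : 1 + α < θ * (t * Lam r)) (hε : 0 < ε) :
    ∃ c : ℝ, 0 < c ∧ ∃ N₀ : ℕ, ∀ p X H : ℕ, p.Prime → N₀ ≤ X → N₀ ≤ p → (p : ℝ) ^ θ ≤ X →
      ((X + H : ℕ) : ℝ) ≤ (p : ℝ) ^ α → (X : ℝ) ^ ε ≤ H → H ≤ X →
      (((Icc 1 X).filter (fun N => ((RR r ((X : ℝ) ^ (t / 4)) p N H).card : ℝ) < c * (H / Real.log X))).card : ℝ) ≤
        (X : ℝ) ^ (max 1 (2 * t) + ε) / H + (X : ℝ) ^ (1 - t / 4 + ε) := by
  classical
  have hL1 := Lam_pos r hr
  have hL0 : 0 < Lam r := by linarith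
  obtain ⟨g, hgd⟩ : ∃ g : ℝ, g = (1 + α) / θ := ⟨_, rfl⟩
  have hg0 : 0 < g := by rw [hgd]; apply div_pos <;> linarith
  have hgθ : θ * g = 1 + α := by rw [hgd]; field_simp
  have hgL : g < t * Lam r := by
    rw [hgd, div_lt_iff₀ hθ]
    linarith
  obtain ⟨υ, lam, S, hτυ, hυτ, hlam, hgS, hrS, hint⟩ := Pool.Agent.Zk41.P4.richertD r hr g t hg0 ht0 hgL
  have hυ0 : 0 < υ := by linarith
  obtain ⟨δ, ε₁, η, hδ, hε₁, hε₁ζ, hε₁β, hη, Y0, HE⟩ := engI 1 1 t (t / 4) υ lam (lam / υ) (ε / 2)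
    one_pos (by linarith) (by linarith) (by linarith) (by linarith) hτυ hυτ hlam.le (by positivity)
    (by rw [div_mul_cancel₀ _ hυ0.ne']) hint (by linarith)
  obtain ⟨Y1, HM⟩ := mer ε₁ υ η (1 / θ + 1) hε₁ (by linarith) hη (by positivity)
  obtain ⟨c₁, C₁, hc₁, hC₁, Y2, HV⟩ := mert_two
  have hcast : Tendsto (fun N : ℕ => (N : ℝ)) atTop atTop := tendsto_natCast_atTop_atTop
  have v2 : ∀ᶠ N : ℕ in atTop, (3 : ℝ) ≤ (N : ℝ) ^ (S - g) :=
    ((tendsto_rpow_atTop (by linarith)).comp hcast).eventually_ge_atTop _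
  have v3 : ∀ᶠ N : ℕ in atTop, (2 : ℝ) ≤ (N : ℝ) ^ (t / 4) :=
    ((tendsto_rpow_atTop (by linarith)).comp hcast).eventually_ge_atTop _
  have v4 := ev_log 1 (4 / (δ * c₁)) (ε / 2) (by linarith)
  have v5 : ∀ᶠ N : ℕ in atTop, (5 : ℝ) ≤ (N : ℝ) ^ (ε / 2) :=
    ((tendsto_rpow_atTop (by linarith)).comp hcast).eventually_ge_atTop _
  have v6 := ev_log 1 (8 / (δ * c₁)) ε hε
  have v7 := ev_log 1 (8 * α / (δ * c₁)) 1 one_pos
  obtain ⟨N₁, hN₁⟩ := eventually_atTop.1
    (v2.and (v3.and (v4.and (v5.and (v6.and (v7.and (eventually_ge_atTop (Y0 + Y1 + Y2 + 3))))))))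
  refine ⟨δ * c₁ / 4, by positivity, N₁, fun p X H hp hX0 hp0 hpX hXH hXε hHX => ?_⟩
  obtain ⟨w2, w3, w4, w5, w6, -, w8⟩ := hN₁ X hX0
  obtain ⟨-, -, -, -, -, x7, x8⟩ := hN₁ p hp0
  rw [pow_one] at w4 w6 x7
  rw [Real.rpow_one] at x7
  have hX3 : (3 : ℝ) ≤ X := by exact_mod_cast (by omega : 3 ≤ X)
  have hp3 : (3 : ℝ) ≤ p := by exact_mod_cast (by omega : 3 ≤ p)
  have hX0' : (0 : ℝ) < X := by linarith
  have hp0' : (0 : ℝ) < p := by linarith
  have hX1 : (1 : ℝ) ≤ X := by linarith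
  have hlX : 0 < Real.log X := Real.log_pos (by linarith)
  have hXε0 : 0 < (X : ℝ) ^ ε := by positivity
  have hH0' : (0 : ℝ) < H := by linarith
  have hH1 : 0 < H := by exact_mod_cast hH0'
  have hpg : (p : ℝ) ^ (1 + α) ≤ (X : ℝ) ^ g := by
    rw [← hgθ, Real.rpow_mul hp0'.le]
    exact Real.rpow_le_rpow (by positivity) hpX hg0.le
  have hpθ : (p : ℝ) ≤ (X : ℝ) ^ (1 / θ) := by
    calc (p : ℝ) = ((p : ℝ) ^ θ) ^ (1 / θ) := by
          rw [← Real.rpow_mul hp0'.le, mul_one_div_cancel hθ.ne', Real.rpow_one]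
      _ ≤ (X : ℝ) ^ (1 / θ) := Real.rpow_le_rpow (by positivity) hpX (by positivity)
  have hq : (((2 * p : ℕ)) : ℝ) ≤ (X : ℝ) ^ (1 / θ + 1) := by
    rw [Real.rpow_add hX0', Real.rpow_one]
    push_cast
    have h1 : (2 : ℝ) ≤ X := by linarith
    calc 2 * (p : ℝ) ≤ X * (X : ℝ) ^ (1 / θ) := mul_le_mul h1 hpθ hp0'.le hX0'.le
      _ = _ := mul_comm _ _
  have hlogXp : Real.log X ≤ α * Real.log p := by
    rw [← Real.log_rpow hp0']
    apply Real.log_le_log hX0'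
    refine le_trans ?_ hXH
    push_cast
    linarith
  have hro : ∀ ℓ : ℕ, ℓ.Prime → ro (Pq (2 * p)) 0 ℓ = Pool.Agent.Zk48.AP.rho (2 * p) ℓ := fun ℓ hℓ => ro_Pq _ _ hℓ
  have hMer : Mer (pr X ε₁ υ) (tt X) (fun ℓ => (ro (Pq (2 * p)) 0 ℓ : ℝ) / ℓ) ε₁ υ η := by
    have h1 := HM X (by omega) (2 * p) (by have := hp.pos; omega) hq
    intro a b ha hab hb
    have h2 := h1 a b ha hab hb
    refine le_trans (le_of_eq ?_) h2
    congr 2
    apply sum_congr rfl
    intro ℓ hℓ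
    rw [mem_filter] at hℓ
    have h3 := hro ℓ (pr_facts (by omega) hℓ.1).1
    show (ro (Pq (2 * p)) 0 ℓ : ℝ) / ℓ = (Pool.Agent.Zk48.AP.rho (2 * p) ℓ : ℝ) / ℓ
    rw [h3]
  have hA := HE X (by omega) (Pq (2 * p)) X H X (fun ℓ hℓ => by
      rw [hro ℓ hℓ]
      unfold Pool.Agent.Zk48.AP.rho
      split_ifs <;> omega) hH1 (by rw [Real.rpow_one]) hMer
  have hlo : lo (Pq (2 * p)) X = Pool.Agent.Zk48.AP.VV p X := by
    unfold lo Pool.Agent.Zk48.AP.VV
    apply prod_congr rfl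
    intro ℓ hℓ
    rw [hro ℓ (mem_filter.1 hℓ).2]
  have hV := (HV X (by omega) p hp).1
  change c₁ / Real.log X ≤ Pool.Agent.Zk48.AP.VV p X at hV
  rw [← hlo] at hV
  obtain ⟨T, hT⟩ : ∃ T : ℝ, T = (X : ℝ) ^ (ε / 2) := ⟨_, rfl⟩
  have hT0 : 0 < T := by rw [hT]; positivity
  have hB := bad_pos (Bd p X (t / 4) υ) X H T hT0
  have hBc := bd_count p X (X + H) (by omega) (t / 4) υ w3
  obtain ⟨A1, hA1⟩ : ∃ A1 : Finset ℕ, A1 = (Icc 1 X).filter (fun N =>
    ((pos (Pq (2 * p)) X (t / 4) υ lam (lam / υ) H N).card : ℝ) < δ * H * lo (Pq (2 * p)) X) := ⟨_, rfl⟩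
  obtain ⟨A2, hA2⟩ : ∃ A2 : Finset ℕ, A2 = (Icc 1 X).filter (fun N => (H : ℝ) / T <
      (((Icc 1 H).filter (fun j => Bd p X (t / 4) υ (N + j))).card : ℝ)) := ⟨_, rfl⟩
  rw [← hA1] at hA
  rw [← hA2] at hB
  have hdc : 0 < δ * c₁ := by positivity
  have hsub : (Icc 1 X).filter (fun N => ((RR r ((X : ℝ) ^ (t / 4)) p N H).card : ℝ) <
      δ * c₁ / 4 * (H / Real.log X)) ⊆ A1 ∪ A2 := by
    intro N hN
    rw [mem_filter] at hN
    rw [mem_union]
    by_contra hcon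
    push Not at hcon
    obtain ⟨hc1, hc2⟩ := hcon
    have g1 : δ * H * lo (Pq (2 * p)) X ≤ ((pos (Pq (2 * p)) X (t / 4) υ lam (lam / υ) H N).card : ℝ) := by
      by_contra h'
      exact hc1 (by rw [hA1, mem_filter]; exact ⟨hN.1, not_le.1 h'⟩)
    have g2 : (((Icc 1 H).filter (fun j => Bd p X (t / 4) υ (N + j))).card : ℝ) ≤ (H : ℝ) / T := by
      by_contra h'
      exact hc2 (by rw [hA2, mem_filter]; exact ⟨hN.1, not_le.1 h'⟩)
    have hNX : N ≤ X := (mem_Icc.1 hN.1).2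
    obtain ⟨D, hD⟩ : ∃ D : Finset ℕ, D = (Icc 1 H).filter (fun j : ℕ => p ∣ 1 * (N + j) + 0) := ⟨_, rfl⟩
    have hDc : (D.card : ℝ) ≤ δ * c₁ / 4 * (H / Real.log X) := by
      have h1 := cnt p 1 0 N H hp.pos (Nat.coprime_one_left p)
      rw [← hD] at h1
      have h2 := (abs_le.1 h1).2
      have g1 : (H : ℝ) / p ≤ δ * c₁ / 8 * (H / Real.log X) := by
        have g2 : 8 * Real.log X ≤ p * (δ * c₁) := by
          have g3 : 8 * α * Real.log p ≤ p * (δ * c₁) := by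
            rw [div_mul_eq_mul_div, div_le_iff₀ hdc] at x7
            exact x7
          have g4 := mul_le_mul_of_nonneg_left hlogXp (show (0 : ℝ) ≤ 8 by norm_num)
          linarith
        rw [show δ * c₁ / 8 * (H / Real.log X) = (δ * c₁ * H / 8) / Real.log X by ring, div_le_div_iff₀ hp0' hlX]
        linarith [mul_le_mul_of_nonneg_right g2 hH0'.le]
      have g3 : 1 ≤ δ * c₁ / 8 * (H / Real.log X) := by
        have g4 : 8 * Real.log X ≤ H * (δ * c₁) := by
          rw [div_mul_eq_mul_div, div_le_iff₀ hdc] at w6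
          exact w6.trans (mul_le_mul_of_nonneg_right hXε hdc.le)
        rw [show δ * c₁ / 8 * (H / Real.log X) = (δ * c₁ * H / 8) / Real.log X by ring, le_div_iff₀ hlX]
        linarith
      linarith
    have g3 : (pos (Pq (2 * p)) X (t / 4) υ lam (lam / υ) H N).card ≤
        (RR r ((X : ℝ) ^ (t / 4)) p N H).card +
          (((Icc 1 H).filter (fun j => Bd p X (t / 4) υ (N + j))).card + D.card) := by
      have g4 : pos (Pq (2 * p)) X (t / 4) υ lam (lam / υ) H N ⊆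
          (pos (Pq (2 * p)) X (t / 4) υ lam (lam / υ) H N).filter
            (fun j => ¬ Bd p X (t / 4) υ (N + j) ∧ ¬ p ∣ N + j) ∪
          ((Icc 1 H).filter (fun j => Bd p X (t / 4) υ (N + j)) ∪ D) := by
        intro j hj
        have hj1 : j ∈ Icc 1 H := by
          unfold pos at hj
          exact (mem_filter.1 hj).1
        rw [mem_union, mem_union, mem_filter, mem_filter]
        by_cases hb : Bd p X (t / 4) υ (N + j)
        · exact Or.inr (Or.inl ⟨hj1, hb⟩)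
        · by_cases hpj : p ∣ N + j
          · refine Or.inr (Or.inr ?_)
            rw [hD, mem_filter, one_mul, add_zero]
            exact ⟨hj1, hpj⟩
          · exact Or.inl ⟨hj, hb, hpj⟩
      refine ((card_le_card g4).trans (card_union_le _ _)).trans ?_
      refine Nat.add_le_add ?_ (card_union_le _ _)
      apply card_le_card_of_injOn (fun j => N + j)
      · intro j hj
        show N + j ∈ _
        rw [mem_coe, mem_filter] at hj
        obtain ⟨hj1, hj2, hj6⟩ := hj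
        unfold pos at hj1
        rw [mem_filter, mem_Icc] at hj1
        obtain ⟨⟨hj3, hj4⟩, hj5⟩ := hj1
        rw [eval_Pq] at hj5
        unfold RR
        rw [mem_coe, mem_filter, mem_Ioc]
        refine ⟨⟨by omega, by omega⟩, hj6, ?_⟩
        have hsize : ((2 * (N + j) * p + 1 : ℕ) : ℝ) ≤ (X : ℝ) ^ S := by
          have h1 : (((N + j : ℕ)) : ℝ) ≤ (p : ℝ) ^ α := by
            refine le_trans ?_ hXH
            exact_mod_cast Nat.add_le_add hNX hj4
          have h2 : (1 : ℝ) ≤ p * (p : ℝ) ^ α := by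
            have h3 : (1 : ℝ) ≤ (p : ℝ) ^ α := Real.one_le_rpow (by linarith) (by linarith)
            exact one_le_mul_of_one_le_of_one_le (by linarith) h3
          push_cast
          push_cast at h1
          calc 2 * ((N : ℝ) + j) * p + 1 ≤ 2 * (p : ℝ) * (p : ℝ) ^ α + p * (p : ℝ) ^ α := by
                have := mul_le_mul_of_nonneg_left h1 (show 0 ≤ 2 * (p : ℝ) by positivity)
                linarith
            _ = 3 * (p : ℝ) ^ (1 + α) := by
                rw [Real.rpow_add hp0', Real.rpow_one]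
                ring
            _ ≤ (X : ℝ) ^ (S - g) * (X : ℝ) ^ g := mul_le_mul w2 hpg (by positivity) (by positivity)
            _ = (X : ℝ) ^ S := by
                rw [← Real.rpow_add hX0']
                congr 1
                ring
        exact almost X (by omega) (t / 4) υ lam S r hτυ hυ0 (by linarith) hlam hrS
          (2 * (N + j) * p + 1) (by omega) hsize hj5 (by
            intro q hq hqd
            exact hj2 ⟨q, hq, hqd⟩)
      · intro x _ y _ hxy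
        simpa using hxy
    have g3r : ((pos (Pq (2 * p)) X (t / 4) υ lam (lam / υ) H N).card : ℝ) ≤
        ((RR r ((X : ℝ) ^ (t / 4)) p N H).card : ℝ) +
          ((((Icc 1 H).filter (fun j => Bd p X (t / 4) υ (N + j))).card : ℝ) + D.card) := by exact_mod_cast g3
    have g5 : δ * c₁ * (H / Real.log X) ≤ δ * H * lo (Pq (2 * p)) X := by
      calc δ * c₁ * (H / Real.log X) = δ * H * (c₁ / Real.log X) := by ring
        _ ≤ _ := mul_le_mul_of_nonneg_left hV (by positivity)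
    have g6 : (H : ℝ) / T ≤ δ * c₁ / 4 * (H / Real.log X) := by
      rw [← hT, div_mul_eq_mul_div, div_le_iff₀ hdc] at w4
      rw [div_le_iff₀ hT0, show δ * c₁ / 4 * (H / Real.log X) * T = (T * (δ * c₁) * H / 4) / Real.log X by ring,
        le_div_iff₀ hlX]
      linarith [mul_le_mul_of_nonneg_right w4 hH0'.le]
    have g7 : 0 < δ * c₁ / 4 * (H / Real.log X) := by positivity
    have g8 : δ * c₁ * (H / Real.log X) = 4 * (δ * c₁ / 4 * (H / Real.log X)) := by ring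
    linarith [hN.2]
  have hcard : (((Icc 1 X).filter (fun N => ((RR r ((X : ℝ) ^ (t / 4)) p N H).card : ℝ) <
      δ * c₁ / 4 * (H / Real.log X))).card : ℝ) ≤ A1.card + A2.card := by
    exact_mod_cast (card_le_card hsub).trans (card_union_le _ _)
  have hm1 : (X : ℝ) ≤ (X : ℝ) ^ (max 1 (2 * t)) := by
    calc (X : ℝ) = (X : ℝ) ^ (1 : ℝ) := (Real.rpow_one _).symm
      _ ≤ _ := Real.rpow_le_rpow_of_exponent_le hX1 (le_max_left _ _)
  have hm2 : (X : ℝ) ^ (2 * t) ≤ (X : ℝ) ^ (max 1 (2 * t)) :=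
    Real.rpow_le_rpow_of_exponent_le hX1 (le_max_right _ _)
  have hm0 : 0 < (X : ℝ) ^ (max 1 (2 * t)) := by positivity
  have r1 : (A1.card : ℝ) ≤ (X : ℝ) ^ (max 1 (2 * t) + ε) / H := by
    refine hA.trans ?_
    calc (X + (X : ℝ) ^ (2 * t)) / H * (X : ℝ) ^ (ε / 2) ≤
        (T * (X : ℝ) ^ (max 1 (2 * t))) / H * (X : ℝ) ^ (ε / 2) := by
          apply mul_le_mul_of_nonneg_right _ (by positivity)
          apply div_le_div_of_nonneg_right _ hH0'.le
          have : 2 ≤ T := by rw [hT]; linarith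
          nlinarith
      _ = (X : ℝ) ^ (max 1 (2 * t)) * ((X : ℝ) ^ (ε / 2) * (X : ℝ) ^ (ε / 2)) / H := by
          rw [hT]
          ring
      _ = _ := by
          rw [← Real.rpow_add hX0', ← Real.rpow_add hX0', add_halves]
  have r2 : (A2.card : ℝ) ≤ (X : ℝ) ^ (1 - t / 4 + ε) := by
    refine hB.trans ?_
    have hHX' : (H : ℝ) ≤ X := by exact_mod_cast hHX
    have e1 : ((X + H : ℕ) : ℝ) * (2 / (X : ℝ) ^ (t / 4)) ≤ 4 * (X : ℝ) ^ (1 - t / 4) := by
      have e2 : (X : ℝ) ^ (1 - t / 4) = X / (X : ℝ) ^ (t / 4) := by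
        rw [Real.rpow_sub hX0', Real.rpow_one]
      rw [e2]
      have e3 : (0 : ℝ) < (X : ℝ) ^ (t / 4) := by positivity
      push_cast
      rw [mul_div_assoc', mul_div_assoc', div_le_div_iff_of_pos_right e3]
      linarith
    have e4 : (X : ℝ) ^ υ ≤ (X : ℝ) ^ (1 - t / 4) :=
      Real.rpow_le_rpow_of_exponent_le hX1 (by linarith)
    calc T * (((Icc 1 (X + H)).filter (Bd p X (t / 4) υ)).card : ℝ) ≤
        T * (((X + H : ℕ) : ℝ) * (2 / (X : ℝ) ^ (t / 4)) + (X : ℝ) ^ υ) :=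
          mul_le_mul_of_nonneg_left hBc hT0.le
      _ ≤ T * (5 * (X : ℝ) ^ (1 - t / 4)) := by
          apply mul_le_mul_of_nonneg_left _ hT0.le
          linarith
      _ ≤ T * (T * (X : ℝ) ^ (1 - t / 4)) := by
          apply mul_le_mul_of_nonneg_left _ hT0.le
          apply mul_le_mul_of_nonneg_right _ (by positivity)
          rw [hT]
          exact w5
      _ = _ := by
          rw [hT, ← mul_assoc, ← Real.rpow_add hX0', ← Real.rpow_add hX0']
          congr 1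
          ring
  linarith

theorem everySI (r : ℕ) (hr : 1 ≤ r) (θ α t ε : ℝ) (hθ : 0 < θ) (ht0 : 0 < t) (ht : t ≤ 4 / 5)
    (h : 1 + α < θ * (t * Lam r)) (hε : 0 < ε) :
    ∃ δ c : ℝ, 0 < δ ∧ 0 < c ∧ ∀ (l : ℕ) (κ ρ : ℝ), 0 < κ → 0 < ρ → ∃ B p₀ : ℕ, ∀ p X H : ℕ, p.Prime → p₀ ≤ p →
      (p : ℝ) ^ θ ≤ X → ((X + H : ℕ) : ℝ) ≤ (p : ℝ) ^ α → (X : ℝ) ^ ε ≤ H → H ≤ X →
      (((Icc 1 X).filter (fun N => ((RR r ((p : ℝ) ^ δ) p N H).card : ℝ) < c * (H / Real.log H))).card : ℝ) ≤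
        (X : ℝ) ^ (max 1 (2 * t) + ε) / H + (X : ℝ) ^ (1 - t / 4 + ε) ∧
      ∀ N : ℕ, N ≤ X → ∀ S : Finset ℕ, S ⊆ Ioc N (N + H) →
      (∀ k ∈ S, ∀ ℓ : ℕ, ℓ.Prime → ℓ ∣ 2 * k * p + 1 → (p : ℝ) ^ ρ ≤ ℓ) →
      κ * (H / Real.log H) ≤ S.card →
      ∃ a d : ℕ, 1 ≤ d ∧ (d : ℝ) ≤ Real.log p ^ B ∧ ∀ i < l, a + i * d ∈ S := by
  classical
  have hL1 := Lam_pos r hr
  by_cases hα : θ ≤ α
  · by_cases hε1 : ε ≤ 1
    · obtain ⟨c, hc, N₀, hlow⟩ := low_SI r hr θ α t ε hθ hα ht0 ht h hε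
      refine ⟨θ * (t / 4), c * ε, by positivity, by positivity, fun l κ ρ hκ hρ => ?_⟩
      obtain ⟨B, p₁, hden⟩ := dense l (θ * ε) α κ ρ (by positivity) (by nlinarith) hκ hρ
      have hcast : Tendsto (fun N : ℕ => (N : ℝ)) atTop atTop := tendsto_natCast_atTop_atTop
      obtain ⟨N₁, hN₁⟩ := eventually_atTop.1
        (((tendsto_rpow_atTop hθ).comp hcast).eventually_ge_atTop ((N₀ + 3 : ℕ) : ℝ))
      have hθε : 0 < θ * ε := by positivity
      obtain ⟨N₂, hN₂⟩ := eventually_atTop.1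
        (((tendsto_rpow_atTop hθε).comp hcast).eventually_ge_atTop ((3 : ℕ) : ℝ))
      refine ⟨B, p₁ + N₁ + N₀ + N₂, fun p X H hp hp0 hpX hXH hXε hHX => ?_⟩
      have hX : N₀ + 3 ≤ X := by exact_mod_cast (hN₁ p (by omega)).trans hpX
      have hX3 : (3 : ℝ) ≤ X := by exact_mod_cast (by omega : 3 ≤ X)
      have hpH : (p : ℝ) ^ (θ * ε) ≤ H := by
        rw [Real.rpow_mul (Nat.cast_nonneg _)]
        exact (Real.rpow_le_rpow (by positivity) hpX hε.le).trans hXε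
      have hH3 : (3 : ℝ) ≤ H := by
        have := (hN₂ p (by omega)).trans hpH
        exact_mod_cast this
      have hlH : 0 < Real.log H := Real.log_pos (by linarith)
      have hlX : 0 < Real.log X := Real.log_pos (by linarith)
      have hlXH : ε * Real.log X ≤ Real.log H := by
        rw [← Real.log_rpow (by linarith)]
        exact Real.log_le_log (by positivity) hXε
      constructor
      · refine le_trans ?_ (hlow p X H hp (by omega) (by omega) hpX hXH hXε hHX)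
        have hsub : (Icc 1 X).filter (fun N => ((RR r ((p : ℝ) ^ (θ * (t / 4))) p N H).card : ℝ) <
              c * ε * (H / Real.log H)) ⊆
            (Icc 1 X).filter (fun N => ((RR r ((X : ℝ) ^ (t / 4)) p N H).card : ℝ) < c * (H / Real.log X)) := by
          intro N hN
          rw [mem_filter] at hN ⊢
          refine ⟨hN.1, lt_of_le_of_lt ?_ (hN.2.trans_le ?_)⟩
          · have hsub2 : RR r ((X : ℝ) ^ (t / 4)) p N H ⊆ RR r ((p : ℝ) ^ (θ * (t / 4))) p N H := by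
              intro k hk
              unfold RR at hk ⊢
              rw [mem_filter] at hk ⊢
              refine ⟨hk.1, hk.2.1, hk.2.2.1, fun ℓ hℓ hd => le_trans ?_ (hk.2.2.2 ℓ hℓ hd)⟩
              rw [Real.rpow_mul (Nat.cast_nonneg _)]
              exact Real.rpow_le_rpow (by positivity) hpX (by positivity)
            exact_mod_cast card_le_card hsub2
          · rw [show c * ε * (H / Real.log H) = (c * H * ε) / Real.log H by ring,
              show c * (H / Real.log X) = (c * H) / Real.log X by ring, div_le_div_iff₀ hlH hlX]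
            have h1 : (0 : ℝ) ≤ c * H := by positivity
            calc c * H * ε * Real.log X = c * H * (ε * Real.log X) := by ring
              _ ≤ c * H * Real.log H := mul_le_mul_of_nonneg_left hlXH h1
        exact_mod_cast card_le_card hsub
      · intro N hN S hS hSr hSc
        refine hden p N H hp (by omega) hpH (le_trans ?_ hXH) S hS hSr hSc
        exact_mod_cast Nat.add_le_add_right hN H
    · push Not at hε1
      refine ⟨1, 1, one_pos, one_pos, fun l κ ρ hκ hρ => ⟨0, 2, fun p X H hp hp0 hpX hXH hXε hHX => ?_⟩⟩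
      exfalso
      have hp1 : (1 : ℝ) < p := by exact_mod_cast hp.one_lt
      have hX1 : (1 : ℝ) < X := by
        have : 1 < (p : ℝ) ^ θ := Real.one_lt_rpow hp1 hθ
        linarith
      have h1 : (X : ℝ) ^ (1 : ℝ) < (X : ℝ) ^ ε := Real.rpow_lt_rpow_of_exponent_lt hX1 hε1
      rw [Real.rpow_one] at h1
      have h2 : (H : ℝ) ≤ X := by exact_mod_cast hHX
      linarith
  · push Not at hα
    refine ⟨1, 1, one_pos, one_pos, fun l κ ρ hκ hρ => ⟨0, 2, fun p X H hp hp0 hpX hXH hXε hHX => ?_⟩⟩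
    exfalso
    have hp1 : (1 : ℝ) < p := by exact_mod_cast hp.one_lt
    have h1 : (p : ℝ) ^ α < (p : ℝ) ^ θ := Real.rpow_lt_rpow_of_exponent_lt hp1 hα
    have h2 : (X : ℝ) ≤ ((X + H : ℕ) : ℝ) := by
      push_cast
      have : (0 : ℝ) ≤ H := Nat.cast_nonneg _
      linarith
    linarith

end Pool.Agent.Zk48.AP
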