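import Pool.Agent.Y882.SI.Quad
import Pool.Agent.Zk41.P4.Loc
import Pool.Agent.Zk41.P4.Sq
import Pool.Agent.Zk48.AP.SI

/-!
The polynomial `x² + 3 x + 1`: roots modulo primes, local factors, squares of primes.
-/

set_option autoImplicit false

namespace Pool.Agent.Zk48.AP

open Finset Filter Topology Polynomial
open Pool.Agent.Y677.RSZ (rt ev_log)
open Pool.Agent.W23.DC
open Pool.Agent.Y882
open Pool.Agent.Y882.PX
open Pool.Agent.Y882.KW
open Pool.Agent.Y882.SI (engI pos lo QF QF_eval mer_quad ro_quad_le)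

/-- the polynomial `X² + 3 X + 1` -/
noncomputable def PQ : ℤ[X] := X ^ 2 + 3 * X + 1

lemma PQ_eval (t : ℤ) : PQ.eval t = t ^ 2 + 3 * t + 1 := by
  unfold PQ
  simp

lemma PQ_nat (k : ℕ) : (PQ.eval (k : ℤ)).natAbs = k ^ 2 + 3 * k + 1 := by
  rw [PQ_eval]
  have h : (k : ℤ) ^ 2 + 3 * k + 1 = ((k ^ 2 + 3 * k + 1 : ℕ) : ℤ) := by push_cast; ring
  rw [h, Int.natAbs_natCast]

lemma PQ_deg : PQ.natDegree = 2 := by
  unfold PQ
  compute_degree!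

lemma PQ_monic : PQ.Monic := by
  unfold PQ
  monicity!

lemma PQ_irr : Irreducible PQ := by
  rw [Monic.irreducible_iff_roots_eq_zero_of_degree_le_three PQ_monic (by rw [PQ_deg]) (by rw [PQ_deg]; norm_num)]
  rw [Multiset.eq_zero_iff_forall_notMem]
  intro x hx
  rw [mem_roots PQ_monic.ne_zero, IsRoot.def, PQ_eval] at hx
  have h1 : x < 0 := by nlinarith
  have h2 : -3 < x := by nlinarith
  interval_cases x <;> omega

lemma ro_rt (F : ℤ[X]) (p : ℕ) : ro F 0 p = rt (fun n => F.eval n) p := by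
  rw [ro_eq]
  unfold rt
  simp

lemma ro_PQ_two : ro PQ 0 2 = 0 := by
  rw [ro_eq, card_eq_zero, filter_eq_empty_iff]
  intro n hn h
  rw [PQ_eval, add_zero] at h
  rw [mem_range] at hn
  interval_cases n <;> norm_num at h

lemma ro_PQ_odd (p : ℕ) (hp : p.Prime) (h2 : p ≠ 2) : ro PQ 0 p = ro (QF (-5)) 0 p := by
  have hp3 : 3 ≤ p := by
    have := hp.two_le
    omega
  have hp0 : (0 : ℤ) < p := by exact_mod_cast hp.pos
  have hodd : p % 2 = 1 := by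
    rcases hp.eq_two_or_odd with h | h
    · exact absurd h h2
    · exact h
  have hco : IsCoprime (2 : ℤ) (p : ℤ) := by
    have h3 : Nat.Coprime 2 p := (Nat.coprime_primes Nat.prime_two hp).2 (fun h => h2 h.symm)
    exact_mod_cast Nat.isCoprime_iff_coprime.2 h3
  have hco' : IsCoprime (p : ℤ) (2 : ℤ) := hco.symm
  have hcls : ∀ x : ℤ, (p : ℤ) ∣ x - ((x % p).toNat : ℤ) := by
    intro x
    rw [Int.toNat_of_nonneg (Int.emod_nonneg _ hp0.ne')]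
    exact Int.dvd_self_sub_emod
  have hlt : ∀ x : ℤ, (x % p).toNat < p := by
    intro x
    have h1 := Int.emod_lt_of_pos x hp0
    have h2 := Int.emod_nonneg x hp0.ne'
    omega
  have huniq : ∀ r s : ℕ, r < p → s < p → (p : ℤ) ∣ (r : ℤ) - s → r = s := by
    intro r s hr hs h
    have h1 : (s : ℤ) ≡ r [ZMOD p] := Int.modEq_iff_dvd.2 h
    have h2 := (Int.natCast_modEq_iff (n := p)).1 h1
    have h3 : s % p = r % p := h2
    rw [Nat.mod_eq_of_lt hr, Nat.mod_eq_of_lt hs] at h3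
    exact h3.symm
  rw [ro_eq, ro_eq]
  apply le_antisymm
  · apply card_le_card_of_injOn (fun r : ℕ => ((2 * (r : ℤ) + 3) % p).toNat)
    · intro r hr
      rw [mem_coe, mem_filter, mem_range, PQ_eval, add_zero] at hr
      show ((2 * (r : ℤ) + 3) % p).toNat ∈ _
      rw [mem_coe, mem_filter, mem_range, QF_eval, add_zero]
      refine ⟨hlt _, ?_⟩
      have h1 := hcls (2 * (r : ℤ) + 3)
      obtain ⟨s, hs⟩ : ∃ s : ℤ, s = (((2 * (r : ℤ) + 3) % p).toNat : ℤ) := ⟨_, rfl⟩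
      rw [← hs] at h1 ⊢
      have e : s ^ 2 + -5 = 4 * ((r : ℤ) ^ 2 + 3 * r + 1) - (2 * (r : ℤ) + 3 - s) * (2 * (r : ℤ) + 3 + s) := by ring
      rw [e]
      exact dvd_sub (hr.2.mul_left _) (h1.mul_right _)
    · intro r hr s hs hrs
      rw [mem_coe, mem_filter, mem_range] at hr hs
      have hrs' : ((2 * (r : ℤ) + 3) % p).toNat = ((2 * (s : ℤ) + 3) % p).toNat := hrs
      apply huniq r s hr.1 hs.1
      have h1 := hcls (2 * (r : ℤ) + 3)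
      have h3 := hcls (2 * (s : ℤ) + 3)
      rw [hrs'] at h1
      have h4 : (p : ℤ) ∣ 2 * ((r : ℤ) - s) := by
        have h5 := dvd_sub h1 h3
        have e : (2 * (r : ℤ) + 3 - (((2 * (s : ℤ) + 3) % p).toNat : ℤ)) - (2 * (s : ℤ) + 3 - (((2 * (s : ℤ) + 3) % p).toNat : ℤ)) =
          2 * ((r : ℤ) - s) := by ring
        rwa [e] at h5
      exact hco'.dvd_of_dvd_mul_left h4
  · apply card_le_card_of_injOn (fun s : ℕ => ((((s : ℤ) - 3) * ((p + 1) / 2 : ℕ)) % p).toNat)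
    · intro s hs
      rw [mem_coe, mem_filter, mem_range, QF_eval, add_zero] at hs
      show ((((s : ℤ) - 3) * ((p + 1) / 2 : ℕ)) % p).toNat ∈ _
      rw [mem_coe, mem_filter, mem_range, PQ_eval, add_zero]
      refine ⟨hlt _, ?_⟩
      have h1 := hcls (((s : ℤ) - 3) * ((p + 1) / 2 : ℕ))
      obtain ⟨r, hr⟩ : ∃ r : ℤ, r = (((((s : ℤ) - 3) * ((p + 1) / 2 : ℕ)) % p).toNat : ℤ) := ⟨_, rfl⟩
      obtain ⟨m, hm⟩ : ∃ m : ℤ, m = (((p + 1) / 2 : ℕ) : ℤ) := ⟨_, rfl⟩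
      rw [← hr, ← hm] at h1
      rw [← hr]
      have hm2 : 2 * m = p + 1 := by omega
      have h3 : (p : ℤ) ∣ (2 * r + 3) - s := by
        have e : (2 * r + 3) - s = (s - 3) * (2 * m - 1) - 2 * (((s : ℤ) - 3) * m - r) := by ring
        rw [e, hm2]
        apply dvd_sub
        · exact Dvd.intro_left ((s : ℤ) - 3) (by ring)
        · exact h1.mul_left _
      have h4 : (p : ℤ) ∣ 4 * (r ^ 2 + 3 * r + 1) := by
        have e : 4 * (r ^ 2 + 3 * r + 1) = ((s : ℤ) ^ 2 + -5) + ((2 * r + 3) - s) * ((2 * r + 3) + s) := by ring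
        rw [e]
        exact dvd_add hs.2 (h3.mul_right _)
      have h5 : IsCoprime (p : ℤ) 4 := by
        have : (4 : ℤ) = 2 ^ 2 := by norm_num
        rw [this]
        exact hco'.pow_right
      exact h5.dvd_of_dvd_mul_left h4
    · intro r hr s hs hrs
      rw [mem_coe, mem_filter, mem_range] at hr hs
      have hrs' : ((((r : ℤ) - 3) * ((p + 1) / 2 : ℕ)) % p).toNat = ((((s : ℤ) - 3) * ((p + 1) / 2 : ℕ)) % p).toNat := hrs
      apply huniq r s hr.1 hs.1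
      have h1 := hcls (((r : ℤ) - 3) * ((p + 1) / 2 : ℕ))
      have h3 := hcls (((s : ℤ) - 3) * ((p + 1) / 2 : ℕ))
      rw [hrs'] at h1
      obtain ⟨w, hw⟩ : ∃ w : ℤ, w = (((((s : ℤ) - 3) * ((p + 1) / 2 : ℕ)) % p).toNat : ℤ) := ⟨_, rfl⟩
      obtain ⟨m, hm⟩ : ∃ m : ℤ, m = (((p + 1) / 2 : ℕ) : ℤ) := ⟨_, rfl⟩
      rw [← hw, ← hm] at h1 h3
      have hm2 : 2 * m = p + 1 := by omega
      have e : (r : ℤ) - s = 2 * ((((r : ℤ) - 3) * m - w) - (((s : ℤ) - 3) * m - w)) - (r - s) * (2 * m - 1) := by ring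
      rw [e, hm2]
      apply dvd_sub
      · exact (dvd_sub h1 h3).mul_left _
      · exact Dvd.intro_left ((r : ℤ) - s) (by ring)

lemma ro_PQ_le (p : ℕ) (hp : p.Prime) : ro PQ 0 p ≤ 2 := by
  by_cases h2 : p = 2
  · rw [h2, ro_PQ_two]
    norm_num
  · rw [ro_PQ_odd p hp h2]
    exact ro_quad_le _ _ hp

lemma rt_PQ_le (p : ℕ) (hp : p.Prime) : rt (fun n => PQ.eval n) p ≤ 2 := by
  rw [← ro_rt]
  exact ro_PQ_le p hp

lemma rt_PQ_lt (p : ℕ) (hp : p.Prime) : rt (fun n => PQ.eval n) p < p := by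
  by_cases h2 : p = 2
  · rw [← ro_rt, h2, ro_PQ_two]
    norm_num
  · have := rt_PQ_le p hp
    have := hp.two_le
    omega

lemma mer_PQ (ε₁ υ η : ℝ) (hε : 0 < ε₁) (hυ : υ ≤ 1) (hη : 0 < η) : ∃ Y0 : ℕ, ∀ Y : ℕ, Y0 ≤ Y →
    Mer (pr Y ε₁ υ) (tt Y) (fun p => (ro PQ 0 p : ℝ) / p) ε₁ υ η := by
  obtain ⟨Y0, h0⟩ := mer_quad (-5) (by rintro ⟨x, hx⟩; have h1 : x < 3 := by nlinarith
                                       have h2 : -3 < x := by nlinarith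
                                       interval_cases x <;> omega) ε₁ υ η hε hυ hη
  have hcast : Tendsto (fun N : ℕ => (N : ℝ)) atTop atTop := tendsto_natCast_atTop_atTop
  have v1 : ∀ᶠ N : ℕ in atTop, (3 : ℝ) ≤ (N : ℝ) ^ ε₁ :=
    ((tendsto_rpow_atTop hε).comp hcast).eventually_ge_atTop _
  obtain ⟨Y1, h1⟩ := eventually_atTop.1 v1
  refine ⟨Y0 + Y1 + 2, fun Y hY a b ha hab hb => ?_⟩
  have h2 := h0 Y (by omega) a b ha hab hb
  refine le_trans (le_of_eq ?_) h2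
  congr 2
  apply sum_congr rfl
  intro p hp
  rw [mem_filter] at hp
  obtain ⟨h3, h4, h5, h6⟩ := pr_facts (by omega) hp.1
  have h7 : p ≠ 2 := by
    rintro rfl
    have h8 := h1 Y (by omega)
    push_cast at h5
    linarith
  show (ro PQ 0 p : ℝ) / p = (ro (QF (-5)) 0 p : ℝ) / p
  rw [ro_PQ_odd p h3 h7]

lemma lo_PQ : ∃ c C : ℝ, 0 < c ∧ 0 < C ∧ ∀ Z : ℕ, 3 ≤ Z →
    c / Real.log Z ≤ ∏ p ∈ (Icc 1 Z).filter Nat.Prime, (1 - (rt (fun n => PQ.eval n) p : ℝ) / p) ∧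
      ∏ p ∈ (Icc 1 Z).filter Nat.Prime, (1 - (rt (fun n => PQ.eval n) p : ℝ) / p) ≤ C / Real.log Z :=
  Pool.Agent.Zk41.P4.loc_irr PQ PQ_irr (by rw [PQ_deg]; norm_num) 2 (by norm_num)
    (fun p hp => ⟨rt_PQ_le p hp, rt_PQ_lt p hp⟩)

/-- values with the square of a medium prime -/
def BdQ (X : ℕ) (ζ υ : ℝ) (k : ℕ) : Prop := ∃ q ∈ pr X ζ υ, q ^ 2 ∣ k ^ 2 + 3 * k + 1

lemma bdQ_count (X M : ℕ) (hX : 2 ≤ X) (ζ υ : ℝ) (h2 : (6 : ℝ) ≤ (X : ℝ) ^ ζ) [DecidablePred (BdQ X ζ υ)] :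
    (((Icc 1 M).filter (BdQ X ζ υ)).card : ℝ) ≤ 2 * (M * (2 / (X : ℝ) ^ ζ) + (X : ℝ) ^ υ) := by
  classical
  have h1 : ((Icc 1 M).filter (BdQ X ζ υ)).card ≤
      ∑ q ∈ pr X ζ υ, ((Icc 1 M).filter (fun j : ℕ => ((q ^ 2 : ℕ) : ℤ) ∣ PQ.eval (0 + j))).card := by
    refine (Finset.card_le_card (t := (pr X ζ υ).biUnion
      (fun q => (Icc 1 M).filter (fun j : ℕ => ((q ^ 2 : ℕ) : ℤ) ∣ PQ.eval (0 + j)))) ?_).trans card_biUnion_le
    intro j hj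
    rw [mem_filter] at hj
    obtain ⟨hj1, q, hq, hqd⟩ := hj
    rw [mem_biUnion]
    refine ⟨q, hq, mem_filter.2 ⟨hj1, ?_⟩⟩
    rw [zero_add, ← Int.natAbs_dvd_natAbs, PQ_nat, Int.natAbs_natCast]
    exact hqd
  have h3 : ∀ q ∈ pr X ζ υ, ((((Icc 1 M).filter (fun j : ℕ => ((q ^ 2 : ℕ) : ℤ) ∣ PQ.eval (0 + j))).card : ℕ) : ℝ) ≤
      2 * (M * (1 / (q : ℝ) ^ 2) + 1) := by
    intro q hq
    obtain ⟨h3, h4, h5, h6⟩ := pr_facts hX hq
    have hUW : C 4 * PQ + (-(C 2 * Polynomial.X + C 3)) * derivative PQ = C (-5) := by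
      unfold PQ
      simp only [derivative_add, derivative_X_pow, derivative_mul, derivative_X, derivative_one, derivative_ofNat]
      have e : (C (-5) : ℤ[X]) = -5 := by simp
      have e4 : (C 4 : ℤ[X]) = 4 := rfl
      have e2 : (C 2 : ℤ[X]) = 2 := rfl
      have e3 : (C 3 : ℤ[X]) = 3 := rfl
      rw [e, e4, e2, e3]
      simp only [Nat.cast_ofNat, map_ofNat]
      ring
    have h7 := Pool.Agent.Zk41.P4.sq_cnt PQ (-5) (C 4) (-(C 2 * Polynomial.X + C 3)) hUW q h3 (by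
      intro hd
      have h8 : q ∣ 5 := by
        have h9 := Int.natAbs_dvd_natAbs.2 hd
        simpa using h9
      have h9 := Nat.le_of_dvd (by norm_num) h8
      have h10 : (q : ℝ) ≤ 5 := by exact_mod_cast h9
      linarith) 2 (rt_PQ_le q h3) 0 M
    exact_mod_cast h7
  have h5 := pr_sq (Y := X) hX ζ υ (by linarith)
  have h6 : ((pr X ζ υ).card : ℝ) ≤ (X : ℝ) ^ υ := by
    have h7 : pr X ζ υ ⊆ Icc 1 ⌊(X : ℝ) ^ υ⌋₊ := by
      intro q hq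
      obtain ⟨g3, g4, g5, g6⟩ := pr_facts hX hq
      rw [mem_Icc]
      exact ⟨g3.one_le, Nat.le_floor g6.le⟩
    calc ((pr X ζ υ).card : ℝ) ≤ ((Icc 1 ⌊(X : ℝ) ^ υ⌋₊).card : ℝ) := by exact_mod_cast Finset.card_le_card h7
      _ = (⌊(X : ℝ) ^ υ⌋₊ : ℝ) := by rw [Nat.card_Icc, Nat.add_sub_cancel]
      _ ≤ _ := Nat.floor_le (by positivity)
  calc (((Icc 1 M).filter (BdQ X ζ υ)).card : ℝ) ≤
        ∑ q ∈ pr X ζ υ, ((((Icc 1 M).filter (fun j : ℕ => ((q ^ 2 : ℕ) : ℤ) ∣ PQ.eval (0 + j))).card : ℕ) : ℝ) := by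
        exact_mod_cast h1
    _ ≤ ∑ q ∈ pr X ζ υ, (2 * ((M : ℝ) * (1 / (q : ℝ) ^ 2) + 1)) := sum_le_sum h3
    _ = 2 * ((M : ℝ) * ∑ q ∈ pr X ζ υ, 1 / (q : ℝ) ^ 2 + ((pr X ζ υ).card : ℝ)) := by
        rw [← mul_sum, sum_add_distrib, ← mul_sum, sum_const, nsmul_eq_mul, mul_one]
    _ ≤ _ := by gcongr

end Pool.Agent.Zk48.AP
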