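import Pool.Agent.Zk48.AP.Q0
import Pool.Agent.Zk48.AP.Mx

/-!
Richert's theorem for `k² + 3 k + 1` in almost all short intervals, for all lengths at once; Szemerédi's theorem relative to
the values without small prime factors.
-/

set_option autoImplicit false

namespace Pool.Agent.Zk48.AP

open Finset Filter Topology Polynomial
open Pool.Agent.Zk41.PY (fn AdmP pol)
open Pool.Agent.Y677.RSZ (rt ev_log V)
open Pool.Agent.TH423.SH (PS)
open Pool.Agent.W23.DC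
open Pool.Agent.Y882
open Pool.Agent.Y882.PX
open Pool.Agent.Y882.KW
open Pool.Agent.Y882.SI (engI pos lo)
open Pool.Agent.K3h19.RV (Lam)

/-- `k² + 3 k + 1` has at most `r` prime factors, all of them at least `z` -/
def QP (r : ℕ) (z : ℝ) (k : ℕ) : Prop :=
  (k ^ 2 + 3 * k + 1).primeFactorsList.length ≤ r ∧ ∀ q : ℕ, q.Prime → q ∣ k ^ 2 + 3 * k + 1 → z ≤ q

open Classical in
set_option maxHeartbeats 1600000 in
/-- **Almost all short intervals** -/
theorem low_Q (r : ℕ) (hr : 1 ≤ r) (t ε : ℝ) (ht0 : 0 < t) (ht : t ≤ 4 / 5)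
    (h : 2 < t * Lam r) (hε : 0 < ε) :
    ∃ c : ℝ, 0 < c ∧ ∃ N₀ : ℕ, ∀ X H : ℕ, N₀ ≤ X → (X : ℝ) ^ ε ≤ H → H ≤ X →
      (((Icc 1 X).filter (fun N => ((((Ioc N (N + H)).filter (QP r ((X : ℝ) ^ (t / 4)))).card : ℕ) : ℝ) <
        c * (H / Real.log X))).card : ℝ) ≤
        (X : ℝ) ^ (max 1 (2 * t) + ε) / H + (X : ℝ) ^ (1 - t / 4 + ε) := by
  have hL1 := Lam_pos r hr
  have hL0 : 0 < Lam r := by linarith
  obtain ⟨υ, lam, S, hτυ, hυτ, hlam, hgS, hrS, hint⟩ := Pool.Agent.Zk41.P4.richertD r hr 2 t (by norm_num) ht0 h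
  have hυ0 : 0 < υ := by linarith
  obtain ⟨δ, ε₁, η, hδ, hε₁, hε₁ζ, hε₁β, hη, Y0, HE⟩ := engI 2 1 t (t / 4) υ lam (lam / υ) (ε / 2)
    one_pos (by linarith) (by linarith) (by linarith) (by linarith) hτυ hυτ hlam.le (by positivity)
    (by rw [div_mul_cancel₀ _ hυ0.ne']) hint (by linarith)
  obtain ⟨Y1, HM⟩ := mer_PQ ε₁ υ η hε₁ (by linarith) hη
  obtain ⟨c₁, C₁, hc₁, hC₁, HV⟩ := lo_PQ
  have hcast : Tendsto (fun N : ℕ => (N : ℝ)) atTop atTop := tendsto_natCast_atTop_atTop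
  have v2 : ∀ᶠ N : ℕ in atTop, (11 : ℝ) ≤ (N : ℝ) ^ (S - 2) :=
    ((tendsto_rpow_atTop (by linarith)).comp hcast).eventually_ge_atTop _
  have v3 : ∀ᶠ N : ℕ in atTop, (6 : ℝ) ≤ (N : ℝ) ^ (t / 4) :=
    ((tendsto_rpow_atTop (by linarith)).comp hcast).eventually_ge_atTop _
  have v4 := ev_log 1 (4 / (δ * c₁)) (ε / 2) (by linarith)
  have v5 : ∀ᶠ N : ℕ in atTop, (10 : ℝ) ≤ (N : ℝ) ^ (ε / 2) :=
    ((tendsto_rpow_atTop (by linarith)).comp hcast).eventually_ge_atTop _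
  obtain ⟨N₁, hN₁⟩ := eventually_atTop.1
    (v2.and (v3.and (v4.and (v5.and (eventually_ge_atTop (Y0 + Y1 + 3))))))
  refine ⟨δ * c₁ / 4, by positivity, N₁, fun X H hX0 hXε hHX => ?_⟩
  obtain ⟨w2, w3, w4, w5, w8⟩ := hN₁ X hX0
  rw [pow_one] at w4
  have hX3 : (3 : ℝ) ≤ X := by exact_mod_cast (by omega : 3 ≤ X)
  have hX0' : (0 : ℝ) < X := by linarith
  have hX1 : (1 : ℝ) ≤ X := by linarith
  have hlX : 0 < Real.log X := Real.log_pos (by linarith)
  have hXε0 : 0 < (X : ℝ) ^ ε := by positivity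
  have hH0' : (0 : ℝ) < H := by linarith
  have hH1 : 0 < H := by exact_mod_cast hH0'
  have hA := HE X (by omega) PQ X H X (fun ℓ hℓ => ro_PQ_le ℓ hℓ) hH1 (by rw [Real.rpow_one]) (HM X (by omega))
  have hlo : lo PQ X = ∏ p ∈ (Icc 1 X).filter Nat.Prime, (1 - (rt (fun n => PQ.eval n) p : ℝ) / p) := by
    unfold lo
    apply prod_congr rfl
    intro ℓ _
    rw [ro_rt]
  have hV := (HV X (by omega)).1
  rw [← hlo] at hV
  obtain ⟨T, hT⟩ : ∃ T : ℝ, T = (X : ℝ) ^ (ε / 2) := ⟨_, rfl⟩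
  have hT0 : 0 < T := by rw [hT]; positivity
  have hB := bad_pos (BdQ X (t / 4) υ) X H T hT0
  have hBc := bdQ_count X (X + H) (by omega) (t / 4) υ w3
  obtain ⟨A1, hA1⟩ : ∃ A1 : Finset ℕ, A1 = (Icc 1 X).filter (fun N =>
    ((pos PQ X (t / 4) υ lam (lam / υ) H N).card : ℝ) < δ * H * lo PQ X) := ⟨_, rfl⟩
  obtain ⟨A2, hA2⟩ : ∃ A2 : Finset ℕ, A2 = (Icc 1 X).filter (fun N => (H : ℝ) / T <
      (((Icc 1 H).filter (fun j => BdQ X (t / 4) υ (N + j))).card : ℝ)) := ⟨_, rfl⟩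
  rw [← hA1] at hA
  rw [← hA2] at hB
  have hdc : 0 < δ * c₁ := by positivity
  have hsub : (Icc 1 X).filter (fun N => ((((Ioc N (N + H)).filter (QP r ((X : ℝ) ^ (t / 4)))).card : ℕ) : ℝ) <
      δ * c₁ / 4 * (H / Real.log X)) ⊆ A1 ∪ A2 := by
    intro N hN
    rw [mem_filter] at hN
    rw [mem_union]
    by_contra hcon
    push Not at hcon
    obtain ⟨hc1, hc2⟩ := hcon
    have g1 : δ * H * lo PQ X ≤ ((pos PQ X (t / 4) υ lam (lam / υ) H N).card : ℝ) := by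
      by_contra h'
      exact hc1 (by rw [hA1, mem_filter]; exact ⟨hN.1, not_le.1 h'⟩)
    have g2 : (((Icc 1 H).filter (fun j => BdQ X (t / 4) υ (N + j))).card : ℝ) ≤ (H : ℝ) / T := by
      by_contra h'
      exact hc2 (by rw [hA2, mem_filter]; exact ⟨hN.1, not_le.1 h'⟩)
    have hNX : N ≤ X := (mem_Icc.1 hN.1).2
    have g3 : (pos PQ X (t / 4) υ lam (lam / υ) H N).card ≤
        ((Ioc N (N + H)).filter (QP r ((X : ℝ) ^ (t / 4)))).card +
          ((Icc 1 H).filter (fun j => BdQ X (t / 4) υ (N + j))).card := by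
      have g4 : pos PQ X (t / 4) υ lam (lam / υ) H N ⊆
          (pos PQ X (t / 4) υ lam (lam / υ) H N).filter (fun j => ¬ BdQ X (t / 4) υ (N + j)) ∪
          (Icc 1 H).filter (fun j => BdQ X (t / 4) υ (N + j)) := by
        intro j hj
        have hj1 : j ∈ Icc 1 H := by
          unfold pos at hj
          exact (mem_filter.1 hj).1
        rw [mem_union, mem_filter, mem_filter]
        by_cases hb : BdQ X (t / 4) υ (N + j)
        · exact Or.inr ⟨hj1, hb⟩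
        · exact Or.inl ⟨hj, hb⟩
      refine ((card_le_card g4).trans (card_union_le _ _)).trans ?_
      refine Nat.add_le_add_right ?_ _
      apply card_le_card_of_injOn (fun j => N + j)
      · intro j hj
        show N + j ∈ _
        rw [mem_coe, mem_filter] at hj
        obtain ⟨hj1, hj2⟩ := hj
        unfold pos at hj1
        rw [mem_filter, mem_Icc] at hj1
        obtain ⟨⟨hj3, hj4⟩, hj5⟩ := hj1
        rw [PQ_nat] at hj5
        rw [mem_coe, mem_filter, mem_Ioc]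
        refine ⟨⟨by omega, by omega⟩, ?_⟩
        have hsize : (((N + j) ^ 2 + 3 * (N + j) + 1 : ℕ) : ℝ) ≤ (X : ℝ) ^ S := by
          have h1 : (((N + j : ℕ)) : ℝ) ≤ 2 * X := by
            exact_mod_cast (by omega : N + j ≤ 2 * X)
          have h0 : (0 : ℝ) ≤ ((N + j : ℕ) : ℝ) := Nat.cast_nonneg _
          push_cast
          push_cast at h1 h0
          calc ((N : ℝ) + j) ^ 2 + 3 * ((N : ℝ) + j) + 1 ≤ 11 * (X : ℝ) ^ (2 : ℝ) := by
                rw [Real.rpow_two]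
                nlinarith
            _ ≤ (X : ℝ) ^ (S - 2) * (X : ℝ) ^ (2 : ℝ) := mul_le_mul_of_nonneg_right w2 (by positivity)
            _ = (X : ℝ) ^ S := by
                rw [← Real.rpow_add hX0']
                congr 1
                ring
        exact almost X (by omega) (t / 4) υ lam S r hτυ hυ0 (by linarith) hlam hrS
          ((N + j) ^ 2 + 3 * (N + j) + 1) (by omega) hsize hj5 (by
            intro q hq hqd
            exact hj2 ⟨q, hq, hqd⟩)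
      · intro x _ y _ hxy
        simpa using hxy
    have g3r : ((pos PQ X (t / 4) υ lam (lam / υ) H N).card : ℝ) ≤
        (((Ioc N (N + H)).filter (QP r ((X : ℝ) ^ (t / 4)))).card : ℝ) +
          (((Icc 1 H).filter (fun j => BdQ X (t / 4) υ (N + j))).card : ℝ) := by exact_mod_cast g3
    have g5 : δ * c₁ * (H / Real.log X) ≤ δ * H * lo PQ X := by
      calc δ * c₁ * (H / Real.log X) = δ * H * (c₁ / Real.log X) := by ring
        _ ≤ _ := mul_le_mul_of_nonneg_left hV (by positivity)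
    have g6 : (H : ℝ) / T ≤ δ * c₁ / 4 * (H / Real.log X) := by
      rw [← hT, div_mul_eq_mul_div, div_le_iff₀ hdc] at w4
      rw [div_le_iff₀ hT0, show δ * c₁ / 4 * (H / Real.log X) * T = (T * (δ * c₁) * H / 4) / Real.log X by ring,
        le_div_iff₀ hlX]
      linarith [mul_le_mul_of_nonneg_right w4 hH0'.le]
    have g7 : 0 < δ * c₁ / 4 * (H / Real.log X) := by positivity
    have g8 : δ * c₁ * (H / Real.log X) = 4 * (δ * c₁ / 4 * (H / Real.log X)) := by ring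
    linarith [hN.2]
  have hcard : (((Icc 1 X).filter (fun N => ((((Ioc N (N + H)).filter (QP r ((X : ℝ) ^ (t / 4)))).card : ℕ) : ℝ) <
      δ * c₁ / 4 * (H / Real.log X))).card : ℝ) ≤ A1.card + A2.card := by
    exact_mod_cast (card_le_card hsub).trans (card_union_le _ _)
  have hm1 : (X : ℝ) ≤ (X : ℝ) ^ (max 1 (2 * t)) := by
    calc (X : ℝ) = (X : ℝ) ^ (1 : ℝ) := (Real.rpow_one _).symm
      _ ≤ _ := Real.rpow_le_rpow_of_exponent_le hX1 (le_max_left _ _)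
  have hm2 : (X : ℝ) ^ (2 * t) ≤ (X : ℝ) ^ (max 1 (2 * t)) :=
    Real.rpow_le_rpow_of_exponent_le hX1 (le_max_right _ _)
  have hm0 : 0 < (X : ℝ) ^ (max 1 (2 * t)) := by positivity
  have r1 : (A1.card : ℝ) ≤ (X : ℝ) ^ (max 1 (2 * t) + ε) / H := by
    refine hA.trans ?_
    calc (X + (X : ℝ) ^ (2 * t)) / H * (X : ℝ) ^ (ε / 2) ≤
        (T * (X : ℝ) ^ (max 1 (2 * t))) / H * (X : ℝ) ^ (ε / 2) := by
          apply mul_le_mul_of_nonneg_right _ (by positivity)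
          apply div_le_div_of_nonneg_right _ hH0'.le
          have : 2 ≤ T := by rw [hT]; linarith
          nlinarith
      _ = (X : ℝ) ^ (max 1 (2 * t)) * ((X : ℝ) ^ (ε / 2) * (X : ℝ) ^ (ε / 2)) / H := by
          rw [hT]
          ring
      _ = _ := by
          rw [← Real.rpow_add hX0', ← Real.rpow_add hX0', add_halves]
  have r2 : (A2.card : ℝ) ≤ (X : ℝ) ^ (1 - t / 4 + ε) := by
    refine hB.trans ?_
    have hHX' : (H : ℝ) ≤ X := by exact_mod_cast hHX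
    have e1 : ((X + H : ℕ) : ℝ) * (2 / (X : ℝ) ^ (t / 4)) ≤ 4 * (X : ℝ) ^ (1 - t / 4) := by
      have e2 : (X : ℝ) ^ (1 - t / 4) = X / (X : ℝ) ^ (t / 4) := by
        rw [Real.rpow_sub hX0', Real.rpow_one]
      rw [e2]
      have e3 : (0 : ℝ) < (X : ℝ) ^ (t / 4) := by positivity
      push_cast
      rw [mul_div_assoc', mul_div_assoc', div_le_div_iff_of_pos_right e3]
      linarith
    have e4 : (X : ℝ) ^ υ ≤ (X : ℝ) ^ (1 - t / 4) :=
      Real.rpow_le_rpow_of_exponent_le hX1 (by linarith)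
    calc T * (((Icc 1 (X + H)).filter (BdQ X (t / 4) υ)).card : ℝ) ≤
        T * (2 * (((X + H : ℕ) : ℝ) * (2 / (X : ℝ) ^ (t / 4)) + (X : ℝ) ^ υ)) :=
          mul_le_mul_of_nonneg_left hBc hT0.le
      _ ≤ T * (10 * (X : ℝ) ^ (1 - t / 4)) := by
          apply mul_le_mul_of_nonneg_left _ hT0.le
          linarith
      _ ≤ T * (T * (X : ℝ) ^ (1 - t / 4)) := by
          apply mul_le_mul_of_nonneg_left _ hT0.le
          apply mul_le_mul_of_nonneg_right _ (by positivity)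
          rw [hT]
          exact w5
      _ = _ := by
          rw [hT, ← mul_assoc, ← Real.rpow_add hX0', ← Real.rpow_add hX0']
          congr 1
          ring
  linarith

/-- **Szemerédi's theorem relative to the `k` for which `k² + 3 k + 1` has no small prime factors** -/
theorem dense_Q (l : ℕ) (ε κ ρ : ℝ) (hε : 0 < ε) (hκ : 0 < κ) (hρ : 0 < ρ) :
    ∃ B X₀ : ℕ, ∀ X Y H : ℕ, X₀ ≤ X → (X : ℝ) ^ ε ≤ H → H ≤ X → Y ≤ X →
      ∀ S : Finset ℕ, S ⊆ Ioc Y (Y + H) →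
      (∀ k ∈ S, ∀ ℓ : ℕ, ℓ.Prime → ℓ ∣ k ^ 2 + 3 * k + 1 → (X : ℝ) ^ ρ ≤ ℓ) →
      κ * (H / Real.log H) ≤ S.card →
      ∃ a d : ℕ, 1 ≤ d ∧ (d : ℝ) ≤ Real.log X ^ B ∧ ∀ i < l, a + i * d ∈ S := by
  obtain ⟨c₁, C₁, hc₁, hC₁, HV⟩ := lo_PQ
  obtain ⟨G, hG⟩ : ∃ G : ℕ, 1 / ε + 1 ≤ G := exists_nat_ge _
  obtain ⟨B, H₁, HP⟩ := pol 2 l G (ρ / 2) (κ / C₁) (by positivity) (by positivity)
  have hcast : Tendsto (fun N : ℕ => (N : ℝ)) atTop atTop := tendsto_natCast_atTop_atTop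
  have v1 : ∀ᶠ N : ℕ in atTop, ((H₁ + 3 : ℕ) : ℝ) ≤ (N : ℝ) ^ ε :=
    ((tendsto_rpow_atTop hε).comp hcast).eventually_ge_atTop _
  obtain ⟨N₁, hN₁⟩ := eventually_atTop.1 v1
  refine ⟨B, N₁ + 2, fun X Y H hX0 hXH hHX hYX S hS hSr hSc => ?_⟩
  have w1 := hN₁ X (by omega)
  have hH : H₁ + 3 ≤ H := by exact_mod_cast w1.trans hXH
  have hX2 : (2 : ℝ) ≤ X := by exact_mod_cast (by omega : 2 ≤ X)
  have hX0' : (0 : ℝ) < X := by linarith
  have hH3 : (3 : ℝ) ≤ H := by exact_mod_cast (by omega : 3 ≤ H)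
  have hH0 : (0 : ℝ) < H := by linarith
  have hH1 : (1 : ℝ) ≤ H := by linarith
  have hlH : 0 < Real.log H := Real.log_pos (by linarith)
  have hHX' : (H : ℝ) ≤ X := by exact_mod_cast hHX
  have hXG : X ≤ H ^ G := by
    have h1 : (X : ℝ) ≤ (H : ℝ) ^ (1 / ε) := by
      calc (X : ℝ) = ((X : ℝ) ^ ε) ^ (1 / ε) := by
            rw [← Real.rpow_mul hX0'.le, mul_one_div_cancel hε.ne', Real.rpow_one]
        _ ≤ _ := Real.rpow_le_rpow (by positivity) hXH (by positivity)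
    have h2 : (H : ℝ) ^ (1 / ε) ≤ ((H ^ G : ℕ) : ℝ) := by
      push_cast
      rw [← Real.rpow_natCast]
      exact Real.rpow_le_rpow_of_exponent_le hH1 (by linarith)
    exact_mod_cast h1.trans h2
  have hG1 : 1 ≤ G := by
    have h1 : (1 : ℝ) ≤ G := by
      have : 0 < 1 / ε := by positivity
      linarith
    exact_mod_cast h1
  have hcG : ∀ i, |PQ.coeff i| ≤ (H : ℤ) ^ G := by
    intro i
    have h1 : |PQ.coeff i| ≤ 3 := by
      unfold PQ
      rw [coeff_add, coeff_add, coeff_X_pow, coeff_one]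
      have e : (3 * Polynomial.X : ℤ[X]).coeff i = if i = 1 then 3 else 0 := by
        rw [show (3 : ℤ[X]) = C 3 from rfl, coeff_C_mul, coeff_X]
        by_cases h2 : 1 = i
        · rw [if_pos h2, if_pos h2.symm, mul_one]
        · rw [if_neg h2, if_neg (fun h => h2 h.symm), mul_zero]
      rw [e]
      by_cases h2 : i = 2
      · subst h2
        norm_num
      · by_cases h3 : i = 1
        · subst h3
          norm_num
        · by_cases h4 : i = 0
          · subst h4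
            norm_num
          · simp [h2, h3, h4]
    have h2 : 3 ≤ H ^ G := by
      calc 3 ≤ H := by omega
        _ = H ^ 1 := (pow_one H).symm
        _ ≤ H ^ G := Nat.pow_le_pow_right (by omega) hG1
    exact h1.trans (by exact_mod_cast h2)
  have hadm : AdmP PQ := by
    intro p hp
    refine ⟨0, fun hd => ?_⟩
    rw [PQ_eval] at hd
    norm_num at hd
    have h2 : p ∣ 1 := by exact_mod_cast hd
    exact hp.one_lt.ne' (Nat.dvd_one.1 h2)
  have hV : V (fn PQ) 1 H ≤ C₁ / Real.log H := by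
    refine le_trans (le_of_eq ?_) (HV H (by omega)).2
    unfold V
    apply prod_congr
    · unfold PS
      ext q
      simp only [mem_filter, mem_Icc, Nat.dvd_one]
      constructor
      · rintro ⟨h1, h2, -⟩
        exact ⟨h1, h2⟩
      · rintro ⟨h1, h2⟩
        exact ⟨h1, h2, h2.ne_one⟩
    · intro q hq
      rfl
  obtain ⟨a, d, hd1, hd2, hAP⟩ := HP H (by omega) PQ Y hadm PQ_deg.le hcG (hYX.trans hXG)
    (by
      intro n _
      show PQ.eval (n : ℤ) ≠ 0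
      rw [PQ_eval]
      positivity)
    S hS
    (by
      intro k hk ℓ hℓ hℓH hℓd
      have h1 : ℓ ∣ k ^ 2 + 3 * k + 1 := by
        rw [← PQ_nat]
        exact Int.natCast_dvd.1 hℓd
      have h2 := hSr k hk ℓ hℓ h1
      have h3 : (H : ℝ) ^ (ρ / 2) ≤ (X : ℝ) ^ (ρ / 2) := Real.rpow_le_rpow hH0.le hHX' (by positivity)
      have h4 : (X : ℝ) ^ (ρ / 2) < (X : ℝ) ^ ρ := Real.rpow_lt_rpow_of_exponent_lt (by linarith) (by linarith)
      linarith)
    (by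
      refine le_trans ?_ hSc
      calc κ / C₁ * (H * V (fn PQ) 1 H) ≤ κ / C₁ * (H * (C₁ / Real.log H)) := by gcongr
        _ = κ * (H / Real.log H) := by
            field_simp)
  refine ⟨a, d, hd1, hd2.trans ?_, hAP⟩
  exact pow_le_pow_left₀ hlH.le (Real.log_le_log hH0 hHX') B

open Classical in
/-- **All lengths at once** -/
theorem all_Q (r : ℕ) (hr : 1 ≤ r) (t ε : ℝ) (ht0 : 0 < t) (ht : t ≤ 4 / 5)
    (h : 2 < t * Lam r) (hε : 0 < ε) :
    ∃ c : ℝ, 0 < c ∧ ∃ X₀ : ℕ, ∀ X h : ℕ, X₀ ≤ X → (X : ℝ) ^ ε ≤ h → h ≤ X →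
      (((Icc 1 X).filter (fun N => ∃ H : ℕ, h ≤ H ∧ H ≤ X ∧
        ((((Ioc N (N + H)).filter (QP r ((X : ℝ) ^ (t / 4)))).card : ℕ) : ℝ) < c * (H / Real.log H))).card : ℝ) ≤
        (X : ℝ) ^ (max 1 (2 * t) + ε) / h + (X : ℝ) ^ (1 - t / 4 + ε) := by
  obtain ⟨c, hc, N₀, hlow⟩ := low_Q r hr t (ε / 2) ht0 ht h (by linarith)
  have hcast : Tendsto (fun N : ℕ => (N : ℝ)) atTop atTop := tendsto_natCast_atTop_atTop
  obtain ⟨M, hM⟩ : ∃ M : ℝ, M = 9 * (2 : ℝ) ^ (max 1 (2 * t) + ε / 2) := ⟨_, rfl⟩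
  have v1 : ∀ᶠ N : ℕ in atTop, M ≤ (N : ℝ) ^ (ε / 2) :=
    ((tendsto_rpow_atTop (by linarith)).comp hcast).eventually_ge_atTop _
  obtain ⟨N₁, hN₁⟩ := eventually_atTop.1 v1
  refine ⟨c * ε / 8, by positivity, N₀ + N₁ + 3, fun X h hX0 hXε hhX => ?_⟩
  have w1 := hN₁ X (by omega)
  have hX3 : (3 : ℝ) ≤ X := by exact_mod_cast (by omega : 3 ≤ X)
  have hX0' : (0 : ℝ) < X := by linarith
  have hX1 : (1 : ℝ) ≤ X := by linarith
  have hlX : 0 < Real.log X := Real.log_pos (by linarith)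
  have hl2X : 0 < Real.log ((2 * X : ℕ) : ℝ) := by
    apply Real.log_pos
    push_cast
    linarith
  have hXε1 : (1 : ℝ) < (X : ℝ) ^ ε := Real.one_lt_rpow (by linarith) hε
  have hh0' : (1 : ℝ) < h := by linarith
  have hh1 : 1 ≤ h := by exact_mod_cast hh0'.le
  have hmax1 : 1 ≤ max 1 (2 * t) := le_max_left _ _
  have hM1 : (2 : ℝ) ^ (ε / 2) ≤ M := by
    rw [hM]
    have h1 : (2 : ℝ) ^ (ε / 2) ≤ (2 : ℝ) ^ (max 1 (2 * t) + ε / 2) :=
      Real.rpow_le_rpow_of_exponent_le (by norm_num) (by linarith)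
    have h2 : (0 : ℝ) < (2 : ℝ) ^ (max 1 (2 * t) + ε / 2) := by positivity
    linarith
  have h2X : (((2 * X : ℕ) : ℝ)) ^ (ε / 2) ≤ h := by
    push_cast
    rw [Real.mul_rpow (by norm_num) hX0'.le]
    calc (2 : ℝ) ^ (ε / 2) * (X : ℝ) ^ (ε / 2) ≤ (X : ℝ) ^ (ε / 2) * (X : ℝ) ^ (ε / 2) :=
          mul_le_mul_of_nonneg_right (hM1.trans w1) (by positivity)
      _ = (X : ℝ) ^ ε := by
          rw [← Real.rpow_add hX0', add_halves]
      _ ≤ h := hXε
  have hl := hlow (2 * X) h (by omega) h2X (by omega)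
  obtain ⟨v, hv⟩ : ∃ v : ℝ, v = c / Real.log ((2 * X : ℕ) : ℝ) := ⟨_, rfl⟩
  have hv0 : 0 < v := by rw [hv]; positivity
  have hall := all_scales (QP r (((2 * X : ℕ) : ℝ) ^ (t / 4))) X h hh1 v hv0.le
  have hsub : (Icc 1 X).filter (fun N => ∃ H : ℕ, h ≤ H ∧ H ≤ X ∧
        ((((Ioc N (N + H)).filter (QP r ((X : ℝ) ^ (t / 4)))).card : ℕ) : ℝ) < c * ε / 8 * (H / Real.log H)) ⊆
      (Icc 1 X).filter (fun N => ∃ H : ℕ, h ≤ H ∧ H ≤ X ∧
      (((Ioc N (N + H)).filter (QP r (((2 * X : ℕ) : ℝ) ^ (t / 4)))).card : ℝ) < v * H / 4) := by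
    intro N hN
    rw [mem_filter] at hN ⊢
    obtain ⟨hN1, H, h1, h2, h3⟩ := hN
    refine ⟨hN1, H, h1, h2, lt_of_le_of_lt ?_ (h3.trans_le ?_)⟩
    · have h4 : (Ioc N (N + H)).filter (QP r (((2 * X : ℕ) : ℝ) ^ (t / 4))) ⊆
          (Ioc N (N + H)).filter (QP r ((X : ℝ) ^ (t / 4))) := by
        intro k hk
        rw [mem_filter] at hk ⊢
        refine ⟨hk.1, hk.2.1, fun q hq hqd => le_trans ?_ (hk.2.2 q hq hqd)⟩
        apply Real.rpow_le_rpow hX0'.le _ (by linarith)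
        push_cast
        linarith
      exact_mod_cast card_le_card h4
    · have hH1 : (1 : ℝ) < H := lt_of_lt_of_le hh0' (by exact_mod_cast h1)
      have hlH : 0 < Real.log H := Real.log_pos hH1
      have h5 : ε * Real.log X ≤ Real.log H := by
        rw [← Real.log_rpow hX0']
        apply Real.log_le_log (by positivity)
        exact hXε.trans (by exact_mod_cast h1)
      have h6 : Real.log ((2 * X : ℕ) : ℝ) ≤ 2 * Real.log X := by
        have h7 : Real.log ((2 * X : ℕ) : ℝ) ≤ Real.log ((X : ℝ) ^ 2) := by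
          apply Real.log_le_log (by push_cast; linarith)
          push_cast
          nlinarith
        rw [Real.log_pow] at h7
        exact_mod_cast h7
      rw [hv, show c * ε / 8 * (H / Real.log H) = (c * ε * H / 8) / Real.log H by ring,
        show c / Real.log ((2 * X : ℕ) : ℝ) * H / 4 = (c * H / 4) / Real.log ((2 * X : ℕ) : ℝ) by ring,
        div_le_div_iff₀ hlH hl2X]
      have hcH : 0 < c * H := by positivity
      have h7 : ε * Real.log ((2 * X : ℕ) : ℝ) ≤ 2 * Real.log H := by nlinarith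
      nlinarith
  have hfin : (((Icc 1 X).filter (fun N => ∃ H : ℕ, h ≤ H ∧ H ≤ X ∧
        ((((Ioc N (N + H)).filter (QP r ((X : ℝ) ^ (t / 4)))).card : ℕ) : ℝ) < c * ε / 8 * (H / Real.log H))).card : ℝ) ≤
      9 * (((2 * X : ℕ) : ℝ) ^ (max 1 (2 * t) + ε / 2) / h + ((2 * X : ℕ) : ℝ) ^ (1 - t / 4 + ε / 2)) := by
    have h1 := (card_le_card hsub).trans hall
    have h2 : ((Icc 1 (2 * X)).filter (fun N =>
        (((Ioc N (N + h)).filter (QP r (((2 * X : ℕ) : ℝ) ^ (t / 4)))).card : ℝ) < v * h)) =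
        (Icc 1 (2 * X)).filter (fun N => ((((Ioc N (N + h)).filter (QP r (((2 * X : ℕ) : ℝ) ^ (t / 4)))).card : ℕ) : ℝ) <
        c * (h / Real.log ((2 * X : ℕ) : ℝ))) := by
      apply filter_congr
      intro N _
      rw [hv, show c / Real.log ((2 * X : ℕ) : ℝ) * h = c * (h / Real.log ((2 * X : ℕ) : ℝ)) by ring]
    rw [h2] at h1
    calc (((Icc 1 X).filter (fun N => ∃ H : ℕ, h ≤ H ∧ H ≤ X ∧
        ((((Ioc N (N + H)).filter (QP r ((X : ℝ) ^ (t / 4)))).card : ℕ) : ℝ) < c * ε / 8 * (H / Real.log H))).card : ℝ) ≤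
        9 * (((Icc 1 (2 * X)).filter (fun N => ((((Ioc N (N + h)).filter (QP r (((2 * X : ℕ) : ℝ) ^ (t / 4)))).card : ℕ) : ℝ) <
        c * (h / Real.log ((2 * X : ℕ) : ℝ)))).card : ℝ) := by exact_mod_cast h1
      _ ≤ _ := mul_le_mul_of_nonneg_left hl (by norm_num)
  refine hfin.trans ?_
  have e1 : 9 * (((2 * X : ℕ) : ℝ) ^ (max 1 (2 * t) + ε / 2)) ≤ (X : ℝ) ^ (max 1 (2 * t) + ε) := by
    push_cast
    rw [Real.mul_rpow (by norm_num) hX0'.le]
    calc 9 * ((2 : ℝ) ^ (max 1 (2 * t) + ε / 2) * (X : ℝ) ^ (max 1 (2 * t) + ε / 2)) =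
          M * (X : ℝ) ^ (max 1 (2 * t) + ε / 2) := by rw [hM]; ring
      _ ≤ (X : ℝ) ^ (ε / 2) * (X : ℝ) ^ (max 1 (2 * t) + ε / 2) := mul_le_mul_of_nonneg_right w1 (by positivity)
      _ = _ := by
          rw [← Real.rpow_add hX0']
          congr 1
          ring
  have e2 : 9 * (((2 * X : ℕ) : ℝ) ^ (1 - t / 4 + ε / 2)) ≤ (X : ℝ) ^ (1 - t / 4 + ε) := by
    push_cast
    rw [Real.mul_rpow (by norm_num) hX0'.le]
    have h3 : (2 : ℝ) ^ (1 - t / 4 + ε / 2) ≤ (2 : ℝ) ^ (max 1 (2 * t) + ε / 2) :=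
      Real.rpow_le_rpow_of_exponent_le (by norm_num) (by linarith)
    calc 9 * ((2 : ℝ) ^ (1 - t / 4 + ε / 2) * (X : ℝ) ^ (1 - t / 4 + ε / 2)) ≤
          9 * ((2 : ℝ) ^ (max 1 (2 * t) + ε / 2) * (X : ℝ) ^ (1 - t / 4 + ε / 2)) := by gcongr
      _ = M * (X : ℝ) ^ (1 - t / 4 + ε / 2) := by rw [hM]; ring
      _ ≤ (X : ℝ) ^ (ε / 2) * (X : ℝ) ^ (1 - t / 4 + ε / 2) := mul_le_mul_of_nonneg_right w1 (by positivity)
      _ = _ := by
          rw [← Real.rpow_add hX0']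
          congr 1
          ring
  have hh00 : (0 : ℝ) < h := by linarith
  calc 9 * (((2 * X : ℕ) : ℝ) ^ (max 1 (2 * t) + ε / 2) / h + ((2 * X : ℕ) : ℝ) ^ (1 - t / 4 + ε / 2)) =
        (9 * (((2 * X : ℕ) : ℝ) ^ (max 1 (2 * t) + ε / 2))) / h + 9 * (((2 * X : ℕ) : ℝ) ^ (1 - t / 4 + ε / 2)) := by ring
    _ ≤ _ := add_le_add (div_le_div_of_nonneg_right e1 hh00.le) e2

end Pool.Agent.Zk48.AP
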