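import Pool.Agent.Zk48.AP.Low
import Pool.Agent.Zk41.PY.E

/-!
Szemerédi's theorem relative to the `k` for which `2 k p + 1` has no small prime factors, for every prime `p`.
-/

set_option autoImplicit false

namespace Pool.Agent.Zk48.AP

open Finset Filter Topology Polynomial
open Pool.Agent.Zk41.PY (fn AdmP pol)
open Pool.Agent.Y677.RSZ (rt V)
open Pool.Agent.TH423.SH (PS)

/-- the polynomial `q X + 1` -/
noncomputable def Pq (q : ℕ) : ℤ[X] := C (q : ℤ) * X + C 1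

lemma fn_Pq (q : ℕ) (x : ℤ) : fn (Pq q) x = q * x + 1 := by
  unfold fn Pq
  simp

lemma adm_Pq (q : ℕ) : AdmP (Pq q) := by
  intro ℓ hℓ
  refine ⟨0, ?_⟩
  have h : (Pq q).eval 0 = 1 := by
    unfold Pq
    simp
  rw [h]
  intro h1
  have h2 : ℓ ∣ 1 := by exact_mod_cast h1
  exact hℓ.one_lt.ne' (Nat.dvd_one.1 h2)

lemma deg_Pq (q : ℕ) : (Pq q).natDegree ≤ 1 := natDegree_linear_le

lemma coeff_Pq (q : ℕ) (i : ℕ) : |(Pq q).coeff i| ≤ (q : ℤ) + 1 := by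
  unfold Pq
  rw [coeff_add, coeff_C_mul, coeff_X, coeff_C]
  have hq : (0 : ℤ) ≤ q := Int.natCast_nonneg q
  split_ifs <;> simp_all <;> omega

lemma rt_Pq (q ℓ : ℕ) (hℓ : ℓ.Prime) : rt (fn (Pq q)) ℓ = rho q ℓ := by
  unfold rt rho
  split_ifs with h
  · rw [card_eq_zero, filter_eq_empty_iff]
    intro r _ hr
    rw [fn_Pq] at hr
    have h1 : (ℓ : ℤ) ∣ (q : ℤ) * r := (Int.natCast_dvd_natCast.2 h).mul_right _
    have h2 : (ℓ : ℤ) ∣ 1 := (Int.dvd_add_right h1).1 hr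
    have h3 : ℓ ∣ 1 := by exact_mod_cast h2
    exact hℓ.one_lt.ne' (Nat.dvd_one.1 h3)
  · obtain ⟨v, hv⟩ := cls ℓ q 1 0 hℓ.pos (((Nat.Prime.coprime_iff_not_dvd hℓ).2 h).symm)
    rw [card_eq_one]
    refine ⟨v % ℓ, ?_⟩
    ext r
    rw [mem_filter, mem_range, mem_singleton, fn_Pq]
    have h1 := hv r
    rw [zero_add] at h1
    have h2 : (ℓ : ℤ) ∣ (q : ℤ) * (r : ℤ) + 1 ↔ ℓ ∣ q * r + 1 := by
      rw [← Int.natCast_dvd_natCast]
      push_cast
      exact Iff.rfl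
    rw [h2, h1]
    constructor
    · rintro ⟨h3, h4⟩
      have h5 : r % ℓ = v % ℓ := h4
      rwa [Nat.mod_eq_of_lt h3] at h5
    · rintro rfl
      exact ⟨Nat.mod_lt _ hℓ.pos, Nat.mod_modEq _ _⟩

lemma V_Pq (p H : ℕ) : V (fn (Pq (2 * p))) 1 H = VV p H := by
  unfold V VV
  have h : PS 1 H = (Icc 1 H).filter Nat.Prime := by
    unfold PS
    apply filter_congr
    intro ℓ _
    constructor
    · exact fun h => h.1
    · exact fun h => ⟨h, fun h1 => h.one_lt.ne' (Nat.dvd_one.1 h1)⟩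
  rw [h]
  apply prod_congr rfl
  intro ℓ hℓ
  rw [rt_Pq _ _ (mem_filter.1 hℓ).2]

/-- **Szemerédi's theorem relative to the `k` for which `2 k p + 1` has no small prime factors**, for every prime `p` -/
theorem dense (l : ℕ) (θ α κ ρ : ℝ) (hθ : 0 < θ) (hα : θ ≤ α) (hκ : 0 < κ) (hρ : 0 < ρ) :
    ∃ B p₀ : ℕ, ∀ p Y H : ℕ, p.Prime → p₀ ≤ p → (p : ℝ) ^ θ ≤ H → ((Y + H : ℕ) : ℝ) ≤ (p : ℝ) ^ α →
      ∀ S : Finset ℕ, S ⊆ Ioc Y (Y + H) →
      (∀ k ∈ S, ∀ ℓ : ℕ, ℓ.Prime → ℓ ∣ 2 * k * p + 1 → (p : ℝ) ^ ρ ≤ ℓ) →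
      κ * (H / Real.log H) ≤ S.card →
      ∃ a d : ℕ, 1 ≤ d ∧ (d : ℝ) ≤ Real.log p ^ B ∧ ∀ i < l, a + i * d ∈ S := by
  have hα0 : 0 < α := by linarith
  obtain ⟨c₁, C₁, hc₁, hC₁, Y2, HV⟩ := mert_two
  obtain ⟨G, hG⟩ : ∃ G : ℕ, (1 + α) / θ + 2 ≤ G := exists_nat_ge _
  obtain ⟨B, H₁, HP⟩ := pol 1 l G (ρ / (2 * α)) (κ / C₁) (by positivity) (by positivity)
  have hcast : Tendsto (fun N : ℕ => (N : ℝ)) atTop atTop := tendsto_natCast_atTop_atTop
  have hlog : Tendsto (fun N : ℕ => Real.log (N : ℝ)) atTop atTop := Real.tendsto_log_atTop.comp hcast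
  have v1 : ∀ᶠ N : ℕ in atTop, ((H₁ + Y2 + 3 : ℕ) : ℝ) ≤ (N : ℝ) ^ θ :=
    ((tendsto_rpow_atTop hθ).comp hcast).eventually_ge_atTop _
  obtain ⟨N₁, hN₁⟩ := eventually_atTop.1 (v1.and (hlog.eventually_ge_atTop (α + 1)))
  refine ⟨2 * B, N₁ + 2, fun p Y H hp hp0 hpH hYH S hS hSr hSc => ?_⟩
  obtain ⟨w1, w2⟩ := hN₁ p (by omega)
  have hH : H₁ + Y2 + 3 ≤ H := by exact_mod_cast w1.trans hpH
  have hp2 : (2 : ℝ) ≤ p := by exact_mod_cast hp.two_le
  have hp0' : (0 : ℝ) < p := by linarith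
  have hH3 : (3 : ℝ) ≤ H := by exact_mod_cast (by omega : 3 ≤ H)
  have hH0 : (0 : ℝ) < H := by linarith
  have hH1 : (1 : ℝ) ≤ H := by linarith
  have hlH : 0 < Real.log H := Real.log_pos (by linarith)
  have hlp : 1 ≤ Real.log p := by linarith
  have hHα : (H : ℝ) ≤ (p : ℝ) ^ α := by
    refine le_trans ?_ hYH
    push_cast
    have : (0 : ℝ) ≤ Y := Nat.cast_nonneg _
    linarith
  have hpow : ∀ β : ℝ, 0 ≤ β → β ≤ α + 1 → (p : ℝ) ^ β ≤ (H : ℝ) ^ ((1 + α) / θ) := by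
    intro β hβ0 hβ
    have h1 : (p : ℝ) ^ β = ((p : ℝ) ^ θ) ^ (β / θ) := by
      rw [← Real.rpow_mul hp0'.le, mul_div_cancel₀ _ hθ.ne']
    rw [h1]
    calc ((p : ℝ) ^ θ) ^ (β / θ) ≤ (H : ℝ) ^ (β / θ) := Real.rpow_le_rpow (by positivity) hpH (by positivity)
      _ ≤ (H : ℝ) ^ ((1 + α) / θ) := by
          apply Real.rpow_le_rpow_of_exponent_le hH1
          rw [div_le_div_iff_of_pos_right hθ]
          linarith
  have hHG : (H : ℝ) ^ ((1 + α) / θ + 2) ≤ ((H ^ G : ℕ) : ℝ) := by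
    push_cast
    rw [← Real.rpow_natCast]
    exact Real.rpow_le_rpow_of_exponent_le hH1 hG
  have hHG' : (H : ℝ) ^ ((1 + α) / θ) * (H * H) ≤ ((H ^ G : ℕ) : ℝ) := by
    refine le_trans (le_of_eq ?_) hHG
    rw [Real.rpow_add hH0, Real.rpow_two]
    ring
  have hHA : 0 < (H : ℝ) ^ ((1 + α) / θ) := by positivity
  have hYG : Y ≤ H ^ G := by
    have h1 : (Y : ℝ) ≤ (p : ℝ) ^ α := by
      refine le_trans ?_ hYH
      push_cast
      linarith
    have h2 := hpow α hα0.le (by linarith)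
    have h3 : (H : ℝ) ^ ((1 + α) / θ) ≤ (H : ℝ) ^ ((1 + α) / θ) * (H * H) :=
      le_mul_of_one_le_right hHA.le (by nlinarith)
    have h4 : (Y : ℝ) ≤ ((H ^ G : ℕ) : ℝ) := h1.trans (h2.trans (h3.trans hHG'))
    exact_mod_cast h4
  have hcG : ∀ i, |(Pq (2 * p)).coeff i| ≤ (H : ℤ) ^ G := by
    intro i
    refine (coeff_Pq _ i).trans ?_
    have h2 := hpow 1 zero_le_one (by linarith)
    rw [Real.rpow_one] at h2
    have h3 : (2 : ℝ) * p + 1 ≤ ((H ^ G : ℕ) : ℝ) := by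
      refine le_trans ?_ hHG'
      have hHH : (9 : ℝ) ≤ H * H := by nlinarith
      have hHp := mul_le_mul_of_nonneg_left hHH hp0'.le
      calc (2 : ℝ) * p + 1 ≤ p * (H * H) := by linarith
        _ ≤ _ := mul_le_mul_of_nonneg_right h2 (by positivity)
    have h4 : 2 * p + 1 ≤ H ^ G := by exact_mod_cast h3
    exact_mod_cast h4
  have hV := (HV H (by omega) p hp).2
  change VV p H ≤ C₁ / Real.log H at hV
  obtain ⟨a, d, hd1, hd2, hAP⟩ := HP H (by omega) (Pq (2 * p)) Y (adm_Pq _) (deg_Pq _) hcG hYG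
    (by
      intro n _
      rw [fn_Pq]
      positivity)
    S hS
    (by
      intro k hk ℓ hℓ hℓH hℓd
      rw [fn_Pq] at hℓd
      have h1 : ℓ ∣ 2 * k * p + 1 := by
        rw [← Int.natCast_dvd_natCast]
        push_cast
        push_cast at hℓd
        rw [show (2 : ℤ) * k * p + 1 = 2 * p * k + 1 by ring]
        exact hℓd
      have h2 := hSr k hk ℓ hℓ h1
      have h3 : (H : ℝ) ^ (ρ / (2 * α)) ≤ (p : ℝ) ^ (ρ / 2) := by
        calc (H : ℝ) ^ (ρ / (2 * α)) ≤ ((p : ℝ) ^ α) ^ (ρ / (2 * α)) :=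
              Real.rpow_le_rpow hH0.le hHα (by positivity)
          _ = (p : ℝ) ^ (ρ / 2) := by
              rw [← Real.rpow_mul hp0'.le]
              congr 1
              field_simp
      have h4 : (p : ℝ) ^ (ρ / 2) < (p : ℝ) ^ ρ := Real.rpow_lt_rpow_of_exponent_lt (by linarith) (by linarith)
      linarith)
    (by
      rw [V_Pq]
      refine le_trans ?_ hSc
      calc κ / C₁ * (H * VV p H) ≤ κ / C₁ * (H * (C₁ / Real.log H)) := by gcongr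
        _ = κ * (H / Real.log H) := by
            field_simp)
  refine ⟨a, d, hd1, hd2.trans ?_, hAP⟩
  have h1 : Real.log H ≤ Real.log p ^ 2 := by
    calc Real.log H ≤ Real.log ((p : ℝ) ^ α) := Real.log_le_log hH0 hHα
      _ = α * Real.log p := Real.log_rpow hp0' _
      _ ≤ Real.log p * Real.log p := mul_le_mul_of_nonneg_right (by linarith) (by linarith)
      _ = _ := by ring
  calc Real.log H ^ B ≤ (Real.log p ^ 2) ^ B := pow_le_pow_left₀ hlH.le h1 B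
    _ = Real.log p ^ (2 * B) := by rw [← pow_mul]

end Pool.Agent.Zk48.AP
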