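import Pool.Agent.Zk48.AP.Cnt

/-!
The second moment, over the modulus `m`, of the remainders in the sieve for the numbers `2 m j + 1`, `j ≤ H`: the
correlations of two remainders.
-/

set_option autoImplicit false

namespace Pool.Agent.Zk48.AP

open Finset

/-- the number of the `j ≤ H` with `n ∣ 2 m j + 1` -/
def AA (H n m : ℕ) : ℕ := ((Icc 1 H).filter (fun j : ℕ => n ∣ 2 * m * j + 1)).card

/-- the remainder -/
noncomputable def ff (H n m : ℕ) : ℝ := (AA H n m : ℝ) - if Nat.Coprime m n then (H : ℝ) / n else 0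

lemma sum_crt (a b : ℕ) (ha : 0 < a) (hb : 0 < b) (hab : Nat.Coprime a b) (F : ℕ → ℕ → ℝ) :
    ∑ m ∈ range (a * b), F (m % a) (m % b) = ∑ y ∈ range a, ∑ z ∈ range b, F y z := by
  rw [← sum_product']
  have hinj : Set.InjOn (fun m : ℕ => (m % a, m % b)) (range (a * b) : Finset ℕ) := by
    intro x hx y hy hxy
    rw [mem_coe, mem_range] at hx hy
    have h1 : x % a = y % a := congrArg Prod.fst hxy
    have h2 : x % b = y % b := congrArg Prod.snd hxy
    have h3 : x ≡ y [MOD a * b] := (Nat.modEq_and_modEq_iff_modEq_mul hab).1 ⟨h1, h2⟩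
    have h4 : x % (a * b) = y % (a * b) := h3
    rwa [Nat.mod_eq_of_lt hx, Nat.mod_eq_of_lt hy] at h4
  have himg : (range (a * b)).image (fun m : ℕ => (m % a, m % b)) = range a ×ˢ range b := by
    apply eq_of_subset_of_card_le
    · intro x hx
      rw [mem_image] at hx
      obtain ⟨m, _, rfl⟩ := hx
      rw [mem_product, mem_range, mem_range]
      exact ⟨Nat.mod_lt _ ha, Nat.mod_lt _ hb⟩
    · rw [card_image_of_injOn hinj, card_product, card_range, card_range, card_range]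
  rw [← himg, sum_image hinj]

lemma sum_per (L : ℕ) (F : ℕ → ℝ) (hF : ∀ m, F (L + m) = F m) (u s : ℕ) :
    ∑ m ∈ range (u * L + s), F m = u * ∑ m ∈ range L, F m + ∑ m ∈ range s, F m := by
  induction u with
  | zero => simp
  | succ u ih =>
    rw [show (u + 1) * L + s = L + (u * L + s) by ring, sum_range_add, sum_congr rfl (fun x _ => hF x), ih]
    push_cast
    ring

lemma dvd_per (n m j : ℕ) : n ∣ 2 * (m % n) * j + 1 ↔ n ∣ 2 * m * j + 1 := by
  have h1 : 2 * (m % n) * j + 1 ≡ 2 * m * j + 1 [MOD n] := by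
    apply Nat.ModEq.add_right
    apply Nat.ModEq.mul_right
    apply Nat.ModEq.mul_left
    exact Nat.mod_modEq _ _
  exact h1.dvd_iff dvd_rfl

lemma dvd_per' (n L m j : ℕ) (hL : n ∣ L) : n ∣ 2 * (m % L) * j + 1 ↔ n ∣ 2 * m * j + 1 := by
  have h1 : 2 * (m % L) * j + 1 ≡ 2 * m * j + 1 [MOD n] := by
    apply Nat.ModEq.add_right
    apply Nat.ModEq.mul_right
    apply Nat.ModEq.mul_left
    exact (Nat.mod_modEq m L).of_dvd hL
  exact h1.dvd_iff dvd_rfl

lemma cop_per (n L m : ℕ) (hL : n ∣ L) : Nat.Coprime (m % L) n ↔ Nat.Coprime m n := by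
  have h1 : m % L ≡ m [MOD n] := (Nat.mod_modEq m L).of_dvd hL
  unfold Nat.Coprime
  rw [h1.gcd_eq]

lemma AA_per (H n L m : ℕ) (hL : n ∣ L) : AA H n (m % L) = AA H n m := by
  unfold AA
  congr 1
  apply filter_congr
  intro j _
  exact dvd_per' n L m j hL

lemma ff_per (H n L m : ℕ) (hL : n ∣ L) : ff H n (m % L) = ff H n m := by
  unfold ff
  rw [AA_per H n L m hL, if_congr (cop_per n L m hL) rfl rfl]

lemma ff_per_add (H n L m : ℕ) (hL : n ∣ L) : ff H n (L + m) = ff H n m := by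
  rw [← ff_per H n L (L + m) hL, Nat.add_mod_left, ff_per H n L m hL]

lemma cop_of_dvd (n m j : ℕ) (h : n ∣ 2 * m * j + 1) : Nat.Coprime m n ∧ Nat.Coprime (2 * j) n := by
  constructor
  · apply Nat.Coprime.symm
    rw [Nat.coprime_iff_gcd_eq_one]
    by_contra hne
    obtain ⟨p, hp, hpd⟩ := Nat.exists_prime_and_dvd hne
    have h1 : p ∣ n := hpd.trans (Nat.gcd_dvd_left _ _)
    have h2 : p ∣ m := hpd.trans (Nat.gcd_dvd_right _ _)
    have h3 : p ∣ 1 := (Nat.dvd_add_right ((h2.mul_left 2).mul_right j)).1 (h1.trans h)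
    exact hp.one_lt.ne' (Nat.dvd_one.1 h3)
  · apply Nat.Coprime.symm
    rw [Nat.coprime_iff_gcd_eq_one]
    by_contra hne
    obtain ⟨p, hp, hpd⟩ := Nat.exists_prime_and_dvd hne
    have h1 : p ∣ n := hpd.trans (Nat.gcd_dvd_left _ _)
    have h2 : p ∣ 2 * j := hpd.trans (Nat.gcd_dvd_right _ _)
    have h4 : p ∣ 2 * m * j := by
      rw [show 2 * m * j = (2 * j) * m by ring]
      exact h2.mul_right m
    have h3 : p ∣ 1 := (Nat.dvd_add_right h4).1 (h1.trans h)
    exact hp.one_lt.ne' (Nat.dvd_one.1 h3)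

lemma AA_zero (H n m : ℕ) (h : ¬ Nat.Coprime m n) : AA H n m = 0 := by
  unfold AA
  rw [card_eq_zero, filter_eq_empty_iff]
  intro j _ hj
  exact h (cop_of_dvd n m j hj).1

lemma ff_zero (H n m : ℕ) (h : ¬ Nat.Coprime m n) : ff H n m = 0 := by
  unfold ff
  rw [AA_zero H n m h, if_neg h]
  simp

/-- the solutions `m < n` of `n ∣ 2 m j + 1` -/
lemma sol_one (n j : ℕ) (hn : 0 < n) :
    ((range n).filter (fun m => n ∣ 2 * m * j + 1)).card = if Nat.Coprime (2 * j) n then 1 else 0 := by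
  split_ifs with h
  · obtain ⟨v, hv⟩ := cls n (2 * j) 1 0 hn h
    rw [card_eq_one]
    refine ⟨v % n, ?_⟩
    ext m
    rw [mem_filter, mem_range, mem_singleton]
    have h1 := hv m
    rw [zero_add, show 2 * j * m = 2 * m * j by ring] at h1
    rw [h1]
    constructor
    · rintro ⟨h3, h4⟩
      have h5 : m % n = v % n := h4
      rwa [Nat.mod_eq_of_lt h3] at h5
    · rintro rfl
      exact ⟨Nat.mod_lt _ hn, Nat.mod_modEq _ _⟩
  · rw [card_eq_zero, filter_eq_empty_iff]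
    intro m _ hm
    exact h (cop_of_dvd n m j hm).2

/-- coprimality in a residue class -/
lemma cop_class (H : ℕ) (T : Finset ℕ) (hT : ∀ p ∈ T, p.Prime) : ∀ (g x : ℕ), 0 < g → (∀ p ∈ T, ¬ p ∣ g) →
    |(((Icc 1 H).filter (fun j : ℕ => j ≡ x [MOD g] ∧ ∀ p ∈ T, ¬ p ∣ j)).card : ℝ) -
      (H : ℝ) / g * ∏ p ∈ T, (1 - 1 / (p : ℝ))| ≤ 2 ^ T.card := by
  induction T using Finset.induction_on with
  | empty =>
    intro g x hg _
    have h1 := cnt g 1 (g - x % g) 0 H hg (Nat.coprime_one_left g)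
    have e : (Icc 1 H).filter (fun j : ℕ => j ≡ x [MOD g] ∧ ∀ p ∈ (∅ : Finset ℕ), ¬ p ∣ j) =
        (Icc 1 H).filter (fun j : ℕ => g ∣ 1 * (0 + j) + (g - x % g)) := by
      apply filter_congr
      intro j _
      rw [one_mul, zero_add]
      constructor
      · rintro ⟨h2, -⟩
        have h3 : j % g = x % g := h2
        have h4 : j + (g - x % g) ≡ x % g + (g - x % g) [MOD g] := by
          apply Nat.ModEq.add_right
          rw [← h3]
          exact (Nat.mod_modEq j g).symm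
        rw [Nat.add_sub_cancel' (Nat.mod_lt x hg).le] at h4
        have h5 : g ∣ g := dvd_rfl
        exact (h4.dvd_iff dvd_rfl).2 h5
      · intro h2
        refine ⟨?_, fun p hp => absurd hp (notMem_empty p)⟩
        have h4 : j + (g - x % g) ≡ x % g + (g - x % g) [MOD g] := by
          rw [Nat.add_sub_cancel' (Nat.mod_lt x hg).le]
          have h5 : j + (g - x % g) ≡ 0 [MOD g] := (Nat.modEq_zero_iff_dvd).2 h2
          have h6 : g ≡ 0 [MOD g] := (Nat.modEq_zero_iff_dvd).2 dvd_rfl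
          exact h5.trans h6.symm
        have h7 := Nat.ModEq.add_right_cancel' _ h4
        exact h7.trans (Nat.mod_modEq x g)
    rw [e, prod_empty, mul_one, card_empty, pow_zero]
    exact h1
  | insert p T hpT ih =>
    intro g x hg hdiv
    have hp : p.Prime := hT p (mem_insert_self _ _)
    have hT' : ∀ q ∈ T, q.Prime := fun q hq => hT q (mem_insert_of_mem hq)
    have ih' := ih hT'
    have h1 := ih' g x hg (fun q hq => hdiv q (mem_insert_of_mem hq))
    have hpg : Nat.Coprime g p := by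
      apply Nat.Coprime.symm
      exact (Nat.Prime.coprime_iff_not_dvd hp).2 (hdiv p (mem_insert_self _ _))
    obtain ⟨w, hw1, hw2⟩ : ∃ w : ℕ, w ≡ x [MOD g] ∧ w ≡ 0 [MOD p] :=
      ⟨(Nat.chineseRemainder hpg x 0).1, (Nat.chineseRemainder hpg x 0).2.1, (Nat.chineseRemainder hpg x 0).2.2⟩
    have h2 := ih' (g * p) w (Nat.mul_pos hg hp.pos) (by
      intro q hq hd
      rcases (Nat.Prime.dvd_mul (hT' q hq)).1 hd with h | h
      · exact hdiv q (mem_insert_of_mem hq) h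
      · have h3 := (Nat.prime_dvd_prime_iff_eq (hT' q hq) hp).1 h
        rw [h3] at hq
        exact hpT hq)
    have hsplit : ((Icc 1 H).filter (fun j : ℕ => j ≡ x [MOD g] ∧ ∀ q ∈ T, ¬ q ∣ j)).card =
        ((Icc 1 H).filter (fun j : ℕ => j ≡ x [MOD g] ∧ ∀ q ∈ insert p T, ¬ q ∣ j)).card +
        ((Icc 1 H).filter (fun j : ℕ => j ≡ w [MOD g * p] ∧ ∀ q ∈ T, ¬ q ∣ j)).card := by
      rw [← card_union_of_disjoint]
      · congr 1
        ext j
        simp only [mem_union, mem_filter, mem_insert, forall_eq_or_imp]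
        have h3 : j ≡ w [MOD g * p] ↔ j ≡ x [MOD g] ∧ p ∣ j := by
          rw [← Nat.modEq_and_modEq_iff_modEq_mul hpg]
          constructor
          · rintro ⟨h4, h5⟩
            exact ⟨h4.trans hw1, (Nat.modEq_zero_iff_dvd).1 (h5.trans hw2)⟩
          · rintro ⟨h4, h5⟩
            exact ⟨h4.trans hw1.symm, ((Nat.modEq_zero_iff_dvd).2 h5).trans hw2.symm⟩
        rw [h3]
        by_cases h4 : p ∣ j <;> tauto
      · rw [disjoint_filter]
        rintro j _ ⟨_, h4⟩ ⟨h5, _⟩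
        have h6 : p ∣ j := by
          have h7 := ((Nat.modEq_and_modEq_iff_modEq_mul hpg).2 h5).2
          exact (Nat.modEq_zero_iff_dvd).1 (h7.trans hw2)
        exact h4 p (mem_insert_self _ _) h6
    have hsr : (((Icc 1 H).filter (fun j : ℕ => j ≡ x [MOD g] ∧ ∀ q ∈ T, ¬ q ∣ j)).card : ℝ) =
        (((Icc 1 H).filter (fun j : ℕ => j ≡ x [MOD g] ∧ ∀ q ∈ insert p T, ¬ q ∣ j)).card : ℝ) +
        (((Icc 1 H).filter (fun j : ℕ => j ≡ w [MOD g * p] ∧ ∀ q ∈ T, ¬ q ∣ j)).card : ℝ) := by exact_mod_cast hsplit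
    rw [prod_insert hpT, card_insert_of_notMem hpT, pow_succ]
    have hp0 : (0 : ℝ) < p := by exact_mod_cast hp.pos
    have hg0 : (0 : ℝ) < g := by exact_mod_cast hg
    have e : (H : ℝ) / g * ((1 - 1 / (p : ℝ)) * ∏ q ∈ T, (1 - 1 / (q : ℝ))) =
        (H : ℝ) / g * ∏ q ∈ T, (1 - 1 / (q : ℝ)) - (H : ℝ) / ((g * p : ℕ) : ℝ) * ∏ q ∈ T, (1 - 1 / (q : ℝ)) := by
      push_cast
      field_simp
    rw [e]
    rw [abs_le] at h1 h2 ⊢
    constructor <;> linarith [h1.1, h1.2, h2.1, h2.2]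

/-- the number of the residues prime to a product of primes -/
lemma tot_prod (T : Finset ℕ) (hT : ∀ p ∈ T, p.Prime) :
    (((range (∏ p ∈ T, p)).filter (fun z => Nat.Coprime z (∏ p ∈ T, p))).card : ℝ) =
      ((∏ p ∈ T, p : ℕ) : ℝ) * ∏ p ∈ T, (1 - 1 / (p : ℝ)) := by
  have h1 : ((range (∏ p ∈ T, p)).filter (fun z => Nat.Coprime z (∏ p ∈ T, p))).card = Nat.totient (∏ p ∈ T, p) := by
    unfold Nat.totient
    congr 1
    apply filter_congr
    intro z _
    exact Nat.coprime_comm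
  rw [h1]
  clear h1
  induction T using Finset.induction_on with
  | empty => simp
  | insert p T hpT ih =>
    have hp : p.Prime := hT p (mem_insert_self _ _)
    have hT' : ∀ q ∈ T, q.Prime := fun q hq => hT q (mem_insert_of_mem hq)
    have hcop : Nat.Coprime p (∏ q ∈ T, q) := by
      apply Nat.Coprime.prod_right
      intro q hq
      exact (Nat.coprime_primes hp (hT' q hq)).2 (fun h => hpT (h ▸ hq))
    rw [prod_insert hpT, prod_insert hpT, Nat.totient_mul hcop, Nat.totient_prime hp]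
    push_cast
    have h2 := ih hT'
    push_cast at h2
    rw [h2, Nat.cast_sub hp.one_le]
    have hp0 : (p : ℝ) ≠ 0 := by exact_mod_cast hp.ne_zero
    field_simp
    push_cast
    ring

lemma cop_prod (T : Finset ℕ) (hT : ∀ p ∈ T, p.Prime) (j : ℕ) :
    Nat.Coprime j (∏ p ∈ T, p) ↔ ∀ p ∈ T, ¬ p ∣ j := by
  rw [Nat.coprime_prod_right_iff]
  constructor
  · intro h p hp hd
    have h1 := h p hp
    have h2 : p ∣ Nat.gcd j p := Nat.dvd_gcd hd dvd_rfl
    rw [h1] at h2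
    exact (hT p hp).one_lt.ne' (Nat.dvd_one.1 h2)
  · intro h p hp
    exact ((Nat.Prime.coprime_iff_not_dvd (hT p hp)).2 (h p hp)).symm

/-- the inner sum -/
lemma fiber (H g : ℕ) (T : Finset ℕ) (hT : ∀ p ∈ T, p.Prime) (hT2 : ∀ p ∈ T, p ≠ 2) (hg : 0 < g)
    (hgT : ∀ p ∈ T, ¬ p ∣ g) (y : ℕ) (hy : Nat.Coprime (2 * y) g) :
    |∑ z ∈ range (∏ p ∈ T, p), (if Nat.Coprime z (∏ p ∈ T, p) then
      ((((Icc 1 H).filter (fun j : ℕ => g ∣ 2 * y * j + 1 ∧ (∏ p ∈ T, p) ∣ 2 * z * j + 1)).card : ℝ) -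
        (H : ℝ) / ((g * ∏ p ∈ T, p : ℕ) : ℝ)) else 0)| ≤ 2 ^ T.card := by
  obtain ⟨e, he⟩ : ∃ e : ℕ, e = ∏ p ∈ T, p := ⟨_, rfl⟩
  have he0 : 0 < e := by
    rw [he]
    exact Nat.pos_of_ne_zero (prod_ne_zero_iff.2 fun p hp => (hT p hp).ne_zero)
  have h2e : Nat.Coprime 2 e := by
    rw [he]
    apply Nat.Coprime.prod_right
    intro q hq
    exact (Nat.coprime_primes Nat.prime_two (hT q hq)).2 (fun h => hT2 q hq h.symm)
  obtain ⟨v, hv⟩ := cls g (2 * y) 1 0 hg hy
  have hcls : ∀ j : ℕ, g ∣ 2 * y * j + 1 ↔ j ≡ v [MOD g] := by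
    intro j
    have := hv j
    rwa [zero_add] at this
  rw [← he]
  rw [← sum_filter, sum_sub_distrib, sum_const, nsmul_eq_mul]
  have h1 : ∑ z ∈ (range e).filter (fun z => Nat.Coprime z e),
      (((Icc 1 H).filter (fun j : ℕ => g ∣ 2 * y * j + 1 ∧ e ∣ 2 * z * j + 1)).card : ℝ) =
      (((Icc 1 H).filter (fun j : ℕ => j ≡ v [MOD g] ∧ ∀ p ∈ T, ¬ p ∣ j)).card : ℝ) := by
    have h2 : ∑ z ∈ (range e).filter (fun z => Nat.Coprime z e),
        (((Icc 1 H).filter (fun j : ℕ => g ∣ 2 * y * j + 1 ∧ e ∣ 2 * z * j + 1)).card) =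
        ∑ z ∈ range e, ((Icc 1 H).filter (fun j : ℕ => g ∣ 2 * y * j + 1 ∧ e ∣ 2 * z * j + 1)).card := by
      rw [sum_filter]
      apply sum_congr rfl
      intro z _
      split_ifs with hz
      · rfl
      · symm
        rw [card_eq_zero, filter_eq_empty_iff]
        rintro j _ ⟨_, hj⟩
        exact hz (cop_of_dvd e z j hj).1
    have h3 : ∑ z ∈ range e, ((Icc 1 H).filter (fun j : ℕ => g ∣ 2 * y * j + 1 ∧ e ∣ 2 * z * j + 1)).card =
        ((Icc 1 H).filter (fun j : ℕ => j ≡ v [MOD g] ∧ ∀ p ∈ T, ¬ p ∣ j)).card := by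
      simp_rw [card_filter]
      rw [sum_comm]
      apply sum_congr rfl
      intro j _
      by_cases hj : j ≡ v [MOD g]
      · have hj' := (hcls j).2 hj
        have h4 := sol_one e j he0
        rw [card_filter] at h4
        have h5 : ∑ z ∈ range e, (if g ∣ 2 * y * j + 1 ∧ e ∣ 2 * z * j + 1 then 1 else 0) =
            ∑ z ∈ range e, (if e ∣ 2 * z * j + 1 then 1 else 0) := by
          apply sum_congr rfl
          intro z _
          simp [hj']
        rw [h5, h4]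
        have h6 : Nat.Coprime (2 * j) e ↔ ∀ p ∈ T, ¬ p ∣ j := by
          rw [Nat.coprime_mul_iff_left, ← cop_prod T hT j, he]
          constructor
          · exact fun h => h.2
          · exact fun h => ⟨he ▸ h2e, h⟩
        simp only [h6, hj, true_and]
      · have hj' : ¬ g ∣ 2 * y * j + 1 := fun h => hj ((hcls j).1 h)
        simp [hj, hj']
    have h4 : ∑ z ∈ (range e).filter (fun z => Nat.Coprime z e),
      (((Icc 1 H).filter (fun j : ℕ => g ∣ 2 * y * j + 1 ∧ e ∣ 2 * z * j + 1)).card : ℝ) =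
      ((∑ z ∈ (range e).filter (fun z => Nat.Coprime z e),
        (((Icc 1 H).filter (fun j : ℕ => g ∣ 2 * y * j + 1 ∧ e ∣ 2 * z * j + 1)).card) : ℕ) : ℝ) := by push_cast; rfl
    rw [h4, h2, h3]
  rw [h1]
  have h5 := tot_prod T hT
  rw [← he] at h5
  rw [h5]
  have h6 := cop_class H T hT g v hg hgT
  have he0' : (e : ℝ) ≠ 0 := by exact_mod_cast he0.ne'
  have hg0' : (g : ℝ) ≠ 0 := by exact_mod_cast hg.ne'
  have h7 : (e : ℝ) * (∏ p ∈ T, (1 - 1 / (p : ℝ))) * ((H : ℝ) / ((g * e : ℕ) : ℝ)) =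
      (H : ℝ) / g * ∏ p ∈ T, (1 - 1 / (p : ℝ)) := by
    push_cast
    field_simp
  rw [h7]
  exact h6

end Pool.Agent.Zk48.AP
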