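import Pool.Agent.Zk48.AP.V1

/-!
The correlations of two remainders, summed over the modulus `m`.
-/

set_option autoImplicit false

namespace Pool.Agent.Zk48.AP

open Finset

/-- the sum of the counts over a period -/
lemma sum_AA_le (H n : ℕ) (hn : 0 < n) : ∑ y ∈ range n, AA H n y ≤ H := by
  unfold AA
  simp_rw [card_filter]
  rw [sum_comm]
  calc ∑ j ∈ Icc 1 H, ∑ y ∈ range n, (if n ∣ 2 * y * j + 1 then 1 else 0) ≤ ∑ j ∈ Icc 1 H, 1 := by
        apply sum_le_sum
        intro j _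
        have h1 := sol_one n j hn
        rw [card_filter] at h1
        rw [h1]
        split_ifs <;> norm_num
    _ = H := by
        rw [sum_const, Nat.card_Icc]
        simp

/-- a complete period -/
lemma corr_full (H : ℕ) (T T' : Finset ℕ) (hT : ∀ p ∈ T, p.Prime ∧ p ≠ 2) (hT' : ∀ p ∈ T', p.Prime ∧ p ≠ 2) :
    |∑ m ∈ range ((∏ p ∈ T', p) * ∏ p ∈ T \ T', p), ff H (∏ p ∈ T, p) m * ff H (∏ p ∈ T', p) m| ≤
      2 * H * 2 ^ T.card := by
  obtain ⟨a, ha⟩ : ∃ a : ℕ, a = ∏ p ∈ T', p := ⟨_, rfl⟩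
  obtain ⟨e, he⟩ : ∃ e : ℕ, e = ∏ p ∈ T \ T', p := ⟨_, rfl⟩
  obtain ⟨g, hg⟩ : ∃ g : ℕ, g = ∏ p ∈ T ∩ T', p := ⟨_, rfl⟩
  have hpos : ∀ S : Finset ℕ, (∀ p ∈ S, p.Prime) → 0 < ∏ p ∈ S, p := fun S hS =>
    Nat.pos_of_ne_zero (prod_ne_zero_iff.2 fun p hp => (hS p hp).ne_zero)
  have hE : ∀ p ∈ T \ T', p.Prime := fun p hp => (hT p (mem_sdiff.1 hp).1).1
  have hG : ∀ p ∈ T ∩ T', p.Prime := fun p hp => (hT p (mem_inter.1 hp).1).1
  have ha0 : 0 < a := by rw [ha]; exact hpos T' fun p hp => (hT' p hp).1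
  have he0 : 0 < e := by rw [he]; exact hpos _ hE
  have hg0 : 0 < g := by rw [hg]; exact hpos _ hG
  have hT0 : ∏ p ∈ T, p = g * e := by
    rw [hg, he, ← prod_union (by
      rw [disjoint_left]
      intro p hp hp'
      exact (mem_sdiff.1 hp').2 (mem_inter.1 hp).2)]
    congr 1
    ext p
    simp only [mem_union, mem_inter, mem_sdiff]
    tauto
  have hga : g ∣ a := by
    rw [hg, ha]
    exact prod_dvd_prod_of_subset _ _ _ inter_subset_right
  have hae : Nat.Coprime a e := by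
    rw [ha, he]
    apply Nat.Coprime.prod_left
    intro p hp
    apply Nat.Coprime.prod_right
    intro q hq
    exact (Nat.coprime_primes (hT' p hp).1 (hE q hq)).2 (fun h => (mem_sdiff.1 hq).2 (h ▸ hp))
  have hge : Nat.Coprime g e := hae.coprime_dvd_left hga
  have h2a : Nat.Coprime 2 a := by
    rw [ha]
    apply Nat.Coprime.prod_right
    intro q hq
    exact (Nat.coprime_primes Nat.prime_two (hT' q hq).1).2 (fun h => (hT' q hq).2 h.symm)
  have h2g : Nat.Coprime 2 g := h2a.coprime_dvd_right hga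
  rw [← ha, ← he, hT0]
  obtain ⟨Φ, hΦ⟩ : ∃ Φ : ℕ → ℕ → ℝ, ∀ y z, Φ y z = ff H a y * (if Nat.Coprime z e then
      ((((Icc 1 H).filter (fun j : ℕ => g ∣ 2 * y * j + 1 ∧ e ∣ 2 * z * j + 1)).card : ℝ) -
        (H : ℝ) / ((g * e : ℕ) : ℝ)) else 0) := ⟨_, fun _ _ => rfl⟩
  have hkey : ∀ m : ℕ, ff H (g * e) m * ff H a m = Φ (m % a) (m % e) := by
    intro m
    rw [hΦ, ff_per H a a m dvd_rfl, mul_comm]
    by_cases hma : Nat.Coprime m a
    · congr 1
      have hmg : Nat.Coprime m g := hma.coprime_dvd_right hga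
      rw [if_congr (cop_per e e m dvd_rfl) rfl rfl]
      by_cases hme : Nat.Coprime m e
      · rw [if_pos hme]
        unfold ff
        rw [if_pos (Nat.Coprime.mul_right hmg hme)]
        congr 2
        unfold AA
        congr 1
        apply filter_congr
        intro j _
        rw [dvd_per' g a m j hga, dvd_per' e e m j dvd_rfl]
        constructor
        · intro h
          exact ⟨(Dvd.intro _ rfl).trans h, (Dvd.intro_left _ rfl).trans h⟩
        · rintro ⟨h1, h2⟩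
          exact hge.mul_dvd_of_dvd_of_dvd h1 h2
      · rw [if_neg hme]
        exact ff_zero H (g * e) m (fun h => hme (h.coprime_dvd_right (Dvd.intro_left _ rfl)))
    · rw [ff_zero H a m hma]
      simp
  rw [sum_congr rfl (fun m _ => hkey m), sum_crt a e ha0 he0 hae]
  have hin : ∀ y ∈ range a, |∑ z ∈ range e, Φ y z| ≤ |ff H a y| * 2 ^ T.card := by
    intro y _
    simp_rw [hΦ]
    rw [← mul_sum, abs_mul]
    by_cases hya : Nat.Coprime y a
    · apply mul_le_mul_of_nonneg_left _ (abs_nonneg _)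
      have h1 := fiber H g (T \ T') hE (fun p hp => (hT p (mem_sdiff.1 hp).1).2) hg0 (by
        intro p hp hd
        have h2 : p ∣ e := by
          rw [he]
          exact dvd_prod_of_mem _ hp
        have h3 := Nat.dvd_gcd hd h2
        rw [hge] at h3
        exact (hE p hp).one_lt.ne' (Nat.dvd_one.1 h3)) y
        (Nat.Coprime.mul_left h2g (hya.coprime_dvd_right hga))
      rw [← he] at h1
      refine h1.trans ?_
      exact pow_le_pow_right₀ (by norm_num) (card_le_card sdiff_subset)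
    · rw [ff_zero H a y hya, abs_zero, zero_mul, zero_mul]
  have hff : ∀ y : ℕ, |ff H a y| ≤ (AA H a y : ℝ) + (H : ℝ) / a := by
    intro y
    unfold ff
    have h1 : (0 : ℝ) ≤ (H : ℝ) / a := by positivity
    have h2 : (0 : ℝ) ≤ (AA H a y : ℝ) := Nat.cast_nonneg _
    split_ifs <;> rw [abs_le] <;> constructor <;> linarith
  have ha0' : (0 : ℝ) < a := by exact_mod_cast ha0
  calc |∑ y ∈ range a, ∑ z ∈ range e, Φ y z| ≤ ∑ y ∈ range a, |∑ z ∈ range e, Φ y z| := abs_sum_le_sum_abs _ _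
    _ ≤ ∑ y ∈ range a, ((AA H a y : ℝ) + (H : ℝ) / a) * 2 ^ T.card :=
        sum_le_sum fun y hy => (hin y hy).trans (mul_le_mul_of_nonneg_right (hff y) (by positivity))
    _ = ((∑ y ∈ range a, AA H a y : ℕ) + H) * 2 ^ T.card := by
        rw [← sum_mul, sum_add_distrib, sum_const, card_range, nsmul_eq_mul]
        push_cast
        congr 2
        field_simp
    _ ≤ ((H : ℝ) + H) * 2 ^ T.card := by
        apply mul_le_mul_of_nonneg_right _ (by positivity)
        have h1 : ((∑ y ∈ range a, AA H a y : ℕ) : ℝ) ≤ H := by exact_mod_cast sum_AA_le H a ha0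
        linarith
    _ = _ := by ring

/-- the number of the solutions in a period of a divisor -/
lemma sol_mul (n c j : ℕ) (hn : 0 < n) :
    ((range (c * n)).filter (fun m => n ∣ 2 * m * j + 1)).card ≤ c := by
  have h1 := sum_per n (fun m => if n ∣ 2 * m * j + 1 then (1 : ℝ) else 0) (by
    intro m
    have h2 : n ∣ 2 * (n + m) * j + 1 ↔ n ∣ 2 * m * j + 1 := by
      rw [← dvd_per n (n + m) j, Nat.add_mod_left, dvd_per n m j]
    simp only [h2]) c 0
  simp only [add_zero, range_zero, sum_empty] at h1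
  have h2 : (((range (c * n)).filter (fun m => n ∣ 2 * m * j + 1)).card : ℝ) =
      c * (((range n).filter (fun m => n ∣ 2 * m * j + 1)).card : ℝ) := by
    rw [card_filter, card_filter]
    push_cast
    exact h1
  have h3 := sol_one n j hn
  have h4 : ((range n).filter (fun m => n ∣ 2 * m * j + 1)).card ≤ 1 := by
    rw [h3]
    split_ifs <;> norm_num
  have h5 : ((range (c * n)).filter (fun m => n ∣ 2 * m * j + 1)).card = c * ((range n).filter (fun m => n ∣ 2 * m * j + 1)).card := by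
    exact_mod_cast h2
  rw [h5]
  calc c * _ ≤ c * 1 := Nat.mul_le_mul_left _ h4
    _ = c := mul_one c

/-- part of a period -/
lemma corr_part (H : ℕ) (T T' : Finset ℕ) (hT : ∀ p ∈ T, p.Prime ∧ p ≠ 2) (hT' : ∀ p ∈ T', p.Prime ∧ p ≠ 2) (s : ℕ)
    (hs : s ≤ (∏ p ∈ T', p) * ∏ p ∈ T \ T', p) :
    |∑ m ∈ range s, ff H (∏ p ∈ T, p) m * ff H (∏ p ∈ T', p) m| ≤ 4 * H ^ 2 := by
  obtain ⟨a, ha⟩ : ∃ a : ℕ, a = ∏ p ∈ T', p := ⟨_, rfl⟩
  obtain ⟨b, hb⟩ : ∃ b : ℕ, b = ∏ p ∈ T, p := ⟨_, rfl⟩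
  obtain ⟨e, he⟩ : ∃ e : ℕ, e = ∏ p ∈ T \ T', p := ⟨_, rfl⟩
  obtain ⟨g, hg⟩ : ∃ g : ℕ, g = ∏ p ∈ T ∩ T', p := ⟨_, rfl⟩
  have hpos : ∀ S : Finset ℕ, (∀ p ∈ S, p.Prime) → 0 < ∏ p ∈ S, p := fun S hS =>
    Nat.pos_of_ne_zero (prod_ne_zero_iff.2 fun p hp => (hS p hp).ne_zero)
  have hE : ∀ p ∈ T \ T', p.Prime := fun p hp => (hT p (mem_sdiff.1 hp).1).1
  have hG : ∀ p ∈ T ∩ T', p.Prime := fun p hp => (hT p (mem_inter.1 hp).1).1
  have ha0 : 0 < a := by rw [ha]; exact hpos T' fun p hp => (hT' p hp).1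
  have hb0 : 0 < b := by rw [hb]; exact hpos T fun p hp => (hT p hp).1
  have he0 : 0 < e := by rw [he]; exact hpos _ hE
  have hg0 : 0 < g := by rw [hg]; exact hpos _ hG
  have hT0 : b = g * e := by
    rw [hb, hg, he, ← prod_union (by
      rw [disjoint_left]
      intro p hp hp'
      exact (mem_sdiff.1 hp').2 (mem_inter.1 hp).2)]
    congr 1
    ext p
    simp only [mem_union, mem_inter, mem_sdiff]
    tauto
  have hga : g ∣ a := by
    rw [hg, ha]
    exact prod_dvd_prod_of_subset _ _ _ inter_subset_right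
  have hae : Nat.Coprime a e := by
    rw [ha, he]
    apply Nat.Coprime.prod_left
    intro p hp
    apply Nat.Coprime.prod_right
    intro q hq
    exact (Nat.coprime_primes (hT' p hp).1 (hE q hq)).2 (fun h => (mem_sdiff.1 hq).2 (h ▸ hp))
  rw [← ha, ← he] at hs
  rw [← ha, ← hb]
  have ha0' : (0 : ℝ) < a := by exact_mod_cast ha0
  have hb0' : (0 : ℝ) < b := by exact_mod_cast hb0
  have hff : ∀ n : ℕ, ∀ y : ℕ, |ff H n y| ≤ (AA H n y : ℝ) + (H : ℝ) / n := by
    intro n y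
    unfold ff
    have h1 : (0 : ℝ) ≤ (H : ℝ) / n := by positivity
    have h2 : (0 : ℝ) ≤ (AA H n y : ℝ) := Nat.cast_nonneg _
    split_ifs <;> rw [abs_le] <;> constructor <;> linarith
  obtain ⟨c, hc⟩ := hga
  have hbL : a * e = c * b := by rw [hc, hT0]; ring
  -- the four sums
  have s1 : ∑ m ∈ range (a * e), (AA H b m : ℝ) * (AA H a m : ℝ) ≤ (H : ℝ) ^ 2 := by
    have h1 : ∑ m ∈ range (a * e), AA H b m * AA H a m ≤ H ^ 2 := by
      unfold AA
      simp_rw [card_filter, sum_mul_sum]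
      rw [sum_comm]
      simp_rw [sum_comm (s := range (a * e)) (t := Icc 1 H)]
      calc ∑ j ∈ Icc 1 H, ∑ i ∈ Icc 1 H, ∑ m ∈ range (a * e),
            ((if b ∣ 2 * m * j + 1 then 1 else 0) * if a ∣ 2 * m * i + 1 then 1 else 0) ≤
            ∑ j ∈ Icc 1 H, ∑ i ∈ Icc 1 H, 1 := by
              apply sum_le_sum
              intro j _
              apply sum_le_sum
              intro i _
              have h2 : ∑ m ∈ range (a * e), ((if b ∣ 2 * m * j + 1 then 1 else 0) * if a ∣ 2 * m * i + 1 then 1 else 0) =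
                  ((range (a * e)).filter (fun m => b ∣ 2 * m * j + 1 ∧ a ∣ 2 * m * i + 1)).card := by
                rw [card_filter]
                apply sum_congr rfl
                intro m _
                by_cases h3 : b ∣ 2 * m * j + 1 <;> by_cases h4 : a ∣ 2 * m * i + 1 <;> simp [h3, h4]
              rw [h2, card_le_one]
              intro x hx y hy
              rw [mem_filter, mem_range] at hx hy
              obtain ⟨hx1, hx2, hx3⟩ := hx
              obtain ⟨hy1, hy2, hy3⟩ := hy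
              have key : ∀ n i x y : ℕ, n ∣ 2 * x * i + 1 → n ∣ 2 * y * i + 1 → x ≡ y [MOD n] := by
                intro n i x y h3 h4
                have h5 := (cop_of_dvd n x i h3).2
                have h6 : 2 * x * i + 1 ≡ 2 * y * i + 1 [MOD n] :=
                  ((Nat.modEq_zero_iff_dvd).2 h3).trans ((Nat.modEq_zero_iff_dvd).2 h4).symm
                have h7 := Nat.ModEq.add_right_cancel' 1 h6
                have h8 : (2 * i) * x ≡ (2 * i) * y [MOD n] := by
                  rw [show 2 * i * x = 2 * x * i by ring, show 2 * i * y = 2 * y * i by ring]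
                  exact h7
                exact Nat.ModEq.cancel_left_of_coprime (by rw [Nat.gcd_comm]; exact h5) h8
              have h3 := key a i x y hx3 hy3
              have h4 := (key b j x y hx2 hy2).of_dvd (show e ∣ b by rw [hT0]; exact Dvd.intro_left _ rfl)
              have h5 : x ≡ y [MOD a * e] := (Nat.modEq_and_modEq_iff_modEq_mul hae).1 ⟨h3, h4⟩
              have h6 : x % (a * e) = y % (a * e) := h5
              rwa [Nat.mod_eq_of_lt hx1, Nat.mod_eq_of_lt hy1] at h6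
        _ = H ^ 2 := by
            simp only [sum_const, Nat.card_Icc, smul_eq_mul, mul_one, Nat.add_sub_cancel]
            ring
    exact_mod_cast h1
  have sA : ∀ n c' : ℕ, 0 < n → a * e = c' * n → ∑ m ∈ range (a * e), (AA H n m : ℝ) ≤ (H : ℝ) * c' := by
    intro n c' hn hL
    have h1 : ∑ m ∈ range (a * e), AA H n m ≤ H * c' := by
      unfold AA
      simp_rw [card_filter]
      rw [sum_comm]
      calc ∑ j ∈ Icc 1 H, ∑ m ∈ range (a * e), (if n ∣ 2 * m * j + 1 then 1 else 0) ≤ ∑ j ∈ Icc 1 H, c' := by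
            apply sum_le_sum
            intro j _
            have h2 := sol_mul n c' j hn
            rw [← hL, card_filter] at h2
            exact h2
        _ = _ := by
            rw [sum_const, Nat.card_Icc, smul_eq_mul, Nat.add_sub_cancel]
    exact_mod_cast h1
  have hH0 : (0 : ℝ) ≤ H := Nat.cast_nonneg _
  have hLr : (a : ℝ) * e = c * b := by exact_mod_cast hbL
  have hcg : (c : ℝ) * g = a := by
    have : c * g = a := by rw [hc]; ring
    exact_mod_cast this
  have hg1 : (1 : ℝ) ≤ g := by exact_mod_cast hg0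
  have hbr : (b : ℝ) = g * e := by exact_mod_cast hT0
  have he0' : (0 : ℝ) < e := by exact_mod_cast he0
  have hg0' : (0 : ℝ) < g := by linarith
  have hc0 : (0 : ℝ) < c := by
    by_contra h
    have h1 : (c : ℝ) ≤ 0 := not_lt.1 h
    nlinarith
  have q1 : (H : ℝ) * c * ((H : ℝ) / a) ≤ (H : ℝ) ^ 2 := by
    rw [mul_div_assoc', div_le_iff₀ ha0', ← hcg]
    have : (c : ℝ) ≤ c * g := le_mul_of_one_le_right hc0.le hg1
    nlinarith [mul_nonneg hH0 hH0]
  have q2 : (H : ℝ) * e * ((H : ℝ) / b) ≤ (H : ℝ) ^ 2 := by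
    rw [mul_div_assoc', div_le_iff₀ hb0', hbr]
    have : (e : ℝ) ≤ g * e := le_mul_of_one_le_left he0'.le hg1
    nlinarith [mul_nonneg hH0 hH0]
  have q3 : ((a * e : ℕ) : ℝ) * ((H : ℝ) / b * ((H : ℝ) / a)) ≤ (H : ℝ) ^ 2 := by
    push_cast
    rw [hbr]
    have h1 : (a : ℝ) * e * ((H : ℝ) / (g * e) * ((H : ℝ) / a)) = (H : ℝ) ^ 2 / g := by
      field_simp
    rw [h1]
    exact div_le_self (by positivity) hg1
  calc |∑ m ∈ range s, ff H b m * ff H a m| ≤ ∑ m ∈ range s, |ff H b m * ff H a m| := abs_sum_le_sum_abs _ _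
    _ ≤ ∑ m ∈ range (a * e), |ff H b m * ff H a m| :=
        sum_le_sum_of_subset_of_nonneg (range_subset_range.2 hs) (fun _ _ _ => abs_nonneg _)
    _ ≤ ∑ m ∈ range (a * e), ((AA H b m : ℝ) * (AA H a m : ℝ) + (AA H b m : ℝ) * ((H : ℝ) / a) +
          (AA H a m : ℝ) * ((H : ℝ) / b) + (H : ℝ) / b * ((H : ℝ) / a)) := by
        apply sum_le_sum
        intro m _
        rw [abs_mul]
        calc |ff H b m| * |ff H a m| ≤ ((AA H b m : ℝ) + (H : ℝ) / b) * ((AA H a m : ℝ) + (H : ℝ) / a) :=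
              mul_le_mul (hff b m) (hff a m) (abs_nonneg _) (by positivity)
          _ = _ := by ring
    _ = ∑ m ∈ range (a * e), (AA H b m : ℝ) * (AA H a m : ℝ) + (∑ m ∈ range (a * e), (AA H b m : ℝ)) * ((H : ℝ) / a) +
          (∑ m ∈ range (a * e), (AA H a m : ℝ)) * ((H : ℝ) / b) +
          ((a * e : ℕ) : ℝ) * ((H : ℝ) / b * ((H : ℝ) / a)) := by
        rw [sum_add_distrib, sum_add_distrib, sum_add_distrib, sum_mul, sum_mul, sum_const, card_range, nsmul_eq_mul]
    _ ≤ (H : ℝ) ^ 2 + (H : ℝ) * c * ((H : ℝ) / a) + (H : ℝ) * e * ((H : ℝ) / b) +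
          ((a * e : ℕ) : ℝ) * ((H : ℝ) / b * ((H : ℝ) / a)) := by
        have t1 := sA b c hb0 hbL
        have t2 := sA a e ha0 (by ring)
        gcongr
    _ ≤ 4 * (H : ℝ) ^ 2 := by linarith

/-- **The correlations of two remainders** -/
theorem corr (H M : ℕ) (T T' : Finset ℕ) (hT : ∀ p ∈ T, p.Prime ∧ p ≠ 2) (hT' : ∀ p ∈ T', p.Prime ∧ p ≠ 2) :
    |∑ m ∈ range M, ff H (∏ p ∈ T, p) m * ff H (∏ p ∈ T', p) m| ≤
      (M : ℝ) / (((∏ p ∈ T', p) * ∏ p ∈ T \ T', p : ℕ) : ℝ) * (2 * H * 2 ^ T.card) + 4 * H ^ 2 := by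
  obtain ⟨L, hL⟩ : ∃ L : ℕ, L = (∏ p ∈ T', p) * ∏ p ∈ T \ T', p := ⟨_, rfl⟩
  have hpos : ∀ S : Finset ℕ, (∀ p ∈ S, p.Prime) → 0 < ∏ p ∈ S, p := fun S hS =>
    Nat.pos_of_ne_zero (prod_ne_zero_iff.2 fun p hp => (hS p hp).ne_zero)
  have hL0 : 0 < L := by
    rw [hL]
    exact Nat.mul_pos (hpos _ fun p hp => (hT' p hp).1) (hpos _ fun p hp => (hT p (mem_sdiff.1 hp).1).1)
  have hTL : (∏ p ∈ T, p) ∣ L := by
    have h1 : ∏ p ∈ T, p = (∏ p ∈ T ∩ T', p) * ∏ p ∈ T \ T', p := by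
      rw [← prod_union (by
        rw [disjoint_left]
        intro p hp hp'
        exact (mem_sdiff.1 hp').2 (mem_inter.1 hp).2)]
      congr 1
      ext p
      simp only [mem_union, mem_inter, mem_sdiff]
      tauto
    rw [h1, hL]
    exact Nat.mul_dvd_mul_right (prod_dvd_prod_of_subset _ _ _ inter_subset_right) _
  have hTL' : (∏ p ∈ T', p) ∣ L := by
    rw [hL]
    exact Dvd.intro _ rfl
  have h1 := sum_per L (fun m => ff H (∏ p ∈ T, p) m * ff H (∏ p ∈ T', p) m) (by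
    intro m
    simp only [ff_per_add H _ L m hTL, ff_per_add H _ L m hTL']) (M / L) (M % L)
  have h2 : M / L * L + M % L = M := by
    rw [mul_comm]
    exact Nat.div_add_mod M L
  rw [h2] at h1
  rw [h1]
  have h3 := corr_full H T T' hT hT'
  have h4 := corr_part H T T' hT hT' (M % L) (by rw [← hL]; exact (Nat.mod_lt _ hL0).le)
  rw [← hL] at h3 ⊢
  have h5 : ((M / L : ℕ) : ℝ) ≤ (M : ℝ) / L := Nat.cast_div_le
  calc |((M / L : ℕ) : ℝ) * ∑ m ∈ range L, ff H (∏ p ∈ T, p) m * ff H (∏ p ∈ T', p) m +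
        ∑ m ∈ range (M % L), ff H (∏ p ∈ T, p) m * ff H (∏ p ∈ T', p) m| ≤
        |((M / L : ℕ) : ℝ) * ∑ m ∈ range L, ff H (∏ p ∈ T, p) m * ff H (∏ p ∈ T', p) m| +
        |∑ m ∈ range (M % L), ff H (∏ p ∈ T, p) m * ff H (∏ p ∈ T', p) m| := abs_add_le _ _
    _ ≤ (M : ℝ) / L * (2 * H * 2 ^ T.card) + 4 * H ^ 2 := by
        apply add_le_add _ h4
        rw [abs_mul, abs_of_nonneg (Nat.cast_nonneg _)]
        exact mul_le_mul h5 h3 (abs_nonneg _) (by positivity)

end Pool.Agent.Zk48.AP
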