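import Pool.Agent.Zk48.AP.V2

/-!
The second moment of the remainder sum over the modulus `m`, and the number of the moduli with a large remainder sum.
-/

set_option autoImplicit false

namespace Pool.Agent.Zk48.AP

open Finset

lemma inner_le (P T : Finset ℕ) (hP : ∀ p ∈ P, p.Prime) (hT : T ⊆ P) :
    ∑ T' ∈ P.powerset, 1 / (((∏ p ∈ T', p) * ∏ p ∈ T \ T', p : ℕ) : ℝ) ≤
      1 / ((∏ p ∈ T, p : ℕ) : ℝ) * (2 ^ T.card * ∏ p ∈ P, (1 + 1 / (p : ℝ))) := by
  classical
  have hpos : ∀ S : Finset ℕ, S ⊆ P → (0 : ℝ) < ((∏ p ∈ S, p : ℕ) : ℝ) := fun S hS => by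
    exact_mod_cast Nat.pos_of_ne_zero (prod_ne_zero_iff.2 fun p hp => (hP p (hS hp)).ne_zero)
  have h1 : ∀ T' ∈ P.powerset, 1 / (((∏ p ∈ T', p) * ∏ p ∈ T \ T', p : ℕ) : ℝ) =
      1 / ((∏ p ∈ T, p : ℕ) : ℝ) * ∏ p ∈ T', (if p ∈ T then (1 : ℝ) else 1 / p) := by
    intro T' hT'
    rw [mem_powerset] at hT'
    have e1 : (∏ p ∈ T, p : ℕ) = (∏ p ∈ T ∩ T', p) * ∏ p ∈ T \ T', p := by
      rw [← prod_union (by
        rw [disjoint_left]
        intro p hp hp'
        exact (mem_sdiff.1 hp').2 (mem_inter.1 hp).2)]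
      congr 1
      ext p
      simp only [mem_union, mem_inter, mem_sdiff]
      tauto
    have e2 : (∏ p ∈ T', p : ℕ) = (∏ p ∈ T ∩ T', p) * ∏ p ∈ T' \ T, p := by
      rw [← prod_union (by
        rw [disjoint_left]
        intro p hp hp'
        exact (mem_sdiff.1 hp').2 (mem_inter.1 hp).1)]
      congr 1
      ext p
      simp only [mem_union, mem_inter, mem_sdiff]
      tauto
    have e3 : ∏ p ∈ T', (if p ∈ T then (1 : ℝ) else 1 / p) = 1 / ((∏ p ∈ T' \ T, p : ℕ) : ℝ) := by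
      rw [prod_ite, prod_const_one, one_mul]
      have : T'.filter (fun p => p ∉ T) = T' \ T := by
        ext p
        rw [mem_filter, mem_sdiff]
      rw [this]
      push_cast
      simp only [one_div]
      rw [prod_inv_distrib]
    have k1 := hpos (T ∩ T') (inter_subset_left.trans hT)
    have k2 := hpos (T \ T') (sdiff_subset.trans hT)
    have k3 := hpos (T' \ T) (sdiff_subset.trans hT')
    rw [e3, e1, e2]
    rw [Nat.cast_mul, Nat.cast_mul, Nat.cast_mul]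
    field_simp
  rw [sum_congr rfl h1, ← mul_sum, ← prod_one_add]
  apply mul_le_mul_of_nonneg_left _ (by positivity)
  have h2 : ∏ p ∈ P, (1 + if p ∈ T then (1 : ℝ) else 1 / p) ≤
      ∏ p ∈ P, ((if p ∈ T then (2 : ℝ) else 1) * (1 + 1 / (p : ℝ))) := by
    apply prod_le_prod
    · intro p _
      split_ifs <;> positivity
    · intro p _
      have : (0 : ℝ) ≤ 1 / p := by positivity
      split_ifs <;> linarith
  refine h2.trans (le_of_eq ?_)
  rw [prod_mul_distrib]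
  congr 1
  rw [prod_ite, prod_const, prod_const_one, mul_one]
  congr 2
  ext p
  rw [mem_filter]
  exact ⟨fun h => h.2, fun h => ⟨hT h, h⟩⟩

lemma outer_le (P : Finset ℕ) (hP : ∀ p ∈ P, p.Prime) :
    ∑ T ∈ P.powerset, ∑ T' ∈ P.powerset, 2 ^ T.card * (1 / (((∏ p ∈ T', p) * ∏ p ∈ T \ T', p : ℕ) : ℝ)) ≤
      (∏ p ∈ P, (1 + 1 / (p : ℝ))) ^ 5 := by
  classical
  obtain ⟨W, hW⟩ : ∃ W : ℝ, W = ∏ p ∈ P, (1 + 1 / (p : ℝ)) := ⟨_, rfl⟩
  have hW0 : 0 ≤ W := by
    rw [hW]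
    exact prod_nonneg fun p _ => by positivity
  rw [← hW]
  calc ∑ T ∈ P.powerset, ∑ T' ∈ P.powerset, 2 ^ T.card * (1 / (((∏ p ∈ T', p) * ∏ p ∈ T \ T', p : ℕ) : ℝ)) ≤
        ∑ T ∈ P.powerset, (∏ p ∈ T, (4 / (p : ℝ))) * W := by
        apply sum_le_sum
        intro T hT
        rw [mem_powerset] at hT
        rw [← mul_sum]
        calc (2 : ℝ) ^ T.card * ∑ T' ∈ P.powerset, 1 / (((∏ p ∈ T', p) * ∏ p ∈ T \ T', p : ℕ) : ℝ) ≤
              2 ^ T.card * (1 / ((∏ p ∈ T, p : ℕ) : ℝ) * (2 ^ T.card * W)) := by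
              apply mul_le_mul_of_nonneg_left _ (by positivity)
              rw [hW]
              exact inner_le P T hP hT
          _ = (∏ p ∈ T, (4 / (p : ℝ))) * W := by
              rw [prod_div_distrib, prod_const]
              push_cast
              have : (4 : ℝ) ^ T.card = 2 ^ T.card * 2 ^ T.card := by
                rw [← mul_pow]
                norm_num
              rw [this]
              ring
    _ = (∏ p ∈ P, (1 + 4 / (p : ℝ))) * W := by
        rw [← sum_mul, ← prod_one_add]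
    _ ≤ W ^ 4 * W := by
        apply mul_le_mul_of_nonneg_right _ hW0
        rw [hW, ← prod_pow]
        apply prod_le_prod
        · intro p _; positivity
        · intro p _
          have h1 := one_add_mul_le_pow (show (-2 : ℝ) ≤ 1 / (p : ℝ) by
            have : (0 : ℝ) ≤ 1 / p := by positivity
            linarith) 4
          have e : (1 : ℝ) + 4 / p = 1 + ((4 : ℕ) : ℝ) * (1 / (p : ℝ)) := by
            push_cast
            ring
          rw [e]
          exact h1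
    _ = W ^ 5 := by ring

/-- **The second moment** -/
theorem second (H M : ℕ) (P : Finset ℕ) (hP : ∀ p ∈ P, p.Prime ∧ p ≠ 2) (c : Finset ℕ → ℝ) (L D : ℝ)
    (hL : 0 ≤ L) (hD : 0 ≤ D) (hcL : ∀ T, |c T| ≤ L) (hcD : ∀ T ⊆ P, c T ≠ 0 → ((∏ p ∈ T, p : ℕ) : ℝ) ≤ D) :
    ∑ m ∈ range M, (∑ T ∈ P.powerset, c T * ff H (∏ p ∈ T, p) m) ^ 2 ≤
      L ^ 2 * (2 * H * M * (∏ p ∈ P, (1 + 1 / (p : ℝ))) ^ 5 + 4 * H ^ 2 * D ^ 2) := by
  classical
  have hP' : ∀ p ∈ P, p.Prime := fun p hp => (hP p hp).1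
  have hcard : ((P.powerset.filter (fun T => ((∏ p ∈ T, p : ℕ) : ℝ) ≤ D)).card : ℝ) ≤ D := by
    have h1 : (P.powerset.filter (fun T => ((∏ p ∈ T, p : ℕ) : ℝ) ≤ D)).card ≤ (Icc 1 ⌊D⌋₊).card := by
      apply card_le_card_of_injOn (fun T => ∏ p ∈ T, p)
      · intro T hT
        rw [mem_coe, mem_filter, mem_powerset] at hT
        rw [mem_coe, mem_Icc]
        exact ⟨Nat.one_le_iff_ne_zero.2 (prod_pos fun p hp => (hP' p (hT.1 hp)).pos).ne', Nat.le_floor hT.2⟩
      · intro T hT T' hT' h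
        rw [mem_coe, mem_filter, mem_powerset] at hT hT'
        have h2 := Nat.primeFactors_prod (fun p hp => hP' p (hT.1 hp))
        have h3 := Nat.primeFactors_prod (fun p hp => hP' p (hT'.1 hp))
        rw [← h2, ← h3]
        exact congrArg _ h
    rw [Nat.card_Icc, Nat.add_sub_cancel] at h1
    calc ((P.powerset.filter (fun T => ((∏ p ∈ T, p : ℕ) : ℝ) ≤ D)).card : ℝ) ≤ (⌊D⌋₊ : ℝ) := by exact_mod_cast h1
      _ ≤ D := Nat.floor_le hD
  obtain ⟨Q, hQ⟩ : ∃ Q : Finset (Finset ℕ), Q = P.powerset.filter (fun T => ((∏ p ∈ T, p : ℕ) : ℝ) ≤ D) := ⟨_, rfl⟩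
  rw [← hQ] at hcard
  have hQP : Q ⊆ P.powerset := by rw [hQ]; exact filter_subset _ _
  have hred : ∀ m : ℕ, ∑ T ∈ P.powerset, c T * ff H (∏ p ∈ T, p) m = ∑ T ∈ Q, c T * ff H (∏ p ∈ T, p) m := by
    intro m
    symm
    apply sum_subset hQP
    intro T hT hTQ
    have h1 : c T = 0 := by
      by_contra h0
      apply hTQ
      rw [hQ, mem_filter]
      exact ⟨hT, hcD T (mem_powerset.1 hT) h0⟩
    rw [h1, zero_mul]
  have h1 : ∑ m ∈ range M, (∑ T ∈ P.powerset, c T * ff H (∏ p ∈ T, p) m) ^ 2 =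
      ∑ T ∈ Q, ∑ T' ∈ Q, (c T * c T') * ∑ m ∈ range M, ff H (∏ p ∈ T, p) m * ff H (∏ p ∈ T', p) m := by
    calc ∑ m ∈ range M, (∑ T ∈ P.powerset, c T * ff H (∏ p ∈ T, p) m) ^ 2 =
          ∑ m ∈ range M, ∑ T ∈ Q, ∑ T' ∈ Q, (c T * c T') * (ff H (∏ p ∈ T, p) m * ff H (∏ p ∈ T', p) m) := by
          apply sum_congr rfl
          intro m _
          rw [hred, sq, sum_mul_sum]
          apply sum_congr rfl
          intro T _
          apply sum_congr rfl
          intro T' _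
          ring
      _ = _ := by
          rw [sum_comm]
          apply sum_congr rfl
          intro T _
          rw [sum_comm]
          apply sum_congr rfl
          intro T' _
          rw [mul_sum]
  rw [h1]
  have hterm : ∀ T ∈ Q, ∀ T' ∈ Q, (c T * c T') * ∑ m ∈ range M, ff H (∏ p ∈ T, p) m * ff H (∏ p ∈ T', p) m ≤
      L ^ 2 * ((2 * H * M) * (2 ^ T.card * (1 / (((∏ p ∈ T', p) * ∏ p ∈ T \ T', p : ℕ) : ℝ))) + 4 * H ^ 2) := by
    intro T hT T' hT'
    have k1 := hQP hT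
    have k2 := hQP hT'
    rw [mem_powerset] at k1 k2
    have h2 := corr H M T T' (fun p hp => hP p (k1 hp)) (fun p hp => hP p (k2 hp))
    have h3 : |c T * c T'| ≤ L ^ 2 := by
      rw [abs_mul, sq]
      exact mul_le_mul (hcL T) (hcL T') (abs_nonneg _) hL
    calc (c T * c T') * ∑ m ∈ range M, ff H (∏ p ∈ T, p) m * ff H (∏ p ∈ T', p) m ≤
          |(c T * c T') * ∑ m ∈ range M, ff H (∏ p ∈ T, p) m * ff H (∏ p ∈ T', p) m| := le_abs_self _
      _ = |c T * c T'| * |∑ m ∈ range M, ff H (∏ p ∈ T, p) m * ff H (∏ p ∈ T', p) m| := abs_mul _ _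
      _ ≤ L ^ 2 * ((M : ℝ) / (((∏ p ∈ T', p) * ∏ p ∈ T \ T', p : ℕ) : ℝ) * (2 * H * 2 ^ T.card) + 4 * H ^ 2) :=
          mul_le_mul h3 h2 (abs_nonneg _) (by positivity)
      _ = _ := by ring
  calc ∑ T ∈ Q, ∑ T' ∈ Q, (c T * c T') * ∑ m ∈ range M, ff H (∏ p ∈ T, p) m * ff H (∏ p ∈ T', p) m ≤
        ∑ T ∈ Q, ∑ T' ∈ Q, L ^ 2 * ((2 * H * M) * (2 ^ T.card * (1 / (((∏ p ∈ T', p) * ∏ p ∈ T \ T', p : ℕ) : ℝ))) + 4 * H ^ 2) :=
        sum_le_sum fun T hT => sum_le_sum fun T' hT' => hterm T hT T' hT'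
    _ = L ^ 2 * ((2 * H * M) * ∑ T ∈ Q, ∑ T' ∈ Q, (2 ^ T.card * (1 / (((∏ p ∈ T', p) * ∏ p ∈ T \ T', p : ℕ) : ℝ))) +
          4 * H ^ 2 * (Q.card : ℝ) ^ 2) := by
        simp_rw [← mul_sum, sum_add_distrib, ← mul_sum, sum_const, nsmul_eq_mul]
        ring
    _ ≤ _ := by
        apply mul_le_mul_of_nonneg_left _ (by positivity)
        apply add_le_add
        · apply mul_le_mul_of_nonneg_left _ (by positivity)
          refine le_trans ?_ (outer_le P hP')
          calc ∑ T ∈ Q, ∑ T' ∈ Q, (2 : ℝ) ^ T.card * (1 / (((∏ p ∈ T', p) * ∏ p ∈ T \ T', p : ℕ) : ℝ)) ≤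
                ∑ T ∈ Q, ∑ T' ∈ P.powerset, (2 : ℝ) ^ T.card * (1 / (((∏ p ∈ T', p) * ∏ p ∈ T \ T', p : ℕ) : ℝ)) :=
                sum_le_sum fun T _ => sum_le_sum_of_subset_of_nonneg hQP fun _ _ _ => by positivity
            _ ≤ _ := sum_le_sum_of_subset_of_nonneg hQP fun _ _ _ => sum_nonneg fun _ _ => by positivity
        · apply mul_le_mul_of_nonneg_left _ (by positivity)
          exact pow_le_pow_left₀ (Nat.cast_nonneg _) hcard 2

/-- the number of the large values -/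
theorem few_large (M : ℕ) (E : ℕ → ℝ) (B x : ℝ) (hx : 0 < x) (h : ∑ m ∈ range M, E m ^ 2 ≤ B) :
    (((range M).filter (fun m => x < |E m|)).card : ℝ) ≤ B / x ^ 2 := by
  rw [le_div_iff₀ (by positivity)]
  calc (((range M).filter (fun m => x < |E m|)).card : ℝ) * x ^ 2 =
        ∑ m ∈ (range M).filter (fun m => x < |E m|), x ^ 2 := by rw [sum_const, nsmul_eq_mul]
    _ ≤ ∑ m ∈ (range M).filter (fun m => x < |E m|), E m ^ 2 := by
        apply sum_le_sum
        intro m hm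
        rw [mem_filter] at hm
        rw [← sq_abs (E m)]
        exact pow_le_pow_left₀ hx.le hm.2.le 2
    _ ≤ ∑ m ∈ range M, E m ^ 2 := sum_le_sum_of_subset_of_nonneg (filter_subset _ _) fun _ _ _ => sq_nonneg _
    _ ≤ B := h

/-- the remainder sum of the sieve in terms of the function `ff` -/
theorem rem_eq (H : ℕ) (P : Finset ℕ) (hP : ∀ p ∈ P, p.Prime) (c : Finset ℕ → ℝ) (m : ℕ) :
    ∑ T ∈ P.powerset, c T * ((((Icc 1 H).filter (fun j : ℕ => ∏ p ∈ T, p ∣ 2 * m * j + 1)).card : ℝ) -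
        (Icc 1 H).card * ∏ p ∈ T, ((rho (2 * m) p : ℝ) / p)) =
      ∑ T ∈ (P.erase 2).powerset, c T * ff H (∏ p ∈ T, p) m := by
  classical
  have h2 : (P.erase 2).powerset ⊆ P.powerset := powerset_mono.2 (erase_subset _ _)
  rw [← sum_subset h2]
  · apply sum_congr rfl
    intro T hT
    rw [mem_powerset] at hT
    have hTp : ∀ p ∈ T, p.Prime := fun p hp => hP p (mem_of_mem_erase (hT hp))
    have hT2 : ∀ p ∈ T, p ≠ 2 := fun p hp => ne_of_mem_erase (hT hp)
    congr 1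
    unfold ff AA
    congr 1
    rw [Nat.card_Icc, Nat.add_sub_cancel]
    have hdvd : ∀ p ∈ T, (p ∣ 2 * m ↔ p ∣ m) := by
      intro p hp
      constructor
      · intro h
        rcases (Nat.Prime.dvd_mul (hTp p hp)).1 h with h3 | h3
        · exact absurd ((Nat.prime_dvd_prime_iff_eq (hTp p hp) Nat.prime_two).1 h3) (hT2 p hp)
        · exact h3
      · exact fun h => h.mul_left 2
    split_ifs with hc
    · have h3 := (cop_prod T hTp m).1 hc
      have h4 : ∏ p ∈ T, ((rho (2 * m) p : ℝ) / p) = 1 / ((∏ p ∈ T, p : ℕ) : ℝ) := by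
        push_cast
        rw [one_div, ← prod_inv_distrib]
        apply prod_congr rfl
        intro p hp
        unfold rho
        rw [if_neg (fun h => h3 p hp ((hdvd p hp).1 h))]
        simp
      rw [h4, mul_one_div]
    · have h3 : ∃ p ∈ T, p ∣ m := by
        by_contra h4
        push Not at h4
        exact hc ((cop_prod T hTp m).2 h4)
      obtain ⟨p, hp, hpm⟩ := h3
      have h4 : ∏ p ∈ T, ((rho (2 * m) p : ℝ) / p) = 0 := by
        apply prod_eq_zero hp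
        unfold rho
        rw [if_pos ((hdvd p hp).2 hpm)]
        simp
      rw [h4, mul_zero]
  · intro T hT hT2
    rw [mem_powerset] at hT hT2
    have h3 : 2 ∈ T := by
      by_contra h
      apply hT2
      intro p hp
      rw [mem_erase]
      exact ⟨fun h4 => h (h4 ▸ hp), hT hp⟩
    have h4 : ∏ p ∈ T, ((rho (2 * m) p : ℝ) / p) = 0 := by
      apply prod_eq_zero h3
      unfold rho
      rw [if_pos (Dvd.intro _ rfl)]
      simp
    have h5 : (Icc 1 H).filter (fun j : ℕ => ∏ p ∈ T, p ∣ 2 * m * j + 1) = ∅ := by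
      rw [filter_eq_empty_iff]
      intro j _ hj
      have h6 : 2 ∣ 2 * m * j + 1 := (dvd_prod_of_mem _ h3).trans hj
      have h7 : 2 ∣ 2 * m * j := ⟨m * j, by ring⟩
      have h8 := (Nat.dvd_add_right h7).1 h6
      norm_num at h8
    rw [h4, h5]
    simp

end Pool.Agent.Zk48.AP
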