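import Pool.Agent.Zk48.AP.V3
import Pool.Agent.Zk48.AP.SI

/-!
Richert's theorem for the numbers `2 k p + 1`, `k ≤ H`, with `H` a small power of `p`, for almost all primes `p`.
-/

set_option autoImplicit false

namespace Pool.Agent.Zk48.AP

open Finset Filter Topology
open Pool.Agent.Y677.RSZ (ev_log)
open Pool.Agent.W23.DC
open Pool.Agent.Y882
open Pool.Agent.Y882.KW
open Pool.Agent.K3h19.RV (Lam)

/-- the product of the factors `1 + 1 / p` -/
lemma W_le : ∃ C : ℝ, 0 < C ∧ ∃ N₀ : ℕ, ∀ X : ℕ, N₀ ≤ X → ∀ P : Finset ℕ, P ⊆ (Icc 1 X).filter Nat.Prime →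
    ∏ p ∈ P, (1 + 1 / (p : ℝ)) ≤ C * Real.log X := by
  obtain ⟨c, C, hc, hC, N₀, h⟩ := mert
  refine ⟨1 / c, by positivity, N₀ + 3, fun X hX P hP => ?_⟩
  have h1 := (h X (by omega)).1
  have hX3 : (3 : ℝ) ≤ X := by exact_mod_cast (by omega : 3 ≤ X)
  have hlX : 0 < Real.log X := Real.log_pos (by linarith)
  have h2 : ∏ p ∈ P, (1 + 1 / (p : ℝ)) ≤ ∏ p ∈ (Icc 1 X).filter Nat.Prime, (1 + 1 / (p : ℝ)) := by
    rw [← prod_sdiff hP]
    apply le_mul_of_one_le_left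
    · exact prod_nonneg fun p _ => by positivity
    · have h3 : ∀ p ∈ (Icc 1 X).filter Nat.Prime \ P, (1 : ℝ) ≤ 1 + 1 / (p : ℝ) := fun p _ => by
        have : (0 : ℝ) ≤ 1 / p := by positivity
        linarith
      calc (1 : ℝ) = ∏ p ∈ (Icc 1 X).filter Nat.Prime \ P, (1 : ℝ) := by rw [prod_const_one]
        _ ≤ _ := prod_le_prod (fun _ _ => zero_le_one) h3
  refine h2.trans ?_
  have h4 : (∏ p ∈ (Icc 1 X).filter Nat.Prime, (1 + 1 / (p : ℝ))) *
      (∏ p ∈ (Icc 1 X).filter Nat.Prime, (1 - 1 / (p : ℝ))) ≤ 1 := by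
    rw [← prod_mul_distrib]
    apply prod_le_one
    · intro p hp
      have hp2 : (2 : ℝ) ≤ p := by exact_mod_cast (mem_filter.1 hp).2.two_le
      have : 1 / (p : ℝ) ≤ 1 / 2 := one_div_le_one_div_of_le (by norm_num) hp2
      have h0 : (0 : ℝ) ≤ 1 / p := by positivity
      apply mul_nonneg <;> linarith
    · intro p _
      have h0 : (0 : ℝ) ≤ 1 / p := by positivity
      nlinarith
  have h5 : 0 ≤ ∏ p ∈ (Icc 1 X).filter Nat.Prime, (1 + 1 / (p : ℝ)) := prod_nonneg fun p _ => by positivity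
  have h6 : (∏ p ∈ (Icc 1 X).filter Nat.Prime, (1 + 1 / (p : ℝ))) * (c / Real.log X) ≤ 1 :=
    (mul_le_mul_of_nonneg_left h1 h5).trans h4
  rw [mul_div_assoc', div_le_one hlX] at h6
  rw [one_div, inv_mul_eq_div, le_div_iff₀ hc]
  exact h6

open Classical in
/-- the number of the pairs with the square of a medium prime -/
lemma sq_pairs (X H : ℕ) (hX : 2 ≤ X) (ζ υ : ℝ) (h2 : (2 : ℝ) ≤ (X : ℝ) ^ ζ) (T : ℝ) (hT : 0 < T) (hH : 0 < H) :
    (((Icc 1 X).filter (fun m => (H : ℝ) / T < (((Icc 1 H).filter (fun j => Bd m X ζ υ j)).card : ℝ))).card : ℝ) ≤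
      T * (X * (2 / (X : ℝ) ^ ζ) + (X : ℝ) ^ υ) := by
  have hH0 : (0 : ℝ) < H := by exact_mod_cast hH
  have hq : ∀ q ∈ pr X ζ υ, ∀ j : ℕ, ((((Icc 1 X).filter (fun m : ℕ => q ^ 2 ∣ 2 * j * m + 1)).card : ℕ) : ℝ) ≤
      X * (1 / (q : ℝ) ^ 2) + 1 := by
    intro q hq j
    obtain ⟨h3, h4, h5, h6⟩ := pr_facts hX hq
    by_cases hqp : q ∣ 2 * j
    · have h7 : (Icc 1 X).filter (fun m : ℕ => q ^ 2 ∣ 2 * j * m + 1) = ∅ := by
        rw [filter_eq_empty_iff]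
        intro m _ hm
        have h8 : q ∣ 2 * j * m + 1 := (dvd_pow_self q two_ne_zero).trans hm
        have h9 : q ∣ 1 := (Nat.dvd_add_right (hqp.mul_right _)).1 h8
        exact h3.one_lt.ne' (Nat.dvd_one.1 h9)
      rw [h7]
      simp only [card_empty, Nat.cast_zero]
      positivity
    · have h7 := cnt (q ^ 2) (2 * j) 1 0 X (pow_pos h3.pos 2)
        (Nat.Coprime.pow_right 2 (((Nat.Prime.coprime_iff_not_dvd h3).2 hqp).symm))
      simp_rw [zero_add] at h7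
      have h8 := (abs_le.1 h7).2
      push_cast at h8 ⊢
      rw [mul_one_div]
      linarith
  have hsum : ∑ m ∈ Icc 1 X, (((Icc 1 H).filter (fun j => Bd m X ζ υ j)).card : ℝ) ≤
      H * (X * (2 / (X : ℝ) ^ ζ) + (X : ℝ) ^ υ) := by
    have e1 : ∀ m ∈ Icc 1 X, (((Icc 1 H).filter (fun j => Bd m X ζ υ j)).card : ℝ) ≤
        ∑ j ∈ Icc 1 H, ∑ q ∈ pr X ζ υ, (if q ^ 2 ∣ 2 * j * m + 1 then (1 : ℝ) else 0) := by
      intro m _
      rw [card_filter]
      push_cast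
      apply sum_le_sum
      intro j _
      split_ifs with hb
      · obtain ⟨q, hq1, hq2⟩ := hb
        calc (1 : ℝ) = if q ^ 2 ∣ 2 * j * m + 1 then (1 : ℝ) else 0 := by rw [if_pos hq2]
          _ ≤ _ := single_le_sum (f := fun q => if q ^ 2 ∣ 2 * j * m + 1 then (1 : ℝ) else 0)
              (fun i _ => by split_ifs <;> norm_num) hq1
      · exact sum_nonneg fun i _ => by split_ifs <;> norm_num
    calc ∑ m ∈ Icc 1 X, (((Icc 1 H).filter (fun j => Bd m X ζ υ j)).card : ℝ) ≤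
          ∑ m ∈ Icc 1 X, ∑ j ∈ Icc 1 H, ∑ q ∈ pr X ζ υ, (if q ^ 2 ∣ 2 * j * m + 1 then (1 : ℝ) else 0) := sum_le_sum e1
      _ = ∑ j ∈ Icc 1 H, ∑ q ∈ pr X ζ υ, ((((Icc 1 X).filter (fun m : ℕ => q ^ 2 ∣ 2 * j * m + 1)).card : ℕ) : ℝ) := by
          rw [sum_comm]
          apply sum_congr rfl
          intro j _
          rw [sum_comm]
          apply sum_congr rfl
          intro q _
          rw [card_filter]
          push_cast
          rfl
      _ ≤ ∑ j ∈ Icc 1 H, ∑ q ∈ pr X ζ υ, ((X : ℝ) * (1 / (q : ℝ) ^ 2) + 1) :=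
          sum_le_sum fun j _ => sum_le_sum fun q hq' => hq q hq' j
      _ = H * ((X : ℝ) * ∑ q ∈ pr X ζ υ, 1 / (q : ℝ) ^ 2 + ((pr X ζ υ).card : ℝ)) := by
          rw [sum_const, Nat.card_Icc, Nat.add_sub_cancel, nsmul_eq_mul, sum_add_distrib, ← mul_sum, sum_const,
            nsmul_eq_mul, mul_one]
      _ ≤ _ := by
          have h5 := pr_sq (Y := X) hX ζ υ h2
          have h6 : ((pr X ζ υ).card : ℝ) ≤ (X : ℝ) ^ υ := by
            have h7 : pr X ζ υ ⊆ Icc 1 ⌊(X : ℝ) ^ υ⌋₊ := by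
              intro q hq
              obtain ⟨g3, g4, g5, g6⟩ := pr_facts hX hq
              rw [mem_Icc]
              exact ⟨g3.one_le, Nat.le_floor g6.le⟩
            calc ((pr X ζ υ).card : ℝ) ≤ ((Icc 1 ⌊(X : ℝ) ^ υ⌋₊).card : ℝ) := by exact_mod_cast Finset.card_le_card h7
              _ = (⌊(X : ℝ) ^ υ⌋₊ : ℝ) := by rw [Nat.card_Icc, Nat.add_sub_cancel]
              _ ≤ _ := Nat.floor_le (by positivity)
          gcongr
  set A := (Icc 1 X).filter (fun m => (H : ℝ) / T < (((Icc 1 H).filter (fun j => Bd m X ζ υ j)).card : ℝ)) with hA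
  have h1 : (A.card : ℝ) * (H / T) ≤ H * (X * (2 / (X : ℝ) ^ ζ) + (X : ℝ) ^ υ) := by
    refine le_trans ?_ hsum
    calc (A.card : ℝ) * (H / T) = ∑ m ∈ A, (H / T : ℝ) := by rw [sum_const, nsmul_eq_mul]
      _ ≤ ∑ m ∈ A, (((Icc 1 H).filter (fun j => Bd m X ζ υ j)).card : ℝ) := by
          apply sum_le_sum
          intro m hm
          rw [hA, mem_filter] at hm
          exact hm.2.le
      _ ≤ _ := sum_le_sum_of_subset_of_nonneg (filter_subset _ _) (fun _ _ _ => Nat.cast_nonneg _)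
  rw [mul_div_assoc', div_le_iff₀ hT] at h1
  have h4 : (A.card : ℝ) * H ≤ (T * (X * (2 / (X : ℝ) ^ ζ) + (X : ℝ) ^ υ)) * H := by
    calc (A.card : ℝ) * H ≤ H * (X * (2 / (X : ℝ) ^ ζ) + (X : ℝ) ^ υ) * T := h1
      _ = _ := by ring
  exact le_of_mul_le_mul_right h4 hH0

end Pool.Agent.Zk48.AP
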