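import Pool.Agent.Zk48.AP.V4

/-!
Richert's theorem for the numbers `2 k p + 1`, `k ≤ H`, with `H` a small power of `p`, for almost all primes `p`.
-/

set_option autoImplicit false

namespace Pool.Agent.Zk48.AP

open Finset Filter Topology
open Pool.Agent.Y677.RSZ (ev_log)
open Pool.Agent.W23.DC
open Pool.Agent.Y882
open Pool.Agent.Y882.KW
open Pool.Agent.K3h19.RV (Lam)

/-- the moduli with a large remainder sum -/
theorem few_mod (t τ' ε : ℝ) (hε : 0 < ε) (υ : ℝ) (hυ : υ ≤ 1) : ∃ X₀ : ℕ, ∀ X H : ℕ, X₀ ≤ X → 0 < H → τ' ≤ t + ε / 16 →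
    ∀ c : Finset ℕ → ℝ, (∀ T, |c T| ≤ 5 * Real.log X) →
      (∀ T ⊆ PZ X υ, c T ≠ 0 → ((∏ p ∈ T, p : ℕ) : ℝ) ≤ (X : ℝ) ^ τ') →
      (((range (X + 1)).filter (fun m => (H : ℝ) * (X : ℝ) ^ (-(ε / 16)) <
        |∑ T ∈ (PZ X υ).powerset, c T * ((((Icc 1 H).filter (fun j : ℕ => ∏ p ∈ T, p ∣ 2 * m * j + 1)).card : ℝ) -
          (Icc 1 H).card * ∏ p ∈ T, ((rho (2 * m) p : ℝ) / p))|)).card : ℝ) ≤
      (X : ℝ) ^ (1 + ε / 2) / H + (X : ℝ) ^ (2 * t + ε / 2) := by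
  obtain ⟨C, hC, N₀, hW⟩ := W_le
  have v1 := ev_log 7 (100 * C ^ 5) (ε / 16) (by linarith)
  have v2 := ev_log 2 100 (ε / 16) (by linarith)
  obtain ⟨N₁, hN₁⟩ := eventually_atTop.1 (v1.and (v2.and (eventually_ge_atTop (N₀ + 3))))
  refine ⟨N₁, fun X H hX hH hτ c hcL hcD => ?_⟩
  obtain ⟨w1, w2, w3⟩ := hN₁ X hX
  have hX3 : (3 : ℝ) ≤ X := by exact_mod_cast (by omega : 3 ≤ X)
  have hX0 : (0 : ℝ) < X := by linarith
  have hX1 : (1 : ℝ) ≤ X := by linarith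
  have hlX : 0 < Real.log X := Real.log_pos (by linarith)
  have hH0 : (0 : ℝ) < H := by exact_mod_cast hH
  have hPZ : ∀ ℓ ∈ PZ X υ, ℓ.Prime := by
    intro ℓ hℓ
    unfold PZ at hℓ
    rw [mem_filter] at hℓ
    exact hℓ.2.1
  have hPZX : (PZ X υ).erase 2 ⊆ (Icc 1 X).filter Nat.Prime := by
    intro ℓ hℓ
    have h1 := mem_of_mem_erase hℓ
    unfold PZ at h1
    rw [mem_filter] at h1
    rw [mem_filter]
    exact ⟨h1.1, h1.2.1⟩
  obtain ⟨P, hP⟩ : ∃ P : Finset ℕ, P = (PZ X υ).erase 2 := ⟨_, rfl⟩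
  obtain ⟨W, hWd⟩ : ∃ W : ℝ, W = ∏ p ∈ P, (1 + 1 / (p : ℝ)) := ⟨_, rfl⟩
  have hWl : W ≤ C * Real.log X := by
    rw [hWd, hP]
    exact hW X (by omega) _ hPZX
  have hW0 : 0 ≤ W := by
    rw [hWd]
    exact prod_nonneg fun p _ => by positivity
  have hs := second H (X + 1) P (by
      intro p hp
      rw [hP] at hp
      exact ⟨hPZ p (mem_of_mem_erase hp), ne_of_mem_erase hp⟩) c (5 * Real.log X) ((X : ℝ) ^ τ') (by positivity)
      (by positivity) hcL (fun T hT h0 => hcD T (by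
        rw [hP] at hT
        exact hT.trans (erase_subset _ _)) h0)
  rw [← hWd] at hs
  obtain ⟨y, hy⟩ : ∃ y : ℝ, y = (X : ℝ) ^ (ε / 16) := ⟨_, rfl⟩
  have hy0 : 0 < y := by rw [hy]; positivity
  have hx : (H : ℝ) * (X : ℝ) ^ (-(ε / 16)) = H / y := by
    rw [Real.rpow_neg hX0.le, hy]
    rfl
  have hf := few_large (X + 1) (fun m => ∑ T ∈ P.powerset, c T * ff H (∏ p ∈ T, p) m) _ (H / y) (by positivity) hs
  have hset : (range (X + 1)).filter (fun m => (H : ℝ) * (X : ℝ) ^ (-(ε / 16)) <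
        |∑ T ∈ (PZ X υ).powerset, c T * ((((Icc 1 H).filter (fun j : ℕ => ∏ p ∈ T, p ∣ 2 * m * j + 1)).card : ℝ) -
          (Icc 1 H).card * ∏ p ∈ T, ((rho (2 * m) p : ℝ) / p))|) =
      (range (X + 1)).filter (fun m => H / y < |∑ T ∈ P.powerset, c T * ff H (∏ p ∈ T, p) m|) := by
    apply filter_congr
    intro m _
    rw [rem_eq H (PZ X υ) hPZ c m, hx, hP]
  rw [hset]
  refine hf.trans ?_
  have hW5 : W ^ 5 ≤ C ^ 5 * Real.log X ^ 5 := by
    rw [← mul_pow]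
    exact pow_le_pow_left₀ hW0 hWl 5
  have hXX : ((X + 1 : ℕ) : ℝ) ≤ 2 * X := by
    push_cast
    linarith
  have b1 : (5 * Real.log X) ^ 2 * (2 * H * ((X + 1 : ℕ) : ℝ) * W ^ 5) ≤ H * X * y := by
    calc (5 * Real.log X) ^ 2 * (2 * H * ((X + 1 : ℕ) : ℝ) * W ^ 5) ≤
          (5 * Real.log X) ^ 2 * (2 * H * (2 * X) * (C ^ 5 * Real.log X ^ 5)) := by gcongr
      _ = H * X * (100 * C ^ 5 * Real.log X ^ 7) := by ring
      _ ≤ H * X * y := by
          rw [hy]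
          exact mul_le_mul_of_nonneg_left w1 (by positivity)
  have b2 : (5 * Real.log X) ^ 2 * (4 * (H : ℝ) ^ 2 * ((X : ℝ) ^ τ') ^ 2) ≤ (H : ℝ) ^ 2 * ((X : ℝ) ^ τ') ^ 2 * y := by
    calc (5 * Real.log X) ^ 2 * (4 * (H : ℝ) ^ 2 * ((X : ℝ) ^ τ') ^ 2) =
          (H : ℝ) ^ 2 * ((X : ℝ) ^ τ') ^ 2 * (100 * Real.log X ^ 2) := by ring
      _ ≤ _ := by
          rw [hy]
          exact mul_le_mul_of_nonneg_left w2 (by positivity)
  have hyk : ∀ k : ℕ, y ^ k = (X : ℝ) ^ ((k : ℝ) * (ε / 16)) := by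
    intro k
    rw [hy, ← Real.rpow_natCast, ← Real.rpow_mul hX0.le]
    congr 1
    ring
  have b3 : (X : ℝ) * y ^ 3 ≤ (X : ℝ) ^ (1 + ε / 2) := by
    rw [hyk]
    calc (X : ℝ) * (X : ℝ) ^ (((3 : ℕ) : ℝ) * (ε / 16)) = (X : ℝ) ^ (1 + ((3 : ℕ) : ℝ) * (ε / 16)) := by
          rw [Real.rpow_add hX0, Real.rpow_one]
      _ ≤ _ := by
          apply Real.rpow_le_rpow_of_exponent_le hX1
          push_cast
          linarith
  have b4 : ((X : ℝ) ^ τ') ^ 2 * y ^ 3 ≤ (X : ℝ) ^ (2 * t + ε / 2) := by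
    rw [hyk, ← Real.rpow_natCast, ← Real.rpow_mul hX0.le, ← Real.rpow_add hX0]
    apply Real.rpow_le_rpow_of_exponent_le hX1
    push_cast
    linarith
  calc (5 * Real.log X) ^ 2 * (2 * H * ((X + 1 : ℕ) : ℝ) * W ^ 5 + 4 * (H : ℝ) ^ 2 * ((X : ℝ) ^ τ') ^ 2) / (H / y) ^ 2 ≤
        (H * X * y + (H : ℝ) ^ 2 * ((X : ℝ) ^ τ') ^ 2 * y) / (H / y) ^ 2 := by
        apply div_le_div_of_nonneg_right _ (by positivity)
        rw [mul_add]
        exact add_le_add b1 b2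
    _ = X * y ^ 3 / H + ((X : ℝ) ^ τ') ^ 2 * y ^ 3 := by
        field_simp
    _ ≤ _ := by
        apply add_le_add _ b4
        exact div_le_div_of_nonneg_right b3 hH0.le

open Classical in
set_option maxHeartbeats 1600000 in
/-- **Almost all primes `p`** -/
theorem low_AP (r : ℕ) (hr : 1 ≤ r) (κ t ε : ℝ) (hκ : 0 < κ) (ht0 : 0 < t) (ht : t < 1 / 2)
    (h : 1 + κ < t * Lam r) (hε : 0 < ε) :
    ∃ c : ℝ, 0 < c ∧ ∃ N₀ : ℕ, ∀ X H : ℕ, N₀ ≤ X → (X : ℝ) ^ ε ≤ H → (H : ℝ) ≤ (X : ℝ) ^ κ →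
      ((((Icc 1 X).filter Nat.Prime).filter (fun p => ((RR r ((X : ℝ) ^ (t / 4)) p 0 H).card : ℝ) <
        c * (H / Real.log X))).card : ℝ) ≤
        (X : ℝ) ^ (1 + ε) / H + (X : ℝ) ^ (2 * t + ε) + (X : ℝ) ^ (1 - t / 4 + ε) := by
  have hL1 := Lam_pos r hr
  have hL0 : 0 < Lam r := by linarith
  obtain ⟨g, hgd⟩ : ∃ g : ℝ, g = 1 + κ := ⟨_, rfl⟩
  have hg0 : 0 < g := by rw [hgd]; linarith
  have hgL : g < t * Lam r := by rw [hgd]; exact h
  obtain ⟨υ, lam, S, hτυ, hυτ, hlam, hgS, hrS, hint⟩ := Pool.Agent.Zk41.P4.richertD r hr g t hg0 ht0 hgL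
  have hυ0 : 0 < υ := by linarith
  obtain ⟨δ, ε₁, η, hδ, hε₁, hε₁ζ, hε₁β, hη, Y0, HC⟩ :=
    core4 1 t (t / 4) υ lam (lam / υ) (t + ε / 16) 1 (ε / 16) (by linarith) (by linarith) (by linarith) (by linarith) hτυ
      hυτ hlam.le (by positivity) (by rw [div_mul_cancel₀ _ hυ0.ne']) hint (by linarith) one_pos (by linarith)
  obtain ⟨Y1, HM⟩ := mer ε₁ υ η 2 hε₁ (by linarith) hη (by norm_num)
  obtain ⟨c₁, C₁, hc₁, hC₁, Y2, HV⟩ := mert_two
  obtain ⟨Y3, HF⟩ := few_mod t (t + ε / 16) ε hε υ (by linarith)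
  have hcast : Tendsto (fun N : ℕ => (N : ℝ)) atTop atTop := tendsto_natCast_atTop_atTop
  have v2 : ∀ᶠ N : ℕ in atTop, (3 : ℝ) ≤ (N : ℝ) ^ (S - g) :=
    ((tendsto_rpow_atTop (by linarith)).comp hcast).eventually_ge_atTop _
  have v3 : ∀ᶠ N : ℕ in atTop, (2 : ℝ) ≤ (N : ℝ) ^ (t / 4) :=
    ((tendsto_rpow_atTop (by linarith)).comp hcast).eventually_ge_atTop _
  have v4 := ev_log 1 (4 / (δ * c₁)) (ε / 2) (by linarith)
  have v5 : ∀ᶠ N : ℕ in atTop, (4 : ℝ) ≤ (N : ℝ) ^ (ε / 2) :=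
    ((tendsto_rpow_atTop (by linarith)).comp hcast).eventually_ge_atTop _
  have v6 := ev_log 1 (8 / (δ * c₁)) ε hε
  have v7 := ev_log 1 (8 / (δ * c₁)) (1 / 2) (by norm_num)
  obtain ⟨N₁, hN₁⟩ := eventually_atTop.1
    (v2.and (v3.and (v4.and (v5.and (v6.and (v7.and (eventually_ge_atTop (Y0 + Y1 + Y2 + Y3 + 3))))))))
  refine ⟨δ * c₁ / 4, by positivity, N₁, fun X H hX0 hXε hHX => ?_⟩
  obtain ⟨w2, w3, w4, w5, w6, w7, w8⟩ := hN₁ X hX0
  rw [pow_one] at w4 w6 w7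
  have hX3 : (3 : ℝ) ≤ X := by exact_mod_cast (by omega : 3 ≤ X)
  have hX0' : (0 : ℝ) < X := by linarith
  have hX1 : (1 : ℝ) ≤ X := by linarith
  have hlX : 0 < Real.log X := Real.log_pos (by linarith)
  have hXε0 : 0 < (X : ℝ) ^ ε := by positivity
  have hH0' : (0 : ℝ) < H := by linarith
  have hH1 : 0 < H := by exact_mod_cast hH0'
  have hdc : 0 < δ * c₁ := by positivity
  obtain ⟨c, hcL, hcD, hcM⟩ := HC X (by omega)
  have hA := HF X H (by omega) hH1 le_rfl c hcL hcD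
  obtain ⟨A1, hA1⟩ : ∃ A1 : Finset ℕ, A1 = (range (X + 1)).filter (fun m => (H : ℝ) * (X : ℝ) ^ (-(ε / 16)) <
        |∑ T ∈ (PZ X υ).powerset, c T * ((((Icc 1 H).filter (fun j : ℕ => ∏ p ∈ T, p ∣ 2 * m * j + 1)).card : ℝ) -
          (Icc 1 H).card * ∏ p ∈ T, ((rho (2 * m) p : ℝ) / p))|) := ⟨_, rfl⟩
  rw [← hA1] at hA
  obtain ⟨T, hT⟩ : ∃ T : ℝ, T = (X : ℝ) ^ (ε / 2) := ⟨_, rfl⟩
  have hT0 : 0 < T := by rw [hT]; positivity
  have hB := sq_pairs X H (by omega) (t / 4) υ w3 T hT0 hH1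
  obtain ⟨A2, hA2⟩ : ∃ A2 : Finset ℕ, A2 = (Icc 1 X).filter (fun m => (H : ℝ) / T <
      (((Icc 1 H).filter (fun j => Bd m X (t / 4) υ j)).card : ℝ)) := ⟨_, rfl⟩
  rw [← hA2] at hB
  obtain ⟨A3, hA3⟩ : ∃ A3 : Finset ℕ, A3 = Icc 1 ⌊(X : ℝ) ^ (1 / 2 : ℝ)⌋₊ := ⟨_, rfl⟩
  have hA3c : (A3.card : ℝ) ≤ (X : ℝ) ^ (1 / 2 : ℝ) := by
    rw [hA3, Nat.card_Icc, Nat.add_sub_cancel]
    exact Nat.floor_le (by positivity)
  have hsub : ((Icc 1 X).filter Nat.Prime).filter (fun p => ((RR r ((X : ℝ) ^ (t / 4)) p 0 H).card : ℝ) <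
      δ * c₁ / 4 * (H / Real.log X)) ⊆ A1 ∪ (A2 ∪ A3) := by
    intro p hp
    rw [mem_filter, mem_filter, mem_Icc] at hp
    obtain ⟨⟨⟨hp1, hp2⟩, hpp⟩, hp3⟩ := hp
    rw [mem_union, mem_union]
    by_contra hcon
    push Not at hcon
    obtain ⟨hc1, hc2, hc3⟩ := hcon
    have hp0' : (0 : ℝ) < p := by exact_mod_cast hpp.pos
    have hpX : (p : ℝ) ≤ X := by exact_mod_cast hp2
    have hpbig : (X : ℝ) ^ (1 / 2 : ℝ) < p := by
      by_contra h'
      push Not at h'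
      apply hc3
      rw [hA3, mem_Icc]
      exact ⟨hp1, Nat.le_floor h'⟩
    have hrem : |∑ T ∈ (PZ X υ).powerset, c T * ((((Icc 1 H).filter (fun j : ℕ => ∏ ℓ ∈ T, ℓ ∣ 2 * p * j + 1)).card : ℝ) -
          (Icc 1 H).card * ∏ ℓ ∈ T, ((rho (2 * p) ℓ : ℝ) / ℓ))| ≤ (Icc 1 H).card * (X : ℝ) ^ (-(ε / 16)) := by
      by_contra h'
      push Not at h'
      apply hc1
      rw [hA1, mem_filter, mem_range]
      refine ⟨by omega, ?_⟩
      rw [Nat.card_Icc, Nat.add_sub_cancel] at h'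
      rw [Nat.card_Icc, Nat.add_sub_cancel]
      exact h'
    have g2 : (((Icc 1 H).filter (fun j => Bd p X (t / 4) υ j)).card : ℝ) ≤ (H : ℝ) / T := by
      by_contra h'
      exact hc2 (by rw [hA2, mem_filter, mem_Icc]; exact ⟨⟨hp1, hp2⟩, not_le.1 h'⟩)
    have hq : (((2 * p : ℕ)) : ℝ) ≤ (X : ℝ) ^ (2 : ℝ) := by
      push_cast
      rw [Real.rpow_two]
      nlinarith
    have hmain := hcM (Icc 1 H) (fun j => 2 * p * j + 1) (rho (2 * p)) X (by rw [Real.rpow_one])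
      (fun ℓ _ => by unfold rho; split_ifs <;> omega)
      (fun ℓ hℓ => by have := hℓ.two_le; unfold rho; split_ifs <;> omega)
      (HM X (by omega) (2 * p) (by have := hpp.pos; omega) hq) hrem
    rw [Nat.card_Icc, Nat.add_sub_cancel] at hmain
    have hV := (HV X (by omega) p hpp).1
    have hmain2 : δ * c₁ * (H / Real.log X) ≤
        (((Icc 1 H).filter (fun j => 0 < WW X (t / 4) υ lam (lam / υ) (2 * p * j + 1))).card : ℝ) := by
      refine le_trans ?_ hmain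
      calc δ * c₁ * (H / Real.log X) = δ * H * (c₁ / Real.log X) := by ring
        _ ≤ _ := mul_le_mul_of_nonneg_left hV (by positivity)
    -- the multiples of `p`
    obtain ⟨D, hD⟩ : ∃ D : Finset ℕ, D = (Icc 1 H).filter (fun j : ℕ => p ∣ 1 * (0 + j) + 0) := ⟨_, rfl⟩
    have hDc : (D.card : ℝ) ≤ δ * c₁ / 4 * (H / Real.log X) := by
      have h1 := cnt p 1 0 0 H hpp.pos (Nat.coprime_one_left p)
      rw [← hD] at h1
      have h2 := (abs_le.1 h1).2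
      have g1 : (H : ℝ) / p ≤ δ * c₁ / 8 * (H / Real.log X) := by
        have g2 : 8 * Real.log X ≤ p * (δ * c₁) := by
          rw [div_mul_eq_mul_div, div_le_iff₀ hdc] at w7
          exact w7.trans (mul_le_mul_of_nonneg_right hpbig.le hdc.le)
        rw [show δ * c₁ / 8 * (H / Real.log X) = (δ * c₁ * H / 8) / Real.log X by ring, div_le_div_iff₀ hp0' hlX]
        linarith [mul_le_mul_of_nonneg_right g2 hH0'.le]
      have g3 : 1 ≤ δ * c₁ / 8 * (H / Real.log X) := by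
        have g4 : 8 * Real.log X ≤ H * (δ * c₁) := by
          rw [div_mul_eq_mul_div, div_le_iff₀ hdc] at w6
          exact w6.trans (mul_le_mul_of_nonneg_right hXε hdc.le)
        rw [show δ * c₁ / 8 * (H / Real.log X) = (δ * c₁ * H / 8) / Real.log X by ring, le_div_iff₀ hlX]
        linarith
      linarith
    have g3 : ((Icc 1 H).filter (fun j => 0 < WW X (t / 4) υ lam (lam / υ) (2 * p * j + 1))).card ≤
        (RR r ((X : ℝ) ^ (t / 4)) p 0 H).card +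
          (((Icc 1 H).filter (fun j => Bd p X (t / 4) υ j)).card + D.card) := by
      have g4 : (Icc 1 H).filter (fun j => 0 < WW X (t / 4) υ lam (lam / υ) (2 * p * j + 1)) ⊆
          RR r ((X : ℝ) ^ (t / 4)) p 0 H ∪ ((Icc 1 H).filter (fun j => Bd p X (t / 4) υ j) ∪ D) := by
        intro j hj
        rw [mem_filter] at hj
        obtain ⟨hj1, hj2⟩ := hj
        rw [mem_union, mem_union, mem_filter]
        by_cases hb : Bd p X (t / 4) υ j
        · exact Or.inr (Or.inl ⟨hj1, hb⟩)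
        · by_cases hpj : p ∣ j
          · refine Or.inr (Or.inr ?_)
            rw [hD, mem_filter, one_mul, add_zero, zero_add]
            exact ⟨hj1, hpj⟩
          · left
            have hjI := mem_Icc.1 hj1
            unfold RR
            rw [mem_filter, mem_Ioc]
            refine ⟨⟨by omega, by omega⟩, hpj, ?_⟩
            have hsize : ((2 * j * p + 1 : ℕ) : ℝ) ≤ (X : ℝ) ^ S := by
              have h1 : (j : ℝ) ≤ (X : ℝ) ^ κ := by
                refine le_trans ?_ hHX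
                exact_mod_cast hjI.2
              have h2 : (1 : ℝ) ≤ X * (X : ℝ) ^ κ := by
                have h3 : (1 : ℝ) ≤ (X : ℝ) ^ κ := Real.one_le_rpow hX1 hκ.le
                exact one_le_mul_of_one_le_of_one_le hX1 h3
              have hXκ : (0 : ℝ) ≤ (X : ℝ) ^ κ := by positivity
              push_cast
              calc 2 * (j : ℝ) * p + 1 ≤ 2 * (X : ℝ) ^ κ * X + X * (X : ℝ) ^ κ := by
                    have h5 : (j : ℝ) * p ≤ (X : ℝ) ^ κ * X := mul_le_mul h1 hpX hp0'.le hXκ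
                    linarith
                _ = 3 * (X : ℝ) ^ g := by
                    rw [hgd, Real.rpow_add hX0', Real.rpow_one]
                    ring
                _ ≤ (X : ℝ) ^ (S - g) * (X : ℝ) ^ g := mul_le_mul_of_nonneg_right w2 (by positivity)
                _ = (X : ℝ) ^ S := by
                    rw [← Real.rpow_add hX0']
                    congr 1
                    ring
            rw [show 2 * p * j + 1 = 2 * j * p + 1 by ring] at hj2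
            exact almost X (by omega) (t / 4) υ lam S r hτυ hυ0 (by linarith) hlam hrS
              (2 * j * p + 1) (by omega) hsize hj2 (by
                intro q hq hqd
                exact hb ⟨q, hq, hqd⟩)
      exact (card_le_card g4).trans ((card_union_le _ _).trans (Nat.add_le_add_left (card_union_le _ _) _))
    have g3r : (((Icc 1 H).filter (fun j => 0 < WW X (t / 4) υ lam (lam / υ) (2 * p * j + 1))).card : ℝ) ≤
        ((RR r ((X : ℝ) ^ (t / 4)) p 0 H).card : ℝ) +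
          ((((Icc 1 H).filter (fun j => Bd p X (t / 4) υ j)).card : ℝ) + D.card) := by exact_mod_cast g3
    have g6 : (H : ℝ) / T ≤ δ * c₁ / 4 * (H / Real.log X) := by
      rw [← hT, div_mul_eq_mul_div, div_le_iff₀ hdc] at w4
      rw [div_le_iff₀ hT0, show δ * c₁ / 4 * (H / Real.log X) * T = (T * (δ * c₁) * H / 4) / Real.log X by ring,
        le_div_iff₀ hlX]
      linarith [mul_le_mul_of_nonneg_right w4 hH0'.le]
    have g7 : 0 < δ * c₁ / 4 * (H / Real.log X) := by positivity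
    have g8 : δ * c₁ * (H / Real.log X) = 4 * (δ * c₁ / 4 * (H / Real.log X)) := by ring
    linarith
  have hcard : ((((Icc 1 X).filter Nat.Prime).filter (fun p => ((RR r ((X : ℝ) ^ (t / 4)) p 0 H).card : ℝ) <
      δ * c₁ / 4 * (H / Real.log X))).card : ℝ) ≤ A1.card + (A2.card + A3.card) := by
    exact_mod_cast (card_le_card hsub).trans ((card_union_le _ _).trans (Nat.add_le_add_left (card_union_le _ _) _))
  have hTε : T * T = (X : ℝ) ^ ε := by
    rw [hT, ← Real.rpow_add hX0', add_halves]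
  have hT4 : 4 ≤ T := by rw [hT]; exact w5
  have r1 : (X : ℝ) ^ (1 + ε / 2) / H ≤ (X : ℝ) ^ (1 + ε) / H := by
    apply div_le_div_of_nonneg_right _ hH0'.le
    exact Real.rpow_le_rpow_of_exponent_le hX1 (by linarith)
  have r2 : (X : ℝ) ^ (2 * t + ε / 2) ≤ (X : ℝ) ^ (2 * t + ε) :=
    Real.rpow_le_rpow_of_exponent_le hX1 (by linarith)
  have e2 : (X : ℝ) * (2 / (X : ℝ) ^ (t / 4)) = 2 * (X : ℝ) ^ (1 - t / 4) := by
    rw [Real.rpow_sub hX0', Real.rpow_one]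
    ring
  have e4 : (X : ℝ) ^ υ ≤ (X : ℝ) ^ (1 - t / 4) :=
    Real.rpow_le_rpow_of_exponent_le hX1 (by linarith)
  have e5 : (X : ℝ) ^ (1 / 2 : ℝ) ≤ (X : ℝ) ^ (1 - t / 4) :=
    Real.rpow_le_rpow_of_exponent_le hX1 (by linarith)
  have hY0 : 0 < (X : ℝ) ^ (1 - t / 4) := by positivity
  have r3 : (A2.card : ℝ) + A3.card ≤ (X : ℝ) ^ (1 - t / 4 + ε) := by
    calc (A2.card : ℝ) + A3.card ≤ T * (X * (2 / (X : ℝ) ^ (t / 4)) + (X : ℝ) ^ υ) + (X : ℝ) ^ (1 / 2 : ℝ) :=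
          add_le_add hB hA3c
      _ ≤ T * (3 * (X : ℝ) ^ (1 - t / 4)) + T * (X : ℝ) ^ (1 - t / 4) := by
          rw [e2]
          apply add_le_add
          · apply mul_le_mul_of_nonneg_left _ hT0.le
            linarith
          · nlinarith
      _ = 4 * T * (X : ℝ) ^ (1 - t / 4) := by ring
      _ ≤ T * T * (X : ℝ) ^ (1 - t / 4) := by
          apply mul_le_mul_of_nonneg_right _ hY0.le
          exact mul_le_mul_of_nonneg_right hT4 hT0.le
      _ = (X : ℝ) ^ (1 - t / 4 + ε) := by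
          rw [hTε, ← Real.rpow_add hX0']
          congr 1
          ring
  linarith

end Pool.Agent.Zk48.AP
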