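import Pool.Agent.Zk48.AP.V5

/-!
All lengths `K` at once, for almost all primes `p`.
-/

set_option autoImplicit false

namespace Pool.Agent.Zk48.AP

open Finset Filter Topology
open Pool.Agent.Y677.RSZ (ev_log)
open Pool.Agent.K3h19.RV (Lam)

open Classical in
theorem all_AP (r : ℕ) (hr : 1 ≤ r) (κ t ε : ℝ) (hκ : 0 < κ) (ht0 : 0 < t) (ht : t < 1 / 2)
    (h : 1 + κ < t * Lam r) (hε : 0 < ε) :
    ∃ c : ℝ, 0 < c ∧ ∃ X₀ : ℕ, ∀ X h : ℕ, X₀ ≤ X → (X : ℝ) ^ ε ≤ h →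
      ((((Icc 1 X).filter Nat.Prime).filter (fun p : ℕ => (p : ℝ) ≤ (X : ℝ) ^ (1 / 2 : ℝ) ∨ ∃ K : ℕ, h ≤ K ∧
        (K : ℝ) ≤ (X : ℝ) ^ κ ∧ ((RR r ((X : ℝ) ^ (t / 4)) p 0 K).card : ℝ) < c * (K / Real.log K))).card : ℝ) ≤
        (X : ℝ) ^ (1 + ε) / h + (X : ℝ) ^ (2 * t + ε) + (X : ℝ) ^ (1 - t / 4 + ε) := by
  obtain ⟨c, hc, N₀, hlow⟩ := low_AP r hr κ t (ε / 2) hκ ht0 ht h (by linarith)
  have hcast : Tendsto (fun N : ℕ => (N : ℝ)) atTop atTop := tendsto_natCast_atTop_atTop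
  have v1 := ev_log 1 (4 * κ) (ε / 2) (by linarith)
  have v2 : ∀ᶠ N : ℕ in atTop, (8 : ℝ) ≤ (N : ℝ) ^ (ε / 2) :=
    ((tendsto_rpow_atTop (by linarith)).comp hcast).eventually_ge_atTop _
  obtain ⟨N₁, hN₁⟩ := eventually_atTop.1 (v1.and v2)
  refine ⟨c * ε / 2, by positivity, N₀ + N₁ + 3, fun X h hX hXε => ?_⟩
  obtain ⟨w1, w2⟩ := hN₁ X (by omega)
  rw [pow_one] at w1
  have hX3 : (3 : ℝ) ≤ X := by exact_mod_cast (by omega : 3 ≤ X)
  have hX0' : (0 : ℝ) < X := by linarith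
  have hX1 : (1 : ℝ) ≤ X := by linarith
  have hlX : 0 < Real.log X := Real.log_pos (by linarith)
  have hXε1 : (1 : ℝ) < (X : ℝ) ^ ε := Real.one_lt_rpow (by linarith) hε
  have hh0' : (1 : ℝ) < h := by linarith
  have hh0 : (0 : ℝ) < h := by linarith
  obtain ⟨I, hI⟩ : ∃ I : ℕ, I = ⌊2 * κ * Real.log X⌋₊ + 1 := ⟨_, rfl⟩
  have hIle : (I : ℝ) ≤ 2 * κ * Real.log X + 1 := by
    rw [hI]
    push_cast
    have := Nat.floor_le (show 0 ≤ 2 * κ * Real.log X by positivity)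
    linarith
  obtain ⟨Bad, hBad⟩ : ∃ Bad : ℕ → Finset ℕ, ∀ i, Bad i = ((Icc 1 X).filter Nat.Prime).filter
    (fun p : ℕ => ((RR r ((X : ℝ) ^ (t / 4)) p 0 (h * 2 ^ i)).card : ℝ) < c * (((h * 2 ^ i : ℕ) : ℝ) / Real.log X)) :=
    ⟨_, fun _ => rfl⟩
  obtain ⟨J, hJ⟩ : ∃ J : Finset ℕ, J = (range I).filter (fun i => ((h * 2 ^ i : ℕ) : ℝ) ≤ (X : ℝ) ^ κ) := ⟨_, rfl⟩
  obtain ⟨A3, hA3⟩ : ∃ A3 : Finset ℕ, A3 = Icc 1 ⌊(X : ℝ) ^ (1 / 2 : ℝ)⌋₊ := ⟨_, rfl⟩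
  have hA3c : (A3.card : ℝ) ≤ (X : ℝ) ^ (1 / 2 : ℝ) := by
    rw [hA3, Nat.card_Icc, Nat.add_sub_cancel]
    exact Nat.floor_le (by positivity)
  obtain ⟨E, hE⟩ : ∃ E : ℝ, E = (X : ℝ) ^ (1 + ε / 2) / h + (X : ℝ) ^ (2 * t + ε / 2) + (X : ℝ) ^ (1 - t / 4 + ε / 2) :=
    ⟨_, rfl⟩
  have hsub : ((Icc 1 X).filter Nat.Prime).filter (fun p : ℕ => (p : ℝ) ≤ (X : ℝ) ^ (1 / 2 : ℝ) ∨ ∃ K : ℕ, h ≤ K ∧
        (K : ℝ) ≤ (X : ℝ) ^ κ ∧ ((RR r ((X : ℝ) ^ (t / 4)) p 0 K).card : ℝ) < c * ε / 2 * (K / Real.log K)) ⊆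
      A3 ∪ J.biUnion Bad := by
    intro p hp
    rw [mem_filter] at hp
    obtain ⟨hp1, hp2⟩ := hp
    rw [mem_union, mem_biUnion]
    rcases hp2 with hp2 | ⟨K, hK1, hK2, hK3⟩
    · left
      rw [hA3, mem_Icc]
      exact ⟨(mem_Icc.1 (mem_filter.1 hp1).1).1, Nat.le_floor hp2⟩
    · right
      have hh1 : 0 < h := by exact_mod_cast hh0
      have hKh : 0 < K / h := Nat.div_pos hK1 hh1
      obtain ⟨i, hi⟩ : ∃ i : ℕ, i = Nat.log 2 (K / h) := ⟨_, rfl⟩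
      have hi1 : 2 ^ i ≤ K / h := by rw [hi]; exact Nat.pow_log_le_self 2 hKh.ne'
      have hi2 : K / h < 2 ^ (i + 1) := by rw [hi]; exact Nat.lt_pow_succ_log_self (by norm_num) _
      have hiK : h * 2 ^ i ≤ K := by
        rw [mul_comm]
        exact (Nat.le_div_iff_mul_le hh1).1 hi1
      have hKi : K < 2 * (h * 2 ^ i) := by
        have h1 := (Nat.div_lt_iff_lt_mul hh1).1 hi2
        calc K < 2 ^ (i + 1) * h := h1
          _ = _ := by ring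
      have hiKr : ((h * 2 ^ i : ℕ) : ℝ) ≤ K := by exact_mod_cast hiK
      have hKir : (K : ℝ) ≤ 2 * ((h * 2 ^ i : ℕ) : ℝ) := by exact_mod_cast hKi.le
      have hK1' : (1 : ℝ) < K := lt_of_lt_of_le hh0' (by exact_mod_cast hK1)
      have hlK : 0 < Real.log K := Real.log_pos hK1'
      refine ⟨i, ?_, ?_⟩
      · rw [hJ, mem_filter, mem_range]
        refine ⟨?_, hiKr.trans hK2⟩
        rw [hI]
        apply Nat.lt_succ_of_le
        apply Nat.le_floor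
        have h1 : (2 : ℝ) ^ i ≤ (X : ℝ) ^ κ := by
          have h2 : ((2 ^ i : ℕ) : ℝ) ≤ ((h * 2 ^ i : ℕ) : ℝ) := by exact_mod_cast Nat.le_mul_of_pos_left _ hh1
          push_cast at h2 hiKr
          linarith
        have h2 : (i : ℝ) * Real.log 2 ≤ κ * Real.log X := by
          have h3 := Real.log_le_log (by positivity) h1
          rwa [Real.log_pow, Real.log_rpow hX0'] at h3
        have h3 : (1 : ℝ) / 2 ≤ Real.log 2 := by
          have := Real.log_two_gt_d9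
          linarith
        have h4 : (i : ℝ) * (1 / 2) ≤ (i : ℝ) * Real.log 2 := mul_le_mul_of_nonneg_left h3 (Nat.cast_nonneg _)
        linarith
      · rw [hBad, mem_filter]
        refine ⟨hp1, ?_⟩
        have h1 : RR r ((X : ℝ) ^ (t / 4)) p 0 (h * 2 ^ i) ⊆ RR r ((X : ℝ) ^ (t / 4)) p 0 K := by
          intro k hk
          unfold RR at hk ⊢
          rw [mem_filter, mem_Ioc] at hk ⊢
          exact ⟨⟨hk.1.1, by omega⟩, hk.2⟩
        have h2 : ((RR r ((X : ℝ) ^ (t / 4)) p 0 (h * 2 ^ i)).card : ℝ) ≤ (RR r ((X : ℝ) ^ (t / 4)) p 0 K).card := by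
          exact_mod_cast card_le_card h1
        refine lt_of_le_of_lt h2 (hK3.trans_le ?_)
        have h5 : ε * Real.log X ≤ Real.log K := by
          rw [← Real.log_rpow hX0']
          apply Real.log_le_log (by positivity)
          exact hXε.trans (by exact_mod_cast hK1)
        rw [show c * ε / 2 * (K / Real.log K) = (c * ε * K / 2) / Real.log K by ring,
          show c * (((h * 2 ^ i : ℕ) : ℝ) / Real.log X) = (c * ((h * 2 ^ i : ℕ) : ℝ)) / Real.log X by ring,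
          div_le_div_iff₀ hlK hlX]
        have hK0 : (0 : ℝ) < K := by linarith
        have hcK : 0 ≤ c * (K / 2) := by positivity
        calc c * ε * K / 2 * Real.log X = c * (K / 2) * (ε * Real.log X) := by ring
          _ ≤ c * (K / 2) * Real.log K := mul_le_mul_of_nonneg_left h5 hcK
          _ ≤ c * ((h * 2 ^ i : ℕ) : ℝ) * Real.log K := by
              apply mul_le_mul_of_nonneg_right _ hlK.le
              apply mul_le_mul_of_nonneg_left _ hc.le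
              linarith
  have hBi : ∀ i ∈ J, ((Bad i).card : ℝ) ≤ E := by
    intro i hi
    rw [hJ, mem_filter] at hi
    have hhi : (h : ℝ) ≤ ((h * 2 ^ i : ℕ) : ℝ) := by
      push_cast
      have : (1 : ℝ) ≤ 2 ^ i := one_le_pow₀ (by norm_num)
      nlinarith
    have h1 := hlow X (h * 2 ^ i) (by omega) (by
      calc (X : ℝ) ^ (ε / 2) ≤ (X : ℝ) ^ ε := Real.rpow_le_rpow_of_exponent_le hX1 (by linarith)
        _ ≤ h := hXε
        _ ≤ _ := hhi) hi.2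
    rw [hBad]
    refine h1.trans ?_
    rw [hE]
    have : (X : ℝ) ^ (1 + ε / 2) / ((h * 2 ^ i : ℕ) : ℝ) ≤ (X : ℝ) ^ (1 + ε / 2) / h :=
      div_le_div_of_nonneg_left (by positivity) hh0 hhi
    linarith
  have hE0 : 0 ≤ E := by rw [hE]; positivity
  have e5 : (X : ℝ) ^ (1 / 2 : ℝ) ≤ E := by
    rw [hE]
    have h1 : (X : ℝ) ^ (1 / 2 : ℝ) ≤ (X : ℝ) ^ (1 - t / 4 + ε / 2) :=
      Real.rpow_le_rpow_of_exponent_le hX1 (by linarith)
    have h2 : 0 ≤ (X : ℝ) ^ (1 + ε / 2) / h := by positivity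
    have h3 : 0 ≤ (X : ℝ) ^ (2 * t + ε / 2) := by positivity
    linarith
  have hJc : (J.card : ℝ) ≤ I := by
    have : J.card ≤ I := by
      rw [hJ]
      exact (card_filter_le _ _).trans (card_range I).le
    exact_mod_cast this
  calc ((((Icc 1 X).filter Nat.Prime).filter (fun p : ℕ => (p : ℝ) ≤ (X : ℝ) ^ (1 / 2 : ℝ) ∨ ∃ K : ℕ, h ≤ K ∧
        (K : ℝ) ≤ (X : ℝ) ^ κ ∧ ((RR r ((X : ℝ) ^ (t / 4)) p 0 K).card : ℝ) < c * ε / 2 * (K / Real.log K))).card : ℝ) ≤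
        ((A3 ∪ J.biUnion Bad).card : ℝ) := by exact_mod_cast card_le_card hsub
    _ ≤ (A3.card : ℝ) + ∑ i ∈ J, ((Bad i).card : ℝ) := by
        exact_mod_cast (card_union_le _ _).trans (Nat.add_le_add_left card_biUnion_le _)
    _ ≤ E + ∑ i ∈ J, E := add_le_add (hA3c.trans e5) (sum_le_sum hBi)
    _ = (1 + J.card) * E := by
        rw [sum_const, nsmul_eq_mul]
        ring
    _ ≤ (X : ℝ) ^ (ε / 2) * E := by
        apply mul_le_mul_of_nonneg_right _ hE0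
        linarith
    _ = _ := by
        rw [hE, mul_add, mul_add, mul_div_assoc', ← Real.rpow_add hX0', ← Real.rpow_add hX0', ← Real.rpow_add hX0',
          show ε / 2 + (1 + ε / 2) = 1 + ε by ring, show ε / 2 + (2 * t + ε / 2) = 2 * t + ε by ring,
          show ε / 2 + (1 - t / 4 + ε / 2) = 1 - t / 4 + ε by ring]

end Pool.Agent.Zk48.AP
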